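import Pool.Agent.DSX.Data

/-!
# Certificate data (generated, helper57)
-/

set_option autoImplicit false
set_option maxRecDepth 100000

namespace Pool.Agent.DSX

def c0 : CData where
  kap := 4852814
  E0 := -710678
  B := 180
  K := 3
  dl := 1
  gD := 22
  rho := 0
  A1 := 31914
  a0 := 0
  a1 := 31914
  Y3 := 1680
  qF := [13707, 4038, 3640, 1267, 3439, -58976]
  qD := [13292, 8597, -13156, 22001, -11956]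
  tF := (Tr.sx Tr.lf (Tr.sx (Tr.sx Tr.lf (Tr.sx Tr.lf (Tr.sx (Tr.sx Tr.lf (Tr.sx Tr.lf (Tr.sx
    Tr.lf (Tr.sx Tr.lf Tr.lf)))) Tr.lf))) Tr.lf))
  tD := (Tr.sx Tr.lf (Tr.sx (Tr.sx Tr.lf (Tr.sx Tr.lf (Tr.sx (Tr.sx Tr.lf (Tr.sx Tr.lf (Tr.sx
    (Tr.sy (Tr.sx Tr.lf (Tr.sx Tr.lf (Tr.sy Tr.lf Tr.lf))) (Tr.sx Tr.lf (Tr.sy Tr.lf Tr.lf)))
    (Tr.sy Tr.lf (Tr.sx Tr.lf Tr.lf))))) Tr.lf))) Tr.lf))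
  pcs := [Pc.full 0 22 (Tr.sx Tr.lf (Tr.sx Tr.lf Tr.lf)),
    Pc.last 717 Tr.lf Tr.lf]

theorem c0_ok : c0.ok = true := by decide +kernel

def c1 : CData where
  kap := 4694729
  E0 := -633075
  B := 500
  K := 9
  dl := 14
  gD := 35
  rho := 0
  A1 := 29876
  a0 := 298
  a1 := 23920
  Y3 := 4572
  qF := [11918, 3387, 2304, 413, 8643, -15832]
  qD := [8124, 31476, -72237, 90654, -49272]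
  tF := (Tr.sx Tr.lf (Tr.sx (Tr.sx Tr.lf (Tr.sx Tr.lf (Tr.sx Tr.lf (Tr.sx Tr.lf (Tr.sx (Tr.sx
    Tr.lf Tr.lf) Tr.lf))))) Tr.lf))
  tD := (Tr.sx Tr.lf (Tr.sx (Tr.sx Tr.lf (Tr.sx Tr.lf (Tr.sx Tr.lf (Tr.sx Tr.lf (Tr.sx (Tr.sy
    (Tr.sx (Tr.sx Tr.lf (Tr.sy Tr.lf Tr.lf)) (Tr.sx (Tr.sy Tr.lf Tr.lf) Tr.lf)) (Tr.sx Tr.lf
    (Tr.sy Tr.lf Tr.lf))) Tr.lf))))) Tr.lf))
  pcs := [Pc.full 0 22 (Tr.sx Tr.lf (Tr.sx Tr.lf Tr.lf)),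
    Pc.full 1 35 (Tr.sx Tr.lf (Tr.sx Tr.lf Tr.lf)),
    Pc.full 1 39 (Tr.sx Tr.lf (Tr.sx Tr.lf Tr.lf)),
    Pc.last 730 Tr.lf Tr.lf]

theorem c1_ok : c1.ok = true := by decide +kernel

def c2 : CData where
  kap := 4554001
  E0 := -566514
  B := 800
  K := 14
  dl := 21
  gD := 50
  rho := 0
  A1 := 24273
  a0 := 1082
  a1 := 17064
  Y3 := 7130
  qF := [10286, 2651, 3157, -5336, 26208, -27773]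
  qD := [-5771, 94145, -193631, 203922, -94168]
  tF := (Tr.sx Tr.lf (Tr.sx Tr.lf (Tr.sx (Tr.sx (Tr.sx (Tr.sx (Tr.sx Tr.lf (Tr.sy (Tr.sx Tr.lf
    Tr.lf) (Tr.sx Tr.lf Tr.lf))) Tr.lf) Tr.lf) Tr.lf) Tr.lf)))
  tD := (Tr.sx Tr.lf (Tr.sx Tr.lf (Tr.sx (Tr.sx (Tr.sx (Tr.sx (Tr.sy (Tr.sx Tr.lf (Tr.sx (Tr.sx
    Tr.lf Tr.lf) Tr.lf)) (Tr.sx Tr.lf (Tr.sy (Tr.sx Tr.lf Tr.lf) (Tr.sx Tr.lf Tr.lf)))) (Tr.sx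
    Tr.lf Tr.lf)) Tr.lf) Tr.lf) Tr.lf)))
  pcs := [Pc.full 0 39 (Tr.sx Tr.lf (Tr.sx Tr.lf Tr.lf)),
    Pc.full 1 50 (Tr.sx Tr.lf (Tr.sx Tr.lf Tr.lf)),
    Pc.last 742 Tr.lf Tr.lf]

theorem c2_ok : c2.ok = true := by decide +kernel

def c3 : CData where
  kap := 4441194
  E0 := -514977
  B := 1040
  K := 19
  dl := 13
  gD := 59
  rho := 0
  A1 := 20091
  a0 := 2084
  a1 := 11756
  Y3 := 9536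
  qF := [8806, 1712, 6161, -18785, 59032, -50713]
  qD := [-12753, 111173, -207483, 200205, -83380]
  tF := (Tr.sx Tr.lf (Tr.sx Tr.lf (Tr.sx (Tr.sx (Tr.sx (Tr.sx Tr.lf (Tr.sy (Tr.sx Tr.lf (Tr.sx
    Tr.lf (Tr.sy Tr.lf Tr.lf))) (Tr.sx Tr.lf (Tr.sx (Tr.sy Tr.lf Tr.lf) Tr.lf)))) (Tr.sx (Tr.sx
    (Tr.sy Tr.lf Tr.lf) Tr.lf) Tr.lf)) Tr.lf) Tr.lf)))
  tD := (Tr.sx Tr.lf (Tr.sx Tr.lf (Tr.sx (Tr.sx (Tr.sx (Tr.sx Tr.lf (Tr.sy (Tr.sx Tr.lf (Tr.sx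
    Tr.lf Tr.lf)) (Tr.sx Tr.lf (Tr.sy (Tr.sx Tr.lf Tr.lf) (Tr.sx Tr.lf Tr.lf))))) Tr.lf) Tr.lf)
    Tr.lf)))
  pcs := [Pc.full 0 50 (Tr.sx Tr.lf (Tr.sx Tr.lf (Tr.sx Tr.lf Tr.lf))),
    Pc.full 1 59 (Tr.sx Tr.lf (Tr.sx Tr.lf (Tr.sx Tr.lf Tr.lf))),
    Pc.last 752 Tr.lf (Tr.sx Tr.lf Tr.lf)]

theorem c3_ok : c3.ok = true := by decide +kernel

end Pool.Agent.DSX
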