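import Pool.Agent.DSX.Data

/-!
# Certificate data (generated, helper57)
-/

set_option autoImplicit false
set_option maxRecDepth 100000

namespace Pool.Agent.DSX

def c4 : CData where
  kap := 4332254
  E0 := -466823
  B := 1200
  K := 23
  dl := 19
  gD := 67
  rho := 0
  A1 := 16449
  a0 := 3381
  a1 := 6789
  Y3 := 11702
  qF := [7511, 687, 9874, -34922, 86729, -62161]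
  qD := [-39735, 217653, -382271, 343458, -133025]
  tF := (Tr.sx Tr.lf (Tr.sx Tr.lf (Tr.sx (Tr.sx (Tr.sx Tr.lf (Tr.sx (Tr.sy (Tr.sx Tr.lf (Tr.sy
    Tr.lf (Tr.sx Tr.lf Tr.lf))) (Tr.sx (Tr.sy Tr.lf (Tr.sx Tr.lf Tr.lf)) (Tr.sy Tr.lf Tr.lf)))
    (Tr.sy Tr.lf Tr.lf))) Tr.lf) Tr.lf)))
  tD := (Tr.sx Tr.lf (Tr.sx Tr.lf (Tr.sx (Tr.sx (Tr.sx Tr.lf (Tr.sx (Tr.sy (Tr.sx (Tr.sx Tr.lf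
    Tr.lf) Tr.lf) (Tr.sx Tr.lf (Tr.sx (Tr.sy Tr.lf Tr.lf) Tr.lf))) Tr.lf)) Tr.lf) Tr.lf)))
  pcs := [Pc.full 0 59 (Tr.sx Tr.lf (Tr.sx Tr.lf (Tr.sx (Tr.sy Tr.lf (Tr.sx Tr.lf Tr.lf))
    Tr.lf))),
    Pc.full 1 67 (Tr.sx Tr.lf (Tr.sx Tr.lf (Tr.sx (Tr.sx Tr.lf Tr.lf) Tr.lf))),
    Pc.last 762 Tr.lf (Tr.sx (Tr.sx Tr.lf Tr.lf) Tr.lf)]

theorem c4_ok : c4.ok = true := by decide +kernel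

def c5 : CData where
  kap := 4268674
  E0 := -439484
  B := 965
  K := 22
  dl := 22
  gD := 71
  rho := 0
  A1 := 13540
  a0 := 4302
  a1 := 3980
  Y3 := 12584
  qF := [7195, 29, 13609, -47240, 106462, -70631]
  qD := [-57891, 284886, -482512, 420340, -157840]
  tF := (Tr.sx Tr.lf (Tr.sx Tr.lf (Tr.sx (Tr.sx (Tr.sx (Tr.sx Tr.lf (Tr.sy Tr.lf Tr.lf)) (Tr.sx
    (Tr.sy (Tr.sx (Tr.sy Tr.lf Tr.lf) (Tr.sy (Tr.sy (Tr.sy (Tr.sx Tr.lf Tr.lf) Tr.lf) Tr.lf)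
    (Tr.sx Tr.lf Tr.lf))) (Tr.sx (Tr.sy Tr.lf (Tr.sy (Tr.sx Tr.lf Tr.lf) (Tr.sx Tr.lf Tr.lf)))
    (Tr.sy Tr.lf Tr.lf))) (Tr.sy Tr.lf Tr.lf))) Tr.lf) Tr.lf)))
  tD := (Tr.sx Tr.lf (Tr.sx Tr.lf (Tr.sx (Tr.sx (Tr.sx Tr.lf (Tr.sx (Tr.sy (Tr.sx (Tr.sx Tr.lf
    Tr.lf) Tr.lf) (Tr.sx (Tr.sy (Tr.sx Tr.lf Tr.lf) Tr.lf) (Tr.sx Tr.lf Tr.lf))) Tr.lf)) Tr.lf)
    Tr.lf)))
  pcs := [Pc.full 0 67 (Tr.sx Tr.lf (Tr.sx Tr.lf (Tr.sx (Tr.sy Tr.lf (Tr.sx Tr.lf Tr.lf))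
    Tr.lf))),
    Pc.full 1 71 (Tr.sx Tr.lf (Tr.sx Tr.lf (Tr.sx (Tr.sx Tr.lf Tr.lf) Tr.lf))),
    Pc.last 768 Tr.lf (Tr.sx Tr.lf Tr.lf)]

theorem c5_ok : c5.ok = true := by decide +kernel

def c6 : CData where
  kap := 4258204
  E0 := -435038
  B := 1250
  K := 25
  dl := 10
  gD := 70
  rho := 1145
  A1 := 10798
  a0 := 3297
  a1 := 3473
  Y3 := 10066
  qF := [6391, -568, 16333, -60383, 137201, -93343]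
  qD := [-31014, 168665, -285043, 249414, -93251]
  tF := (Tr.sx Tr.lf (Tr.sx Tr.lf (Tr.sx (Tr.sx (Tr.sx Tr.lf (Tr.sy (Tr.sx Tr.lf (Tr.sy (Tr.sx
    Tr.lf Tr.lf) (Tr.sx (Tr.sx Tr.lf Tr.lf) Tr.lf))) (Tr.sx (Tr.sx Tr.lf (Tr.sy Tr.lf (Tr.sy
    Tr.lf (Tr.sx Tr.lf Tr.lf)))) (Tr.sx (Tr.sy Tr.lf Tr.lf) Tr.lf)))) Tr.lf) Tr.lf)))
  tD := (Tr.sx Tr.lf (Tr.sx Tr.lf (Tr.sx (Tr.sx (Tr.sx Tr.lf (Tr.sx (Tr.sy (Tr.sx Tr.lf (Tr.sx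
    Tr.lf Tr.lf)) (Tr.sx Tr.lf (Tr.sx Tr.lf Tr.lf))) (Tr.sx (Tr.sx Tr.lf Tr.lf) Tr.lf))) Tr.lf)
    Tr.lf)))
  pcs := [Pc.full 0 67 (Tr.sx Tr.lf (Tr.sx Tr.lf (Tr.sx (Tr.sy Tr.lf (Tr.sx (Tr.sy Tr.lf (Tr.sx
    Tr.lf Tr.lf)) Tr.lf)) Tr.lf))),
    Pc.full 1 70 (Tr.sx Tr.lf (Tr.sx Tr.lf (Tr.sx (Tr.sx (Tr.sx Tr.lf Tr.lf) Tr.lf) Tr.lf))),
    Pc.full 1 71 (Tr.sx Tr.lf (Tr.sx Tr.lf (Tr.sx (Tr.sx (Tr.sx Tr.lf Tr.lf) Tr.lf) Tr.lf))),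
    Pc.last 769 Tr.lf (Tr.sx (Tr.sx Tr.lf Tr.lf) Tr.lf)]

theorem c6_ok : c6.ok = true := by decide +kernel

def c7 : CData where
  kap := 4206389
  E0 := -413269
  B := 1010
  K := 23
  dl := 21
  gD := 74
  rho := 0
  A1 := 11914
  a0 := 5317
  a1 := 1280
  Y3 := 13380
  qF := [6441, -793, 17502, -62285, 130158, -81442]
  qD := [-69378, 321093, -529831, 449790, -164088]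
  tF := (Tr.sx Tr.lf (Tr.sx Tr.lf (Tr.sx (Tr.sx (Tr.sx Tr.lf (Tr.sy (Tr.sx (Tr.sx Tr.lf (Tr.sy
    Tr.lf Tr.lf)) (Tr.sy (Tr.sx Tr.lf Tr.lf) (Tr.sx Tr.lf Tr.lf))) (Tr.sx (Tr.sx Tr.lf (Tr.sy
    Tr.lf (Tr.sy (Tr.sx Tr.lf Tr.lf) (Tr.sy Tr.lf (Tr.sx Tr.lf Tr.lf))))) (Tr.sx (Tr.sy Tr.lf
    Tr.lf) Tr.lf)))) Tr.lf) Tr.lf)))
  tD := (Tr.sx Tr.lf (Tr.sx Tr.lf (Tr.sx (Tr.sx (Tr.sx Tr.lf (Tr.sx (Tr.sy (Tr.sx Tr.lf (Tr.sx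
    Tr.lf Tr.lf)) (Tr.sx Tr.lf (Tr.sx Tr.lf Tr.lf))) (Tr.sx Tr.lf Tr.lf))) Tr.lf) Tr.lf)))
  pcs := [Pc.full 0 71 (Tr.sx Tr.lf (Tr.sx Tr.lf (Tr.sx (Tr.sy Tr.lf (Tr.sx Tr.lf Tr.lf))
    Tr.lf))),
    Pc.full 1 74 (Tr.sx Tr.lf (Tr.sx Tr.lf (Tr.sx (Tr.sx Tr.lf Tr.lf) Tr.lf))),
    Pc.last 774 Tr.lf (Tr.sx (Tr.sx Tr.lf Tr.lf) Tr.lf)]

theorem c7_ok : c7.ok = true := by decide +kernel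

end Pool.Agent.DSX
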