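import Pool.Agent.DSX.Data

/-!
# Certificate data (generated, helper57)
-/

set_option autoImplicit false
set_option maxRecDepth 100000

namespace Pool.Agent.DSX

def c8 : CData where
  kap := 4196132
  E0 := -409006
  B := 1260
  K := 26
  dl := 8
  gD := 72
  rho := 2847
  A1 := 5902
  a0 := 2537
  a1 := 828
  Y3 := 6650
  qF := [5545, -1593, 21678, -81013, 174864, -114606]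
  qD := [-31968, 166785, -276281, 237700, -87064]
  tF := (Tr.sx Tr.lf (Tr.sx Tr.lf (Tr.sx (Tr.sx (Tr.sx Tr.lf (Tr.sy (Tr.sx Tr.lf (Tr.sy (Tr.sx
    Tr.lf Tr.lf) (Tr.sx Tr.lf Tr.lf))) (Tr.sx Tr.lf (Tr.sy (Tr.sx Tr.lf Tr.lf) (Tr.sx (Tr.sy
    (Tr.sx Tr.lf Tr.lf) Tr.lf) Tr.lf))))) (Tr.sx (Tr.sy Tr.lf Tr.lf) Tr.lf)) Tr.lf)))
  tD := (Tr.sx Tr.lf (Tr.sx Tr.lf (Tr.sx (Tr.sx (Tr.sx Tr.lf (Tr.sx Tr.lf (Tr.sx (Tr.sy (Tr.sx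
    Tr.lf Tr.lf) (Tr.sx Tr.lf Tr.lf)) Tr.lf))) Tr.lf) Tr.lf)))
  pcs := [Pc.full 0 71 (Tr.sx Tr.lf (Tr.sx (Tr.sx Tr.lf (Tr.sx Tr.lf (Tr.sy Tr.lf Tr.lf))) (Tr.sx
    (Tr.sy (Tr.sx (Tr.sy Tr.lf (Tr.sx Tr.lf Tr.lf)) Tr.lf) (Tr.sx (Tr.sy (Tr.sx Tr.lf Tr.lf)
    (Tr.sx Tr.lf Tr.lf)) Tr.lf)) Tr.lf))),
    Pc.full 1 72 (Tr.sx Tr.lf (Tr.sx Tr.lf (Tr.sx (Tr.sx Tr.lf Tr.lf) Tr.lf))),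
    Pc.full 1 74 (Tr.sx Tr.lf (Tr.sx Tr.lf (Tr.sx (Tr.sx (Tr.sx Tr.lf Tr.lf) Tr.lf) Tr.lf))),
    Pc.last 775 Tr.lf (Tr.sx (Tr.sx Tr.lf Tr.lf) Tr.lf)]

theorem c8_ok : c8.ok = true := by decide +kernel

def c9 : CData where
  kap := 4155449
  E0 := -392257
  B := 1020
  K := 24
  dl := 22
  gD := 77
  rho := 0
  A1 := 10414
  a0 := 6213
  a1 := -881
  Y3 := 14210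
  qF := [5778, -1695, 22119, -78863, 153788, -90908]
  qD := [-88152, 385072, -620098, 513483, -182289]
  tF := (Tr.sx Tr.lf (Tr.sx Tr.lf (Tr.sx (Tr.sx (Tr.sx Tr.lf (Tr.sy (Tr.sx Tr.lf (Tr.sy (Tr.sy
    (Tr.sx Tr.lf Tr.lf) (Tr.sx Tr.lf Tr.lf)) (Tr.sx (Tr.sx Tr.lf Tr.lf) Tr.lf))) (Tr.sx (Tr.sx
    Tr.lf (Tr.sy Tr.lf Tr.lf)) (Tr.sy Tr.lf (Tr.sx (Tr.sy (Tr.sx Tr.lf Tr.lf) Tr.lf) Tr.lf)))))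
    Tr.lf) Tr.lf)))
  tD := (Tr.sx Tr.lf (Tr.sx Tr.lf (Tr.sx (Tr.sx (Tr.sx Tr.lf (Tr.sx Tr.lf (Tr.sx (Tr.sy (Tr.sx
    Tr.lf Tr.lf) (Tr.sx Tr.lf Tr.lf)) Tr.lf))) Tr.lf) Tr.lf)))
  pcs := [Pc.full 0 74 (Tr.sx Tr.lf (Tr.sx Tr.lf (Tr.sx (Tr.sy Tr.lf (Tr.sx (Tr.sy Tr.lf (Tr.sy
    Tr.lf (Tr.sx Tr.lf Tr.lf))) Tr.lf)) Tr.lf))),
    Pc.full 1 77 (Tr.sx Tr.lf (Tr.sx Tr.lf (Tr.sx (Tr.sx (Tr.sx Tr.lf Tr.lf) Tr.lf) Tr.lf))),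
    Pc.last 779 Tr.lf (Tr.sx (Tr.sx (Tr.sx Tr.lf Tr.lf) Tr.lf) Tr.lf)]

theorem c9_ok : c9.ok = true := by decide +kernel

def c10 : CData where
  kap := 4165568
  E0 := -396399
  B := 1260
  K := 26
  dl := 12
  gD := 76
  rho := 2415
  A1 := 5934
  a0 := 3513
  a1 := -452
  Y3 := 8103
  qF := [5195, -2230, 24932, -92249, 182442, -110131]
  qD := [-54434, 250070, -403014, 335424, -119093]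
  tF := (Tr.sx Tr.lf (Tr.sx Tr.lf (Tr.sx (Tr.sx (Tr.sx Tr.lf (Tr.sy (Tr.sx Tr.lf (Tr.sy (Tr.sx
    Tr.lf Tr.lf) (Tr.sx Tr.lf (Tr.sx Tr.lf Tr.lf)))) (Tr.sx Tr.lf (Tr.sy (Tr.sx Tr.lf Tr.lf)
    (Tr.sy (Tr.sx Tr.lf Tr.lf) (Tr.sx Tr.lf Tr.lf)))))) (Tr.sx (Tr.sy Tr.lf Tr.lf) Tr.lf))
    Tr.lf)))
  tD := (Tr.sx Tr.lf (Tr.sx Tr.lf (Tr.sx (Tr.sx (Tr.sx Tr.lf (Tr.sx Tr.lf (Tr.sx (Tr.sy (Tr.sx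
    Tr.lf Tr.lf) Tr.lf) Tr.lf))) Tr.lf) Tr.lf)))
  pcs := [Pc.full 0 74 (Tr.sx Tr.lf (Tr.sx (Tr.sx Tr.lf (Tr.sy Tr.lf Tr.lf)) (Tr.sx (Tr.sy (Tr.sx
    (Tr.sy Tr.lf (Tr.sx Tr.lf Tr.lf)) Tr.lf) (Tr.sx (Tr.sy (Tr.sx Tr.lf Tr.lf) (Tr.sx Tr.lf
    Tr.lf)) Tr.lf)) Tr.lf))),
    Pc.full 1 76 (Tr.sx Tr.lf (Tr.sx Tr.lf (Tr.sx (Tr.sx (Tr.sx Tr.lf Tr.lf) Tr.lf) Tr.lf))),
    Pc.full 1 77 (Tr.sx Tr.lf (Tr.sx Tr.lf (Tr.sx (Tr.sx (Tr.sx Tr.lf Tr.lf) Tr.lf) Tr.lf))),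
    Pc.last 778 Tr.lf (Tr.sx (Tr.sx (Tr.sx Tr.lf Tr.lf) Tr.lf) Tr.lf)]

theorem c10_ok : c10.ok = true := by decide +kernel

def c11 : CData where
  kap := 4105365
  E0 := -371983
  B := 1025
  K := 26
  dl := 19
  gD := 80
  rho := 0
  A1 := 8961
  a0 := 7141
  a1 := -2941
  Y3 := 14941
  qF := [4893, -3098, 29698, -105170, 191968, -107553]
  qD := [-95175, 398279, -623976, 504451, -174364]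
  tF := (Tr.sx Tr.lf (Tr.sx Tr.lf (Tr.sx (Tr.sx (Tr.sx Tr.lf (Tr.sy (Tr.sx Tr.lf (Tr.sy (Tr.sy
    (Tr.sx Tr.lf Tr.lf) (Tr.sx Tr.lf Tr.lf)) (Tr.sx Tr.lf (Tr.sx (Tr.sy Tr.lf Tr.lf) Tr.lf))))
    (Tr.sx Tr.lf (Tr.sy (Tr.sx Tr.lf Tr.lf) (Tr.sy (Tr.sx (Tr.sx Tr.lf Tr.lf) Tr.lf) (Tr.sx
    (Tr.sy Tr.lf (Tr.sy Tr.lf (Tr.sx Tr.lf Tr.lf))) Tr.lf)))))) (Tr.sx (Tr.sy Tr.lf Tr.lf)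
    Tr.lf)) Tr.lf)))
  tD := (Tr.sx Tr.lf (Tr.sx Tr.lf (Tr.sx (Tr.sx (Tr.sx Tr.lf (Tr.sx Tr.lf (Tr.sx (Tr.sy (Tr.sx
    Tr.lf Tr.lf) (Tr.sx Tr.lf Tr.lf)) Tr.lf))) Tr.lf) Tr.lf)))
  pcs := [Pc.full 0 77 (Tr.sx Tr.lf (Tr.sx Tr.lf (Tr.sx (Tr.sy Tr.lf (Tr.sx (Tr.sy Tr.lf (Tr.sy
    Tr.lf (Tr.sx Tr.lf Tr.lf))) Tr.lf)) Tr.lf))),
    Pc.full 1 80 (Tr.sx Tr.lf (Tr.sx Tr.lf (Tr.sx (Tr.sx (Tr.sx Tr.lf Tr.lf) Tr.lf) Tr.lf))),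
    Pc.full 1 81 (Tr.sx Tr.lf (Tr.sx Tr.lf (Tr.sx (Tr.sx (Tr.sx Tr.lf Tr.lf) Tr.lf) Tr.lf))),
    Pc.last 784 Tr.lf (Tr.sx (Tr.sx Tr.lf Tr.lf) Tr.lf)]

theorem c11_ok : c11.ok = true := by decide +kernel

end Pool.Agent.DSX
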