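import Pool.Agent.DSX.Data

/-!
# Certificate data (generated, helper57)
-/

set_option autoImplicit false
set_option maxRecDepth 100000

namespace Pool.Agent.DSX

def c12 : CData where
  kap := 4105365
  E0 := -371983
  B := 1260
  K := 25
  dl := 15
  gD := 79
  rho := 1933
  A1 := 5623
  a0 := 5131
  a1 := -2929
  Y3 := 9221
  qF := [4622, -3059, 29101, -106763, 198063, -112734]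
  qD := [-77863, 333521, -526307, 427143, -147782]
  tF := (Tr.sx Tr.lf (Tr.sx Tr.lf (Tr.sx (Tr.sx (Tr.sx Tr.lf (Tr.sy (Tr.sx Tr.lf (Tr.sy Tr.lf
    Tr.lf)) (Tr.sx Tr.lf (Tr.sy Tr.lf (Tr.sy (Tr.sx Tr.lf (Tr.sx Tr.lf Tr.lf)) (Tr.sx Tr.lf
    Tr.lf)))))) (Tr.sx (Tr.sy (Tr.sx (Tr.sy (Tr.sy (Tr.sx Tr.lf Tr.lf) Tr.lf) (Tr.sx (Tr.sx Tr.lf
    Tr.lf) Tr.lf)) Tr.lf) (Tr.sx (Tr.sy Tr.lf Tr.lf) Tr.lf)) Tr.lf)) Tr.lf)))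
  tD := (Tr.sx Tr.lf (Tr.sx Tr.lf (Tr.sx (Tr.sx (Tr.sx Tr.lf (Tr.sx Tr.lf (Tr.sx Tr.lf (Tr.sy
    (Tr.sx Tr.lf Tr.lf) (Tr.sx Tr.lf Tr.lf))))) Tr.lf) Tr.lf)))
  pcs := [Pc.full 0 77 (Tr.sx Tr.lf (Tr.sx (Tr.sx Tr.lf (Tr.sy Tr.lf Tr.lf)) (Tr.sx (Tr.sy (Tr.sx
    (Tr.sy Tr.lf (Tr.sx Tr.lf Tr.lf)) Tr.lf) (Tr.sx (Tr.sy (Tr.sx Tr.lf (Tr.sx (Tr.sy Tr.lf
    Tr.lf) Tr.lf)) (Tr.sx Tr.lf Tr.lf)) Tr.lf)) Tr.lf))),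
    Pc.full 1 79 (Tr.sx Tr.lf (Tr.sx Tr.lf (Tr.sx (Tr.sx (Tr.sx Tr.lf (Tr.sx Tr.lf Tr.lf)) Tr.lf)
    Tr.lf))),
    Pc.full 1 81 (Tr.sx Tr.lf (Tr.sx Tr.lf (Tr.sx (Tr.sx (Tr.sx Tr.lf Tr.lf) Tr.lf) Tr.lf))),
    Pc.last 784 Tr.lf (Tr.sx Tr.lf Tr.lf)]

theorem c12_ok : c12.ok = true := by decide +kernel

def c13 : CData where
  kap := 4046368
  E0 := -348603
  B := 995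
  K := 26
  dl := 18
  gD := 82
  rho := 0
  A1 := 7573
  a0 := 8380
  a1 := -5318
  Y3 := 15522
  qF := [4191, -4237, 35833, -125744, 219675, -118630]
  qD := [-103913, 421790, -649363, 516620, -175506]
  tF := (Tr.sx Tr.lf (Tr.sx Tr.lf (Tr.sx (Tr.sx (Tr.sx Tr.lf (Tr.sy (Tr.sx Tr.lf (Tr.sy Tr.lf
    (Tr.sx Tr.lf (Tr.sy Tr.lf Tr.lf)))) (Tr.sx Tr.lf (Tr.sy Tr.lf (Tr.sy (Tr.sx Tr.lf (Tr.sx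
    Tr.lf Tr.lf)) (Tr.sx Tr.lf Tr.lf)))))) (Tr.sx (Tr.sy (Tr.sx (Tr.sy (Tr.sy (Tr.sx Tr.lf Tr.lf)
    Tr.lf) Tr.lf) Tr.lf) (Tr.sx (Tr.sy Tr.lf Tr.lf) Tr.lf)) Tr.lf)) Tr.lf)))
  tD := (Tr.sx Tr.lf (Tr.sx Tr.lf (Tr.sx (Tr.sx (Tr.sx Tr.lf (Tr.sx Tr.lf (Tr.sx Tr.lf (Tr.sx
    Tr.lf Tr.lf)))) Tr.lf) Tr.lf)))
  pcs := [Pc.full 0 81 (Tr.sx Tr.lf (Tr.sx Tr.lf (Tr.sx (Tr.sy Tr.lf (Tr.sx (Tr.sy Tr.lf (Tr.sy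
    Tr.lf (Tr.sx Tr.lf (Tr.sy Tr.lf (Tr.sy Tr.lf (Tr.sx Tr.lf (Tr.sy Tr.lf (Tr.sy Tr.lf (Tr.sx
    Tr.lf Tr.lf))))))))) Tr.lf)) Tr.lf))),
    Pc.full 1 82 (Tr.sx Tr.lf (Tr.sx Tr.lf (Tr.sx (Tr.sx (Tr.sx Tr.lf Tr.lf) Tr.lf) Tr.lf))),
    Pc.full 1 84 (Tr.sx Tr.lf (Tr.sx Tr.lf (Tr.sx (Tr.sx (Tr.sx Tr.lf Tr.lf) Tr.lf) Tr.lf))),
    Pc.last 790 Tr.lf (Tr.sx (Tr.sx Tr.lf Tr.lf) Tr.lf)]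

theorem c13_ok : c13.ok = true := by decide +kernel

def c14 : CData where
  kap := 4065901
  E0 := -356283
  B := 1225
  K := 23
  dl := 17
  gD := 81
  rho := 1704
  A1 := 5061
  a0 := 6226
  a1 := -4517
  Y3 := 10212
  qF := [4268, -3729, 32797, -119311, 212103, -116100]
  qD := [-96537, 398517, -619616, 494486, -168047]
  tF := (Tr.sx Tr.lf (Tr.sx Tr.lf (Tr.sx (Tr.sx (Tr.sy (Tr.sx Tr.lf (Tr.sx Tr.lf (Tr.sy Tr.lf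
    Tr.lf))) (Tr.sx Tr.lf (Tr.sx Tr.lf (Tr.sy Tr.lf (Tr.sy (Tr.sx Tr.lf (Tr.sx Tr.lf Tr.lf))
    (Tr.sx Tr.lf Tr.lf)))))) (Tr.sx (Tr.sy (Tr.sy (Tr.sx (Tr.sy (Tr.sy (Tr.sx Tr.lf Tr.lf) Tr.lf)
    Tr.lf) Tr.lf) (Tr.sx (Tr.sx (Tr.sy Tr.lf Tr.lf) Tr.lf) Tr.lf)) (Tr.sx (Tr.sy Tr.lf (Tr.sy
    Tr.lf Tr.lf)) Tr.lf)) Tr.lf)) Tr.lf)))
  tD := (Tr.sx Tr.lf (Tr.sx Tr.lf (Tr.sx (Tr.sx (Tr.sx Tr.lf (Tr.sx Tr.lf (Tr.sx Tr.lf (Tr.sy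
    (Tr.sx Tr.lf Tr.lf) (Tr.sx Tr.lf Tr.lf))))) (Tr.sx (Tr.sx (Tr.sx (Tr.sx Tr.lf Tr.lf) Tr.lf)
    Tr.lf) Tr.lf)) Tr.lf)))
  pcs := [Pc.full 0 81 (Tr.sx Tr.lf (Tr.sx (Tr.sx Tr.lf (Tr.sy Tr.lf Tr.lf)) (Tr.sx (Tr.sy (Tr.sx
    (Tr.sy Tr.lf (Tr.sx Tr.lf Tr.lf)) Tr.lf) (Tr.sx (Tr.sy (Tr.sx Tr.lf (Tr.sy (Tr.sx Tr.lf
    Tr.lf) Tr.lf)) (Tr.sx Tr.lf Tr.lf)) Tr.lf)) Tr.lf))),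
    Pc.full 1 84 (Tr.sx Tr.lf (Tr.sx Tr.lf (Tr.sx (Tr.sx (Tr.sx Tr.lf Tr.lf) Tr.lf) Tr.lf))),
    Pc.last 788 Tr.lf Tr.lf]

theorem c14_ok : c14.ok = true := by decide +kernel

def c15 : CData where
  kap := 3998102
  E0 := -329890
  B := 920
  K := 26
  dl := 14
  gD := 85
  rho := 0
  A1 := 6362
  a0 := 9540
  a1 := -7266
  Y3 := 16360
  qF := [3034, -6787, 50594, -174188, 285401, -146038]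
  qD := [-103381, 404977, -605704, 470944, -155963]
  tF := (Tr.sx Tr.lf (Tr.sx Tr.lf (Tr.sx (Tr.sx (Tr.sy (Tr.sx Tr.lf (Tr.sx Tr.lf (Tr.sy Tr.lf
    (Tr.sx Tr.lf (Tr.sy Tr.lf Tr.lf))))) (Tr.sx Tr.lf (Tr.sx Tr.lf (Tr.sy Tr.lf (Tr.sy (Tr.sx
    Tr.lf (Tr.sx Tr.lf Tr.lf)) (Tr.sx Tr.lf Tr.lf)))))) (Tr.sx (Tr.sy (Tr.sy (Tr.sx (Tr.sy (Tr.sy
    (Tr.sx Tr.lf Tr.lf) Tr.lf) Tr.lf) Tr.lf) (Tr.sx (Tr.sx (Tr.sy Tr.lf Tr.lf) Tr.lf) Tr.lf))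
    (Tr.sx (Tr.sy Tr.lf Tr.lf) Tr.lf)) Tr.lf)) Tr.lf)))
  tD := (Tr.sx Tr.lf (Tr.sx Tr.lf (Tr.sx (Tr.sx (Tr.sx Tr.lf (Tr.sx Tr.lf (Tr.sx Tr.lf (Tr.sx
    Tr.lf Tr.lf)))) Tr.lf) Tr.lf)))
  pcs := [Pc.full 0 84 (Tr.sx Tr.lf (Tr.sx (Tr.sx Tr.lf (Tr.sy Tr.lf Tr.lf)) (Tr.sx (Tr.sy (Tr.sy
    Tr.lf (Tr.sx Tr.lf Tr.lf)) (Tr.sx (Tr.sy Tr.lf (Tr.sy Tr.lf (Tr.sx Tr.lf (Tr.sy Tr.lf (Tr.sy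
    Tr.lf (Tr.sx Tr.lf Tr.lf)))))) Tr.lf)) Tr.lf))),
    Pc.full 1 85 (Tr.sx Tr.lf (Tr.sx Tr.lf (Tr.sx (Tr.sx (Tr.sx Tr.lf Tr.lf) Tr.lf) Tr.lf))),
    Pc.full 1 87 (Tr.sx Tr.lf (Tr.sx Tr.lf (Tr.sx (Tr.sx (Tr.sx Tr.lf Tr.lf) Tr.lf) Tr.lf))),
    Pc.last 795 Tr.lf (Tr.sx (Tr.sx Tr.lf Tr.lf) Tr.lf)]

theorem c15_ok : c15.ok = true := by decide +kernel

end Pool.Agent.DSX
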