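import Pool.Agent.DSX.Data

/-!
# Certificate data (generated, helper57)
-/

set_option autoImplicit false
set_option maxRecDepth 100000

namespace Pool.Agent.DSX

def c16 : CData where
  kap := 3998102
  E0 := -329890
  B := 1145
  K := 21
  dl := 22
  gD := 84
  rho := 1293
  A1 := 4591
  a0 := 8242
  a1 := -7184
  Y3 := 11416
  qF := [3666, 476, -29738, 189850, -485142, 606760, -277849]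
  qD := [-140894, 553427, -842884, 656864, -217638]
  tF := (Tr.sx Tr.lf (Tr.sx Tr.lf (Tr.sx (Tr.sx (Tr.sy Tr.lf (Tr.sx Tr.lf (Tr.sx Tr.lf (Tr.sy
    Tr.lf Tr.lf)))) (Tr.sx (Tr.sy (Tr.sx (Tr.sy (Tr.sy (Tr.sx Tr.lf (Tr.sy Tr.lf Tr.lf)) Tr.lf)
    (Tr.sx (Tr.sy Tr.lf (Tr.sx Tr.lf Tr.lf)) Tr.lf)) (Tr.sy Tr.lf Tr.lf)) (Tr.sx (Tr.sy (Tr.sx
    Tr.lf Tr.lf) (Tr.sx (Tr.sy (Tr.sx Tr.lf Tr.lf) (Tr.sy Tr.lf (Tr.sy Tr.lf (Tr.sx Tr.lf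
    Tr.lf)))) Tr.lf)) Tr.lf)) Tr.lf)) Tr.lf)))
  tD := (Tr.sx Tr.lf (Tr.sx Tr.lf (Tr.sx (Tr.sx Tr.lf (Tr.sx (Tr.sx (Tr.sx (Tr.sx Tr.lf Tr.lf)
    Tr.lf) Tr.lf) Tr.lf)) Tr.lf)))
  pcs := [Pc.full 0 84 (Tr.sx Tr.lf (Tr.sx (Tr.sx Tr.lf (Tr.sy Tr.lf Tr.lf)) (Tr.sx (Tr.sy (Tr.sx
    (Tr.sy Tr.lf (Tr.sx Tr.lf Tr.lf)) Tr.lf) (Tr.sx (Tr.sy (Tr.sx Tr.lf Tr.lf) (Tr.sy Tr.lf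
    (Tr.sx Tr.lf Tr.lf))) Tr.lf)) Tr.lf))),
    Pc.full 1 87 (Tr.sx Tr.lf (Tr.sx Tr.lf (Tr.sx (Tr.sx (Tr.sx Tr.lf Tr.lf) Tr.lf) Tr.lf))),
    Pc.last 795 Tr.lf Tr.lf]

theorem c16_ok : c16.ok = true := by decide +kernel

def c17 : CData where
  kap := 3941235
  E0 := -308334
  B := 810
  K := 25
  dl := 24
  gD := 88
  rho := 0
  A1 := 5154
  a0 := 11011
  a1 := -9528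
  Y3 := 16943
  qF := [2827, -7450, 53474, -177423, 274242, -132498]
  qD := [-181208, 674381, -991429, 752638, -243574]
  tF := (Tr.sx Tr.lf (Tr.sx Tr.lf (Tr.sx (Tr.sx (Tr.sy (Tr.sx Tr.lf (Tr.sx Tr.lf (Tr.sy Tr.lf
    Tr.lf))) (Tr.sx Tr.lf (Tr.sx Tr.lf (Tr.sy Tr.lf (Tr.sy Tr.lf Tr.lf))))) (Tr.sx (Tr.sy (Tr.sy
    (Tr.sx (Tr.sy (Tr.sy (Tr.sx Tr.lf Tr.lf) Tr.lf) Tr.lf) Tr.lf) (Tr.sx (Tr.sx (Tr.sy (Tr.sy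
    Tr.lf Tr.lf) Tr.lf) Tr.lf) Tr.lf)) (Tr.sx (Tr.sy Tr.lf (Tr.sy (Tr.sx (Tr.sx Tr.lf Tr.lf)
    Tr.lf) Tr.lf)) Tr.lf)) Tr.lf)) Tr.lf)))
  tD := (Tr.sx Tr.lf (Tr.sx Tr.lf (Tr.sx (Tr.sx (Tr.sx Tr.lf Tr.lf) (Tr.sx (Tr.sx (Tr.sx (Tr.sx
    (Tr.sx Tr.lf Tr.lf) Tr.lf) Tr.lf) Tr.lf) Tr.lf)) Tr.lf)))
  pcs := [Pc.full 0 87 (Tr.sx Tr.lf (Tr.sx Tr.lf (Tr.sx (Tr.sy (Tr.sy Tr.lf (Tr.sx Tr.lf Tr.lf))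
    (Tr.sy (Tr.sx Tr.lf Tr.lf) (Tr.sx (Tr.sy Tr.lf (Tr.sx Tr.lf (Tr.sy Tr.lf (Tr.sy Tr.lf (Tr.sx
    Tr.lf Tr.lf))))) Tr.lf))) Tr.lf))),
    Pc.full 1 88 (Tr.sx Tr.lf (Tr.sx Tr.lf (Tr.sx (Tr.sx Tr.lf Tr.lf) Tr.lf))),
    Pc.full 1 89 (Tr.sx Tr.lf (Tr.sx Tr.lf (Tr.sx (Tr.sx Tr.lf Tr.lf) Tr.lf))),
    Pc.last 801 Tr.lf (Tr.sx (Tr.sx Tr.lf Tr.lf) Tr.lf)]

theorem c17_ok : c17.ok = true := by decide +kernel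

def c18 : CData where
  kap := 3941235
  E0 := -308334
  B := 1030
  K := 22
  dl := 32
  gD := 87
  rho := 750
  A1 := 4248
  a0 := 10199
  a1 := -9351
  Y3 := 13591
  qF := [3177, -6068, 45192, -153958, 242559, -118738]
  qD := [-227771, 858643, -1284186, 978971, -316634]
  tF := (Tr.sx Tr.lf (Tr.sx Tr.lf (Tr.sx (Tr.sx (Tr.sy Tr.lf (Tr.sx Tr.lf (Tr.sx Tr.lf (Tr.sy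
    Tr.lf Tr.lf)))) (Tr.sx (Tr.sy (Tr.sy (Tr.sy (Tr.sx Tr.lf Tr.lf) (Tr.sx Tr.lf Tr.lf)) (Tr.sx
    (Tr.sx Tr.lf (Tr.sy Tr.lf Tr.lf)) Tr.lf)) (Tr.sx (Tr.sy Tr.lf (Tr.sy (Tr.sx (Tr.sx Tr.lf
    (Tr.sy Tr.lf Tr.lf)) Tr.lf) (Tr.sy Tr.lf (Tr.sx Tr.lf Tr.lf)))) Tr.lf)) Tr.lf)) Tr.lf)))
  tD := (Tr.sx Tr.lf (Tr.sx Tr.lf (Tr.sx (Tr.sx Tr.lf (Tr.sx (Tr.sx (Tr.sx (Tr.sx Tr.lf Tr.lf)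
    Tr.lf) Tr.lf) Tr.lf)) Tr.lf)))
  pcs := [Pc.full 0 87 (Tr.sx Tr.lf (Tr.sx (Tr.sx Tr.lf (Tr.sy Tr.lf Tr.lf)) (Tr.sx (Tr.sy (Tr.sy
    Tr.lf (Tr.sx Tr.lf Tr.lf)) (Tr.sx (Tr.sy Tr.lf (Tr.sy Tr.lf (Tr.sx Tr.lf (Tr.sy Tr.lf (Tr.sy
    Tr.lf (Tr.sx Tr.lf Tr.lf)))))) Tr.lf)) Tr.lf))),
    Pc.full 1 89 (Tr.sx Tr.lf (Tr.sx Tr.lf (Tr.sx (Tr.sx (Tr.sx Tr.lf Tr.lf) Tr.lf) Tr.lf))),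
    Pc.last 796 Tr.lf (Tr.sx (Tr.sx Tr.lf Tr.lf) Tr.lf)]

theorem c18_ok : c18.ok = true := by decide +kernel

def c19 : CData where
  kap := 3885487
  E0 := -287731
  B := 650
  K := 19
  dl := 25
  gD := 90
  rho := 0
  A1 := 3986
  a0 := 12509
  a1 := -11650
  Y3 := 17375
  qF := [2376, -8807, 60979, -198627, 294958, -137058]
  qD := [-206145, 747748, -1079815, 806792, -257110]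
  tF := (Tr.sx Tr.lf (Tr.sx Tr.lf (Tr.sx (Tr.sx (Tr.sy (Tr.sx Tr.lf (Tr.sx Tr.lf (Tr.sy Tr.lf
    Tr.lf))) (Tr.sx Tr.lf (Tr.sx Tr.lf (Tr.sy Tr.lf (Tr.sy Tr.lf Tr.lf))))) (Tr.sx (Tr.sy (Tr.sy
    (Tr.sx (Tr.sy (Tr.sy (Tr.sy (Tr.sx Tr.lf Tr.lf) Tr.lf) Tr.lf) Tr.lf) Tr.lf) (Tr.sx (Tr.sx
    (Tr.sy (Tr.sx Tr.lf Tr.lf) Tr.lf) Tr.lf) Tr.lf)) (Tr.sx (Tr.sy Tr.lf (Tr.sy (Tr.sx (Tr.sx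
    (Tr.sy Tr.lf Tr.lf) Tr.lf) Tr.lf) (Tr.sx Tr.lf Tr.lf))) Tr.lf)) Tr.lf)) Tr.lf)))
  tD := (Tr.sx Tr.lf (Tr.sx Tr.lf (Tr.sx (Tr.sx Tr.lf (Tr.sx (Tr.sx (Tr.sx (Tr.sx (Tr.sx Tr.lf
    Tr.lf) Tr.lf) Tr.lf) Tr.lf) Tr.lf)) Tr.lf)))
  pcs := [Pc.full 0 89 (Tr.sx Tr.lf (Tr.sx (Tr.sx Tr.lf (Tr.sy Tr.lf Tr.lf)) (Tr.sx (Tr.sy (Tr.sy
    Tr.lf (Tr.sx Tr.lf Tr.lf)) (Tr.sy (Tr.sx Tr.lf Tr.lf) (Tr.sx Tr.lf Tr.lf))) Tr.lf))),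
    Pc.full 1 90 (Tr.sx Tr.lf (Tr.sx Tr.lf (Tr.sx (Tr.sx Tr.lf Tr.lf) Tr.lf))),
    Pc.full 1 92 (Tr.sx Tr.lf (Tr.sx Tr.lf (Tr.sx (Tr.sx Tr.lf Tr.lf) Tr.lf))),
    Pc.last 807 Tr.lf Tr.lf]

theorem c19_ok : c19.ok = true := by decide +kernel

end Pool.Agent.DSX
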