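import Pool.Agent.DSX.Data

/-!
# Certificate data (generated, helper57)
-/

set_option autoImplicit false
set_option maxRecDepth 100000

namespace Pool.Agent.DSX

def c20 : CData where
  kap := 3876303
  E0 := -284388
  B := 885
  K := 21
  dl := 43
  gD := 90
  rho := 389
  A1 := 3634
  a0 := 12470
  a1 := -11953
  Y3 := 15394
  qF := [2443, 1244, -52583, 293203, -686035, 768713, -315528]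
  qD := [-349135, 1273268, -1866801, 1390077, -437770]
  tF := (Tr.sx Tr.lf (Tr.sx Tr.lf (Tr.sx (Tr.sx (Tr.sy Tr.lf Tr.lf) (Tr.sy (Tr.sx (Tr.sy (Tr.sx
    (Tr.sy (Tr.sy Tr.lf Tr.lf) Tr.lf) (Tr.sy (Tr.sx (Tr.sy Tr.lf Tr.lf) Tr.lf) Tr.lf)) (Tr.sx
    (Tr.sx Tr.lf (Tr.sy Tr.lf (Tr.sx Tr.lf Tr.lf))) Tr.lf)) Tr.lf) (Tr.sx (Tr.sx (Tr.sy (Tr.sx
    Tr.lf Tr.lf) (Tr.sy (Tr.sx Tr.lf (Tr.sx Tr.lf Tr.lf)) (Tr.sy (Tr.sx Tr.lf Tr.lf) (Tr.sx Tr.lf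
    Tr.lf)))) (Tr.sy Tr.lf Tr.lf)) Tr.lf))) Tr.lf)))
  tD := (Tr.sx Tr.lf (Tr.sx Tr.lf (Tr.sx (Tr.sx Tr.lf (Tr.sx (Tr.sx (Tr.sx Tr.lf (Tr.sx Tr.lf
    Tr.lf)) Tr.lf) Tr.lf)) Tr.lf)))
  pcs := [Pc.full 0 89 (Tr.sx Tr.lf (Tr.sx (Tr.sx Tr.lf (Tr.sy Tr.lf Tr.lf)) (Tr.sx (Tr.sy (Tr.sy
    (Tr.sx Tr.lf Tr.lf) (Tr.sx Tr.lf Tr.lf)) (Tr.sy (Tr.sx Tr.lf Tr.lf) (Tr.sx Tr.lf Tr.lf)))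
    Tr.lf))),
    Pc.full 1 90 (Tr.sx Tr.lf (Tr.sx Tr.lf (Tr.sx (Tr.sx (Tr.sx Tr.lf Tr.lf) Tr.lf) Tr.lf))),
    Pc.full 1 92 (Tr.sx Tr.lf (Tr.sx Tr.lf (Tr.sx (Tr.sx Tr.lf Tr.lf) Tr.lf))),
    Pc.last 803 Tr.lf (Tr.sx (Tr.sx Tr.lf Tr.lf) Tr.lf)]

theorem c20_ok : c20.ok = true := by decide +kernel

def c21 : CData where
  kap := 3830831
  E0 := -268054
  B := 705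
  K := 22
  dl := 64
  gD := 93
  rho := 0
  A1 := 2894
  a0 := 14085
  a1 := -13677
  Y3 := 17757
  qF := [1800, 1998, -68795, 361427, -806479, 854957, -332121]
  qD := [-578237, 2043934, -2935495, 2137816, -657421]
  tF := (Tr.sx Tr.lf (Tr.sx Tr.lf (Tr.sx (Tr.sx (Tr.sy Tr.lf (Tr.sx Tr.lf (Tr.sx Tr.lf (Tr.sy
    Tr.lf Tr.lf)))) (Tr.sy (Tr.sx (Tr.sy (Tr.sy (Tr.sx (Tr.sy (Tr.sx Tr.lf Tr.lf) (Tr.sx Tr.lf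
    Tr.lf)) (Tr.sy Tr.lf Tr.lf)) (Tr.sx Tr.lf Tr.lf)) (Tr.sx (Tr.sx Tr.lf (Tr.sy Tr.lf (Tr.sy
    Tr.lf (Tr.sx Tr.lf Tr.lf)))) Tr.lf)) Tr.lf) (Tr.sx (Tr.sx (Tr.sy (Tr.sx Tr.lf Tr.lf) (Tr.sy
    (Tr.sx Tr.lf Tr.lf) (Tr.sy (Tr.sx Tr.lf Tr.lf) (Tr.sx Tr.lf Tr.lf)))) (Tr.sy Tr.lf Tr.lf))
    Tr.lf))) Tr.lf)))
  tD := (Tr.sx Tr.lf (Tr.sx Tr.lf (Tr.sx (Tr.sx Tr.lf (Tr.sx (Tr.sx (Tr.sx Tr.lf (Tr.sx (Tr.sx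
    (Tr.sy Tr.lf Tr.lf) Tr.lf) Tr.lf)) Tr.lf) Tr.lf)) Tr.lf)))
  pcs := [Pc.full 0 92 (Tr.sx Tr.lf (Tr.sx (Tr.sy Tr.lf Tr.lf) (Tr.sx (Tr.sy (Tr.sy (Tr.sx Tr.lf
    Tr.lf) (Tr.sx Tr.lf Tr.lf)) (Tr.sy (Tr.sx Tr.lf Tr.lf) (Tr.sx Tr.lf Tr.lf))) Tr.lf))),
    Pc.full 1 93 (Tr.sx Tr.lf (Tr.sx Tr.lf (Tr.sx (Tr.sx Tr.lf Tr.lf) Tr.lf))),
    Pc.full 1 95 (Tr.sx Tr.lf (Tr.sx Tr.lf (Tr.sx (Tr.sx Tr.lf Tr.lf) Tr.lf))),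
    Pc.last 813 Tr.lf Tr.lf]

theorem c21_ok : c21.ok = true := by decide +kernel

def c22 : CData where
  kap := 3768407
  E0 := -246232
  B := 495
  K := 18
  dl := 40
  gD := 93
  rho := 0
  A1 := 1875
  a0 := 16020
  a1 := -15925
  Y3 := 17818
  qF := [1546, -10335, 66922, -207979, 290669, -126968]
  qD := [-353940, 1231098, -1740371, 1272272, -397640]
  tF := (Tr.sx Tr.lf (Tr.sx Tr.lf (Tr.sx (Tr.sx (Tr.sy Tr.lf Tr.lf) (Tr.sx (Tr.sy (Tr.sy (Tr.sy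
    (Tr.sx Tr.lf Tr.lf) (Tr.sx Tr.lf Tr.lf)) (Tr.sx (Tr.sx Tr.lf (Tr.sy (Tr.sx Tr.lf Tr.lf)
    Tr.lf)) Tr.lf)) (Tr.sx (Tr.sy Tr.lf (Tr.sy (Tr.sx Tr.lf (Tr.sy Tr.lf (Tr.sx Tr.lf Tr.lf)))
    (Tr.sy Tr.lf (Tr.sx Tr.lf Tr.lf)))) (Tr.sy Tr.lf Tr.lf))) Tr.lf)) Tr.lf)))
  tD := (Tr.sx Tr.lf (Tr.sx Tr.lf (Tr.sx (Tr.sx Tr.lf (Tr.sx (Tr.sx (Tr.sx Tr.lf (Tr.sx (Tr.sx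
    Tr.lf Tr.lf) Tr.lf)) Tr.lf) Tr.lf)) Tr.lf)))
  pcs := [Pc.full 0 93 (Tr.sx Tr.lf (Tr.sx (Tr.sx Tr.lf (Tr.sy Tr.lf Tr.lf)) (Tr.sx (Tr.sy (Tr.sy
    (Tr.sx Tr.lf Tr.lf) (Tr.sx Tr.lf (Tr.sx (Tr.sx (Tr.sy Tr.lf Tr.lf) Tr.lf) Tr.lf))) (Tr.sy
    (Tr.sx Tr.lf Tr.lf) (Tr.sx Tr.lf Tr.lf))) Tr.lf))),
    Pc.full 0 95 (Tr.sx Tr.lf (Tr.sx Tr.lf (Tr.sx (Tr.sx Tr.lf Tr.lf) Tr.lf))),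
    Pc.full 1 97 (Tr.sx Tr.lf (Tr.sx Tr.lf (Tr.sx (Tr.sx Tr.lf Tr.lf) Tr.lf))),
    Pc.last 820 Tr.lf Tr.lf]

theorem c22_ok : c22.ok = true := by decide +kernel

def c23 : CData where
  kap := 3711731
  E0 := -227038
  B := 290
  K := 12
  dl := 90
  gD := 96
  rho := 0
  A1 := 943
  a0 := 17902
  a1 := -17902
  Y3 := 17902
  qF := [1269, -10983, 66204, -194792, 255706, -103367]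
  qD := [-225960, 317239, -75265, 183087, -187086]
  tF := (Tr.sx Tr.lf (Tr.sx Tr.lf (Tr.sx (Tr.sx (Tr.sx Tr.lf (Tr.sy Tr.lf Tr.lf)) (Tr.sx (Tr.sy
    (Tr.sy (Tr.sx (Tr.sy (Tr.sx Tr.lf Tr.lf) Tr.lf) Tr.lf) (Tr.sx (Tr.sx Tr.lf (Tr.sy (Tr.sx
    Tr.lf Tr.lf) Tr.lf)) Tr.lf)) (Tr.sx (Tr.sy Tr.lf (Tr.sx Tr.lf (Tr.sy (Tr.sy Tr.lf (Tr.sx
    Tr.lf Tr.lf)) (Tr.sy Tr.lf (Tr.sy Tr.lf (Tr.sy Tr.lf (Tr.sx Tr.lf Tr.lf))))))) (Tr.sy Tr.lf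
    Tr.lf))) Tr.lf)) Tr.lf)))
  tD := (Tr.sx Tr.lf (Tr.sx Tr.lf (Tr.sx (Tr.sx Tr.lf (Tr.sx (Tr.sx (Tr.sx Tr.lf (Tr.sx Tr.lf
    Tr.lf)) Tr.lf) Tr.lf)) Tr.lf)))
  pcs := [Pc.full 0 96 (Tr.sx Tr.lf (Tr.sx (Tr.sx Tr.lf (Tr.sy Tr.lf Tr.lf)) (Tr.sx (Tr.sy (Tr.sy
    (Tr.sx Tr.lf Tr.lf) (Tr.sx Tr.lf (Tr.sx (Tr.sx (Tr.sy Tr.lf (Tr.sy Tr.lf Tr.lf)) Tr.lf)
    Tr.lf))) (Tr.sy (Tr.sx Tr.lf (Tr.sx Tr.lf Tr.lf)) (Tr.sx Tr.lf Tr.lf))) Tr.lf))),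
    Pc.full 0 97 (Tr.sx Tr.lf (Tr.sx Tr.lf (Tr.sx (Tr.sx Tr.lf Tr.lf) Tr.lf))),
    Pc.last 826 Tr.lf Tr.lf]

theorem c23_ok : c23.ok = true := by decide +kernel

end Pool.Agent.DSX
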