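import Pool.Agent.DSX.Defs

/-!
# Exact tangents at `n = 2`, `n = 3`, and the numerical constants (helper57)
-/

set_option autoImplicit false

namespace Pool.Agent.DSX

open Finset Pool.Agent.Helper86.DistSum

theorem sm2_sq : sm 2 ^ 2 = 1 / 2 := by rw [sm_sq (by norm_num)]; norm_num
theorem sm3_sq : sm 3 ^ 2 = 2 / 3 := by rw [sm_sq (by norm_num)]; norm_num
theorem sm2_pos : 0 < sm 2 := sm_pos (by norm_num)
theorem sm3_pos : 0 < sm 3 := sm_pos (by norm_num)

theorem LL2_half : LL 2 0 + slope (sm 3) (sm 2) * (1 / 2) = ee (sm 2) := by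
  have h := LL_at_inv (m := 2) le_rfl
  rw [LL_affine] at h
  push_cast at h
  norm_num at h ⊢
  exact h

theorem LL2_third : LL 2 0 + slope (sm 3) (sm 2) * (1 / 3) = ee (sm 3) := by
  have h := LL_at_inv_succ (m := 2)
  rw [LL_affine] at h
  push_cast at h
  norm_num at h ⊢
  exact h

theorem DA_two : (∀ x, 0 < x → DA (ww (sm 2)) (ee (sm 2) - ww (sm 2) / 2) x = DD x (sm 2)) ∧
    (∀ n, Dlt (ww (sm 2)) (ee (sm 2) - ww (sm 2) / 2) n
      = (n - 2) * (LL 2 0 - (ee (sm 2) - ww (sm 2) / 2))) := by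
  constructor
  · intro x _
    unfold DA DD
    rw [sm2_sq]
    ring
  · intro n
    have h := LL2_half
    unfold Dlt
    linear_combination 2 * h

theorem DA_three : (∀ x, 0 < x → DA (ww (sm 3)) (ee (sm 3) - ww (sm 3) / 3) x = DD x (sm 3)) ∧
    (∀ n, Dlt (ww (sm 3)) (ee (sm 3) - ww (sm 3) / 3) n
      = (n - 3) * (LL 2 0 - (ee (sm 3) - ww (sm 3) / 3))) := by
  constructor
  · intro x _
    unfold DA DD
    rw [sm3_sq]
    ring
  · intro n
    have h := LL2_third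
    unfold Dlt
    linear_combination 3 * h

theorem sm2_lo : 0.70710678118 < sm 2 := by
  by_contra hcon
  push Not at hcon
  have := sm2_sq
  nlinarith [sm2_pos]

theorem sm2_hi : sm 2 < 0.70710678119 := by
  by_contra hcon
  push Not at hcon
  have := sm2_sq
  nlinarith [sm2_pos]

theorem sm3_lo : 0.81649658092 < sm 3 := by
  by_contra hcon
  push Not at hcon
  have := sm3_sq
  nlinarith [sm3_pos]

theorem sm3_hi : sm 3 < 0.81649658093 := by
  by_contra hcon
  push Not at hcon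
  have := sm3_sq
  nlinarith [sm3_pos]

/-- rational form: `1/(1+t) = (1-t)/(1-t^2)`. -/
theorem ee_two : ee (sm 2) = 3 - 4 * sm 2 := by
  unfold ee
  have h := sm2_sq
  have h1 : (1 + sm 2) ≠ 0 := by linarith [sm2_pos]
  rw [div_eq_iff h1]
  linear_combination 4 * h

theorem ee_three : ee (sm 3) = 5 - 6 * sm 3 := by
  unfold ee
  have h := sm3_sq
  have h1 : (1 + sm 3) ≠ 0 := by linarith [sm3_pos]
  rw [div_eq_iff h1]
  linear_combination 6 * h

theorem slope_eq : slope (sm 3) (sm 2) = 36 * sm 3 - 24 * sm 2 - 12 := by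
  have h2 := LL2_half
  have h3 := LL2_third
  rw [ee_two] at h2
  rw [ee_three] at h3
  linarith

theorem L0_eq : LL 2 0 = 9 - 18 * sm 3 + 8 * sm 2 := by
  have h2 := LL2_half
  have h3 := LL2_third
  rw [ee_two] at h2
  rw [ee_three] at h3
  linarith

theorem ww_two : ww (sm 2) = 12 * sm 2 - 8 := by
  unfold ww
  have h := sm2_sq
  have h0 := sm2_pos
  rw [div_eq_iff (by positivity)]
  have e : (12 * sm 2 - 8) * (sm 2 * (1 + sm 2) ^ 2)
      = (12 * (sm 2 ^ 2) - 8 * sm 2) * (1 + 2 * sm 2 + sm 2 ^ 2) := by ring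
  rw [e, h]
  linear_combination 16 * h

theorem ww_three : ww (sm 3) = (45 * sm 3 - 36) / 2 := by
  unfold ww
  have h := sm3_sq
  have h0 := sm3_pos
  rw [div_eq_iff (by positivity)]
  have e : (45 * sm 3 - 36) / 2 * (sm 3 * (1 + sm 3) ^ 2)
      = (45 * (sm 3 ^ 2) - 36 * sm 3) / 2 * (1 + 2 * sm 3 + sm 3 ^ 2) := by ring
  rw [e, h]
  linear_combination 36 * h

theorem consts_num :
    (-0.0400843 < LL 2 0 ∧ LL 2 0 < -0.040084) ∧ slope (sm 3) (sm 2) < 0.423315 ∧
    ww (sm 2) < 0.4852814 ∧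
    (-0.0710679 < ee (sm 2) - ww (sm 2) / 2 ∧ ee (sm 2) - ww (sm 2) / 2 < -0.0710678) ∧
    ww (sm 3) < 0.3711731 ∧ ee (sm 3) - ww (sm 3) / 3 < -0.0227038 := by
  rw [L0_eq, slope_eq, ww_two, ww_three, ee_two, ee_three]
  have a := sm2_lo
  have b := sm2_hi
  have c := sm3_lo
  have d := sm3_hi
  refine ⟨⟨?_, ?_⟩, ?_, ?_, ⟨?_, ?_⟩, ?_, ?_⟩ <;> linarith

end Pool.Agent.DSX
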