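import Pool.Agent.DSX.Defs

/-!
# Concave integrality and the C-case of the row inequality (helper57)
-/

set_option autoImplicit false

namespace Pool.Agent.DSX

open Finset Pool.Agent.Helper86.DistSum

theorem psi_zero {A1 a0 a1 Y3 : ℝ} (ha0 : 0 ≤ a0) (hY3 : 0 ≤ Y3) : psi A1 a0 a1 Y3 0 = 0 := by
  unfold psi
  have h : 0 ≤ min (a0 + a1 * 0) (Y3 * (1 - 0)) := le_min (by linarith) (by linarith)
  rw [mul_zero]
  exact min_eq_left h

theorem psi_one {A1 a0 a1 Y3 : ℝ} (hA1 : 0 ≤ A1) (ha1 : 0 ≤ a0 + a1) :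
    psi A1 a0 a1 Y3 1 = 0 := by
  unfold psi
  have e : Y3 * (1 - 1) = 0 := by ring
  rw [e]
  have h : min (a0 + a1 * 1) 0 = 0 := min_eq_right (by linarith)
  rw [h]
  exact min_eq_right (by linarith)

/-- subadditivity below 1. -/
theorem psi_sub1 {A1 a0 a1 Y3 a b : ℝ} (hA1 : 0 ≤ A1) (ha0 : 0 ≤ a0) (hY3 : 0 ≤ Y3)
    (ha : 0 ≤ a) (hb : 0 ≤ b) (hab : a + b ≤ 1) :
    psi A1 a0 a1 Y3 (a + b) ≤ psi A1 a0 a1 Y3 a + psi A1 a0 a1 Y3 b := by
  rcases eq_or_lt_of_le (add_nonneg ha hb) with h0 | h0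
  · have h1 : a = 0 := by linarith
    have h2 : b = 0 := by linarith
    rw [h1, h2, add_zero, psi_zero ha0 hY3]
    simp
  -- each affine function l with l 0 ≥ 0: psi(x)/x is decreasing
  have key : ∀ x, 0 ≤ x → x ≤ a + b →
      x / (a + b) * psi A1 a0 a1 Y3 (a + b) ≤ psi A1 a0 a1 Y3 x := by
    intro x hx hxab
    have hr0 : 0 ≤ x / (a + b) := div_nonneg hx h0.le
    have hr1 : x / (a + b) ≤ 1 := by rw [div_le_one h0]; exact hxab
    have e : x / (a + b) * (a + b) = x := by field_simp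
    set r := x / (a + b) with hr
    have p1 : psi A1 a0 a1 Y3 (a + b) ≤ A1 * (a + b) := min_le_left _ _
    have p2 : psi A1 a0 a1 Y3 (a + b) ≤ a0 + a1 * (a + b) :=
      le_trans (min_le_right _ _) (min_le_left _ _)
    have p3 : psi A1 a0 a1 Y3 (a + b) ≤ Y3 * (1 - (a + b)) :=
      le_trans (min_le_right _ _) (min_le_right _ _)
    have q1 := mul_le_mul_of_nonneg_left p1 hr0
    have q2 := mul_le_mul_of_nonneg_left p2 hr0
    have q3 := mul_le_mul_of_nonneg_left p3 hr0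
    have hx2 : psi A1 a0 a1 Y3 x = min (A1 * x) (min (a0 + a1 * x) (Y3 * (1 - x))) := rfl
    rw [hx2]
    refine le_min ?_ (le_min ?_ ?_)
    · have : r * (A1 * (a + b)) = A1 * x := by rw [← e]; ring
      linarith
    · have h3 : r * (a0 + a1 * (a + b)) = r * a0 + a1 * x := by rw [← e]; ring
      have h4 : r * a0 ≤ 1 * a0 := mul_le_mul_of_nonneg_right hr1 ha0
      linarith
    · have h3 : r * (Y3 * (1 - (a + b))) = r * Y3 - Y3 * x := by rw [← e]; ring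
      have h4 : r * Y3 ≤ 1 * Y3 := mul_le_mul_of_nonneg_right hr1 hY3
      linarith
  have k1 := key a ha (by linarith)
  have k2 := key b hb (by linarith)
  have e : a / (a + b) * psi A1 a0 a1 Y3 (a + b) + b / (a + b) * psi A1 a0 a1 Y3 (a + b)
      = psi A1 a0 a1 Y3 (a + b) := by
    rw [← add_mul, ← add_div, div_self h0.ne', one_mul]
  linarith

/-- the reflected function is of the same form: `psi (1 - x)`. -/
theorem psi_refl {A1 a0 a1 Y3 x : ℝ} :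
    psi A1 a0 a1 Y3 (1 - x) = psi Y3 (a0 + a1) (-a1) A1 x := by
  unfold psi
  have e1 : A1 * (1 - x) = A1 * (1 - x) := rfl
  have e2 : a0 + a1 * (1 - x) = a0 + a1 + -a1 * x := by ring
  have e3 : Y3 * (1 - (1 - x)) = Y3 * x := by ring
  rw [e2, e3]
  rw [min_comm (A1 * (1 - x)) _, min_assoc, min_comm (a0 + a1 + -a1 * x) _, min_assoc,
    min_comm (A1 * (1 - x))]

theorem psi_sub2 {A1 a0 a1 Y3 a b : ℝ} (hA1 : 0 ≤ A1) (ha1 : 0 ≤ a0 + a1) (hY3 : 0 ≤ Y3)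
    (ha : a ≤ 1) (hb : b ≤ 1) (hab : 1 ≤ a + b) :
    psi A1 a0 a1 Y3 (a + b - 1) ≤ psi A1 a0 a1 Y3 a + psi A1 a0 a1 Y3 b := by
  have h := psi_sub1 (A1 := Y3) (a0 := a0 + a1) (a1 := -a1) (Y3 := A1) (a := 1 - a) (b := 1 - b)
    hY3 ha1 hA1 (by linarith) (by linarith) (by linarith)
  rw [← psi_refl, ← psi_refl, ← psi_refl] at h
  have e1 : 1 - (1 - a + (1 - b)) = a + b - 1 := by ring
  have e2 : 1 - (1 - a) = a := by ring
  have e3 : 1 - (1 - b) = b := by ring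
  rw [e1, e2, e3] at h
  exact h

theorem psi_fract_subadd {A1 a0 a1 Y3 : ℝ} (hA1 : 0 ≤ A1) (ha0 : 0 ≤ a0)
    (ha1 : 0 ≤ a0 + a1) (hY3 : 0 ≤ Y3) (x y : ℝ) :
    psi A1 a0 a1 Y3 (Int.fract (x + y))
      ≤ psi A1 a0 a1 Y3 (Int.fract x) + psi A1 a0 a1 Y3 (Int.fract y) := by
  set a := Int.fract x with ha
  set b := Int.fract y with hb
  have a0' : 0 ≤ a := Int.fract_nonneg x
  have a1' : a < 1 := Int.fract_lt_one x
  have b0' : 0 ≤ b := Int.fract_nonneg y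
  have b1' : b < 1 := Int.fract_lt_one y
  have hx : x = ⌊x⌋ + a := (Int.floor_add_fract x).symm
  have hy : y = ⌊y⌋ + b := (Int.floor_add_fract y).symm
  rcases lt_or_ge (a + b) 1 with h | h
  · have : Int.fract (x + y) = a + b := by
      rw [Int.fract_eq_iff]
      refine ⟨by positivity, h, ⌊x⌋ + ⌊y⌋, ?_⟩
      push_cast
      linarith
    rw [this]
    exact psi_sub1 hA1 ha0 hY3 a0' b0' h.le
  · have : Int.fract (x + y) = a + b - 1 := by
      rw [Int.fract_eq_iff]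
      refine ⟨by linarith, by linarith, ⌊x⌋ + ⌊y⌋ + 1, ?_⟩
      push_cast
      linarith
    rw [this]
    exact psi_sub2 hA1 ha1 hY3 a1'.le b1'.le h

theorem psi_fract_eq {A1 a0 a1 Y3 c : ℝ} (hA1 : 0 ≤ A1) (ha0 : 0 ≤ a0)
    (ha1 : 0 ≤ a0 + a1) (hY3 : 0 ≤ Y3) (hc : 0 ≤ c) (hc1 : c ≤ 1) :
    psi A1 a0 a1 Y3 (Int.fract c) = psi A1 a0 a1 Y3 c := by
  rcases lt_or_eq_of_le hc1 with h | h
  · rw [Int.fract_eq_self.mpr ⟨hc, h⟩]
  · rw [h, Int.fract_one, psi_zero ha0 hY3, psi_one hA1 ha1]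

/-- concave integrality. -/
theorem psi_int {ι : Type*} (S : Finset ι) (c : ι → ℝ) {A1 a0 a1 Y3 : ℝ} (hA1 : 0 ≤ A1)
    (ha0 : 0 ≤ a0)
    (ha1 : 0 ≤ a0 + a1) (hY3 : 0 ≤ Y3) (hc : ∀ j ∈ S, 0 ≤ c j ∧ c j ≤ 1) (k : ℕ) {φ : ℝ}
    (hφ0 : 0 ≤ φ) (hφ1 : φ ≤ 1) (hsum : ∑ j ∈ S, c j = k + φ) :
    psi A1 a0 a1 Y3 φ ≤ ∑ j ∈ S, psi A1 a0 a1 Y3 (c j) := by
  have e1 : ∑ j ∈ S, psi A1 a0 a1 Y3 (c j) = ∑ j ∈ S, psi A1 a0 a1 Y3 (Int.fract (c j)) := by
    apply Finset.sum_congr rfl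
    intro j hj
    rw [psi_fract_eq hA1 ha0 ha1 hY3 (hc j hj).1 (hc j hj).2]
  have e2 : psi A1 a0 a1 Y3 (Int.fract (∑ j ∈ S, c j))
      ≤ ∑ j ∈ S, psi A1 a0 a1 Y3 (Int.fract (c j)) := by
    have := Finset.le_sum_of_subadditive (fun x : ℝ => psi A1 a0 a1 Y3 (Int.fract x))
      (by simp [psi_zero ha0 hY3]) (fun x y => psi_fract_subadd hA1 ha0 ha1 hY3 x y) S c
    exact this
  have e3 : psi A1 a0 a1 Y3 (Int.fract (∑ j ∈ S, c j)) = psi A1 a0 a1 Y3 φ := by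
    rw [hsum, Int.fract_natCast_add, psi_fract_eq hA1 ha0 ha1 hY3 hφ0 hφ1]
  rw [e1, ← e3]
  exact e2

variable {ι : Type*} [Fintype ι] [DecidableEq ι]

theorem RowHyp.sum_erase {i : ι} {c s : ι → ℝ} {T : ℝ} (h : RowHyp i c s T) :
    ∑ j ∈ univ.erase i, c j = ∑ j, c j - 1 := by
  have := Finset.add_sum_erase univ c (Finset.mem_univ i)
  rw [h.hci] at this
  linarith

/-- the C-case. -/
theorem RowHyp.rowC {i : ι} {c s : ι → ℝ} {T : ℝ} (h : RowHyp i c s T)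
    {kap E0 B K dl lam cD rho lo A1 a0 a1 Y3 : ℝ} {Z : ℝ → ℝ}
    (hD : ∀ x, 0 < x → x ≤ 1 → 0 ≤ DA kap E0 x)
    (hB0 : 0 < B) (hK : 0 < K) (hdl : 0 < dl) (hcD : 0 ≤ cD) (hrho : 0 ≤ rho)
    (hA1 : 0 ≤ A1) (ha0 : 0 ≤ a0) (ha1 : 0 ≤ a0 + a1) (hY3 : 0 ≤ Y3)
    (hA : ∀ x g, 0 < x → x ≤ 1 → 0 < g → g ≤ 1 →
      Z g ≤ S1 x g + (1 - g ^ 2) / B * DA kap E0 x + tht * tau B K dl lam cD x (g ^ 2))
    (hBc : ∀ x g, 0 < x → x ≤ 1 → 0 < g → g ≤ 1 →
      psi A1 a0 a1 Y3 (g ^ 2)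
        ≤ g ^ 2 * (DA kap E0 x + (1 - x ^ 2) * (Z g - rho * (1 - g ^ 2))))
    (hlo : lo ≤ bet i c s) (hhi : bet i c s ≤ B)
    (hn2 : 2 ≤ ∑ j, c j) (hn3 : ∑ j, c j ≤ 3)
    (hfin : Dlt kap E0 (∑ j, c j) < psi A1 a0 a1 Y3 (∑ j, c j - 2) + rho * lo) :
    0 < RR i c s T := by
  have hT := h.hT2 B K dl lam cD hhi hK hdl hcD
  have hth : 0 < tht := by unfold tht; norm_num
  have hT' := mul_le_mul_of_nonneg_left hT hth.le
  have hDi := hD (s i) (h.hs0 i) (h.hs1 i)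
  -- DD(s_i) is distributed
  have hdist : ∑ j ∈ univ.erase i, (1 - s j ^ 2) * c j * (1 - c j) / B * DA kap E0 (s i)
      ≤ DA kap E0 (s i) := by
    have e : ∑ j ∈ univ.erase i, (1 - s j ^ 2) * c j * (1 - c j) / B * DA kap E0 (s i)
        = bet i c s / B * DA kap E0 (s i) := by
      unfold bet
      rw [Finset.sum_div, Finset.sum_mul]
    rw [e]
    have h1 : bet i c s / B ≤ 1 := by rw [div_le_one hB0]; exact hhi
    calc bet i c s / B * DA kap E0 (s i) ≤ 1 * DA kap E0 (s i) :=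
          mul_le_mul_of_nonneg_right h1 hDi
      _ = DA kap E0 (s i) := one_mul _
  have hsplit : ∑ j, c j * DA kap E0 (s j)
      = DA kap E0 (s i) + ∑ j ∈ univ.erase i, c j * DA kap E0 (s j) := by
    rw [← Finset.add_sum_erase univ _ (Finset.mem_univ i), h.hci, one_mul]
  have hint := psi_int (univ.erase i) c hA1 ha0 ha1 hY3 (fun j _ => ⟨h.hc0 j, h.hc1 j⟩) 1
    (φ := ∑ j, c j - 2) (by linarith) (by linarith) (by
      rw [h.sum_erase]; push_cast; ring)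
  have hterm : ∀ j ∈ univ.erase i, psi A1 a0 a1 Y3 (c j) + rho * ((1 - s j ^ 2) * c j * (1 - c j))
      ≤ c j * DA kap E0 (s j) + c j * (1 - s j ^ 2) * S1 (s i) (√(c j))
        + (1 - s j ^ 2) * c j * (1 - c j) / B * DA kap E0 (s i)
        + tht * ((1 - s j ^ 2) * c j * tau B K dl lam cD (s i) (c j)) := by
    intro j _
    have hp : 0 ≤ 1 - s j ^ 2 := by nlinarith [h.hs0 j, h.hs1 j]
    rcases eq_or_lt_of_le (h.hc0 j) with h0 | h0
    · rw [← h0, psi_zero ha0 hY3]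
      simp
    · set g := √(c j) with hg
      have hg0 : 0 < g := Real.sqrt_pos.2 h0
      have hgsq : g ^ 2 = c j := Real.sq_sqrt h0.le
      have hg1 : g ≤ 1 := Real.sqrt_le_one.2 (h.hc1 j)
      have a := hA (s i) g (h.hs0 i) (h.hs1 i) hg0 hg1
      have b := hBc (s j) g (h.hs0 j) (h.hs1 j) hg0 hg1
      rw [hgsq] at a b
      have a' := mul_le_mul_of_nonneg_left a (mul_nonneg hp h0.le)
      have e1 : (1 - s j ^ 2) * c j * (S1 (s i) g + (1 - c j) / B * DA kap E0 (s i)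
          + tht * tau B K dl lam cD (s i) (c j))
          = c j * (1 - s j ^ 2) * S1 (s i) g
            + (1 - s j ^ 2) * c j * (1 - c j) / B * DA kap E0 (s i)
            + tht * ((1 - s j ^ 2) * c j * tau B K dl lam cD (s i) (c j)) := by ring
      have e2 : c j * (DA kap E0 (s j) + (1 - s j ^ 2) * (Z g - rho * (1 - c j)))
          = c j * DA kap E0 (s j) + (1 - s j ^ 2) * c j * Z g
            - rho * ((1 - s j ^ 2) * c j * (1 - c j)) := by ring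
      rw [e1] at a'
      rw [e2] at b
      linarith
  have hsum := Finset.sum_le_sum hterm
  simp only [Finset.sum_add_distrib, ← Finset.mul_sum] at hsum
  have hbet : ∑ j ∈ univ.erase i, (1 - s j ^ 2) * c j * (1 - c j) = bet i c s := rfl
  rw [hbet] at hsum
  have hrl : rho * lo ≤ rho * bet i c s := mul_le_mul_of_nonneg_left hlo hrho
  unfold RR
  rw [h.identity kap E0, hsplit]
  linarith

end Pool.Agent.DSX
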