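import Pool.Agent.DSX.Defs

/-!
# The M-case and the N-case of the row inequality (helper57)
-/

set_option autoImplicit false

namespace Pool.Agent.DSX

open Finset Pool.Agent.Helper86.DistSum

theorem S1_ge_sig {x g : ℝ} (hx : 0 < x) (hx1 : x ≤ 1) (hg : 0 ≤ g) (hg1 : g ≤ 1) :
    (1 - g ^ 2) * sig x ≤ S1 x g := by
  have hD : 0 < 1 - (1 - x) * g := by
    have : (1 - x) * g ≤ (1 - x) * 1 := mul_le_mul_of_nonneg_left hg1 (by linarith)
    linarith
  unfold sig S1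
  split_ifs with hc
  · have h2x : 0 < 2 - x := by linarith
    rw [← mul_div_assoc, div_le_div_iff₀ (by positivity) (by positivity)]
    -- (1-g²) 4(1-x)² x(1+x)² D ≤ (1-x)(1-g) x(1+x)²(2-x)²
    have h1 : 4 * ((1 - x) * (1 + g) * (1 - (1 - x) * g)) ≤ (2 - x) ^ 2 := by
      nlinarith [sq_nonneg ((1 - x) * (1 + g) - (1 - (1 - x) * g))]
    have h2 : 0 ≤ (1 - x) * (1 - g) * (x * (1 + x) ^ 2) := by
      have : 0 ≤ 1 - x := by linarith
      have : 0 ≤ 1 - g := by linarith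
      positivity
    have h3 := mul_le_mul_of_nonneg_left h1 h2
    calc (1 - g ^ 2) * (4 * (1 - x) ^ 2) * (x * (1 + x) ^ 2 * (1 - (1 - x) * g))
        = (1 - x) * (1 - g) * (x * (1 + x) ^ 2) * (4 * ((1 - x) * (1 + g) * (1 - (1 - x) * g))) := by
          ring
      _ ≤ (1 - x) * (1 - g) * (x * (1 + x) ^ 2) * (2 - x) ^ 2 := h3
      _ = (1 - x) * (1 - g) * (x * (1 + x) ^ 2 * (2 - x) ^ 2) := by ring
  · push Not at hc
    rw [← mul_div_assoc, div_le_div_iff₀ (by positivity) (by positivity)]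
    have h1 : (1 + g) * (1 - (1 - x) * g) ≤ 2 * x := by
      have : 0 ≤ (1 - g) * (1 - 2 * (1 - x) - (1 - x) * g) := by
        apply mul_nonneg (by linarith)
        have : (1 - x) * g ≤ (1 - x) * 1 := mul_le_mul_of_nonneg_left hg1 (by linarith)
        linarith
      nlinarith
    have h2 : 0 ≤ (1 - x) * (1 - g) * (x * (1 + x) ^ 2) := by
      have : 0 ≤ 1 - x := by linarith
      have : 0 ≤ 1 - g := by linarith
      positivity
    have h3 := mul_le_mul_of_nonneg_left h1 h2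
    calc (1 - g ^ 2) * (1 - x) * (x * (1 + x) ^ 2 * (1 - (1 - x) * g))
        = (1 - x) * (1 - g) * (x * (1 + x) ^ 2) * ((1 + g) * (1 - (1 - x) * g)) := by ring
      _ ≤ (1 - x) * (1 - g) * (x * (1 + x) ^ 2) * (2 * x) := h3
      _ = (1 - x) * (1 - g) * (2 * x ^ 2 * (1 + x) ^ 2) := by ring

variable {ι : Type*} [Fintype ι] [DecidableEq ι]

theorem RowHyp.bet_nonneg {i : ι} {c s : ι → ℝ} {T : ℝ} (h : RowHyp i c s T) :
    0 ≤ bet i c s := by
  unfold bet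
  apply Finset.sum_nonneg
  intro j _
  have h1 : 0 ≤ 1 - s j ^ 2 := by nlinarith [h.hs0 j, h.hs1 j]
  have h2 : 0 ≤ 1 - c j := by linarith [h.hc1 j]
  exact mul_nonneg (mul_nonneg h1 (h.hc0 j)) h2

theorem RowHyp.bet_le {i : ι} {c s : ι → ℝ} {T : ℝ} (h : RowHyp i c s T) :
    bet i c s ≤ s i ^ 2 := by
  have h1 : ∑ j ∈ univ.erase i, c j * (1 - s j ^ 2) = s i ^ 2 := by
    have := Finset.add_sum_erase univ (fun j => c j * (1 - s j ^ 2)) (Finset.mem_univ i)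
    rw [h.hsum, h.hci] at this
    linarith
  rw [← h1]
  unfold bet
  apply Finset.sum_le_sum
  intro j _
  have h1 : 0 ≤ 1 - s j ^ 2 := by nlinarith [h.hs0 j, h.hs1 j]
  have h2 := mul_nonneg (mul_nonneg h1 (h.hc0 j)) (h.hc0 j)
  nlinarith

/-- the basic lower bound. -/
theorem RowHyp.lower {i : ι} {c s : ι → ℝ} {T : ℝ} (h : RowHyp i c s T) {kap E0 : ℝ}
    (hD : ∀ x, 0 < x → x ≤ 1 → 0 ≤ DA kap E0 x) :
    DA kap E0 (s i) + ∑ j ∈ univ.erase i, c j * DA kap E0 (s j)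
      + bet i c s * (sig (s i) - tht * s i ^ 2) - Dlt kap E0 (∑ j, c j) ≤ RR i c s T := by
  have hth : 0 < tht := by unfold tht; norm_num
  have hT' := mul_le_mul_of_nonneg_left h.hT1 hth.le
  have hsplit : ∑ j, c j * DA kap E0 (s j)
      = DA kap E0 (s i) + ∑ j ∈ univ.erase i, c j * DA kap E0 (s j) := by
    rw [← Finset.add_sum_erase univ _ (Finset.mem_univ i), h.hci, one_mul]
  have hS : bet i c s * sig (s i) ≤ ∑ j ∈ univ.erase i, c j * (1 - s j ^ 2) * S1 (s i) (√(c j)) := by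
    unfold bet
    rw [Finset.sum_mul]
    apply Finset.sum_le_sum
    intro j _
    have h1 : 0 ≤ 1 - s j ^ 2 := by nlinarith [h.hs0 j, h.hs1 j]
    have h2 := S1_ge_sig (h.hs0 i) (h.hs1 i) (Real.sqrt_nonneg (c j))
      (Real.sqrt_le_one.2 (h.hc1 j))
    rw [Real.sq_sqrt (h.hc0 j)] at h2
    have h3 := mul_le_mul_of_nonneg_left h2 (mul_nonneg (h.hc0 j) h1)
    nlinarith [h3]
  unfold RR
  rw [h.identity kap E0, hsplit]
  linarith

theorem RowHyp.rowM {i : ι} {c s : ι → ℝ} {T : ℝ} (h : RowHyp i c s T) {kap E0 bb Dm : ℝ}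
    (hD : ∀ x, 0 < x → x ≤ 1 → 0 ≤ DA kap E0 x)
    (hM1 : ∀ x, 0 < x → x ≤ 1 → Dm ≤ DA kap E0 x + bb * (sig x - tht * x ^ 2))
    (hM2 : ∀ x, 0 < x → x ≤ 1 → Dm ≤ DA kap E0 x + x ^ 2 * (sig x - tht * x ^ 2))
    (hbb : bb ≤ bet i c s) (hfin : Dlt kap E0 (∑ j, c j) < Dm) : 0 < RR i c s T := by
  have hl := h.lower hD
  have hs : 0 ≤ ∑ j ∈ univ.erase i, c j * DA kap E0 (s j) :=
    Finset.sum_nonneg (fun j _ => mul_nonneg (h.hc0 j) (hD _ (h.hs0 j) (h.hs1 j)))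
  have h1 := hM1 (s i) (h.hs0 i) (h.hs1 i)
  have h2 := hM2 (s i) (h.hs0 i) (h.hs1 i)
  have h3 : Dm ≤ DA kap E0 (s i) + bet i c s * (sig (s i) - tht * s i ^ 2) := by
    rcases le_or_gt 0 (sig (s i) - tht * s i ^ 2) with h0 | h0
    · have := mul_le_mul_of_nonneg_right hbb h0
      linarith
    · have := mul_le_mul_of_nonpos_right h.bet_le h0.le
      linarith
  linarith

theorem RowHyp.rowN {i : ι} {c s : ι → ℝ} {T : ℝ} (h : RowHyp i c s T) {kap E0 : ℝ}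
    (hD : ∀ x, 0 < x → x ≤ 1 → 0 ≤ DA kap E0 x)
    (hM2 : ∀ x, 0 < x → x ≤ 1 → 0 < DA kap E0 x + x ^ 2 * (sig x - tht * x ^ 2))
    (hfin : Dlt kap E0 (∑ j, c j) ≤ 0) :
    0 ≤ RR i c s T ∧ (RR i c s T = 0 → Dlt kap E0 (∑ j, c j) = 0 ∧ bet i c s = 0 ∧
      ∀ j, c j ≠ 0 → DA kap E0 (s j) = 0) := by
  have hl := h.lower hD
  have hs : 0 ≤ ∑ j ∈ univ.erase i, c j * DA kap E0 (s j) :=
    Finset.sum_nonneg (fun j _ => mul_nonneg (h.hc0 j) (hD _ (h.hs0 j) (h.hs1 j)))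
  have hDi := hD (s i) (h.hs0 i) (h.hs1 i)
  have h2 := hM2 (s i) (h.hs0 i) (h.hs1 i)
  have hb0 := h.bet_nonneg
  have hb1 := h.bet_le
  have hsi : 0 < s i ^ 2 := by have := h.hs0 i; positivity
  set u := s i ^ 2 with hu
  set w := sig (s i) - tht * u with hw
  set D := DA kap E0 (s i) with hDdef
  have e : D + bet i c s * w = (1 - bet i c s / u) * D + bet i c s / u * (D + u * w) := by
    field_simp
    ring
  have hr0 : 0 ≤ bet i c s / u := div_nonneg hb0 hsi.le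
  have hr1 : bet i c s / u ≤ 1 := by rw [div_le_one hsi]; exact hb1
  have t1 : 0 ≤ (1 - bet i c s / u) * D := mul_nonneg (by linarith) hDi
  have t2 : 0 ≤ bet i c s / u * (D + u * w) := mul_nonneg hr0 h2.le
  refine ⟨by linarith, ?_⟩
  intro h0
  have z1 : Dlt kap E0 (∑ j, c j) = 0 := by linarith
  have z2 : bet i c s / u * (D + u * w) = 0 := by linarith
  have z3 : bet i c s = 0 := by
    rcases mul_eq_zero.1 z2 with z | z
    · rcases div_eq_zero_iff.1 z with z | z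
      · exact z
      · exact absurd z hsi.ne'
    · exact absurd z h2.ne'
  have z4 : D = 0 := by
    have z5 : (1 - bet i c s / u) * D = 0 := by linarith
    rw [z3] at z5
    simpa using z5
  have z6 : ∑ j ∈ univ.erase i, c j * DA kap E0 (s j) = 0 := by linarith
  refine ⟨z1, z3, ?_⟩
  intro j hj
  by_cases hji : j = i
  · rw [hji]; exact z4
  · have := (Finset.sum_eq_zero_iff_of_nonneg
      (fun j _ => mul_nonneg (h.hc0 j) (hD _ (h.hs0 j) (h.hs1 j)))).1 z6 j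
      (Finset.mem_erase.2 ⟨hji, Finset.mem_univ j⟩)
    exact (mul_eq_zero.1 this).resolve_left hj

end Pool.Agent.DSX
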