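import Pool.Agent.DSX.Sound2
import Pool.Agent.DSX.RowC
import Pool.Agent.DSX.RowMN
import Pool.Agent.DSX.EndPoints

/-!
# The row inequality on an interval of `n` from certificates (helper57)
-/

set_option autoImplicit false

namespace Pool.Agent.DSX

open Finset Pool.Agent.Helper86.DistSum

/-- upper bound of `Dlt` at `n = N/100`, in units of `10^-9`. -/
def DU (kap E0 N : ℤ) : ℤ := 423315000 - 100 * kap + N * (-400840) - N * E0

/-- the three lines are above `Dlt` at `n = N/100`. -/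
def lineOK (d : CData) (lo N : ℤ) : Bool :=
  decide (DU d.kap d.E0 N < d.A1 * (N - 200) * 10 + d.rho * lo) &&
  decide (DU d.kap d.E0 N < d.a0 * 1000 + d.a1 * (N - 200) * 10 + d.rho * lo) &&
  decide (DU d.kap d.E0 N < d.Y3 * (300 - N) * 10 + d.rho * lo)

/-- the chain of C-cases. -/
def chainOK (N1 N2 bb : ℤ) : ℤ → List (ℤ × CData) → Bool
  | prev, [] => decide (bb ≤ prev)
  | prev, (tk, d) :: l =>
      okT tk d.kap d.E0 && lineOK d prev N1 && lineOK d prev N2 && chainOK N1 N2 bb d.B l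

/-- the test of one interval (without the polynomial tests). -/
def okI (N1 N2 tm : ℤ) (m : MData) (l : List (ℤ × CData)) : Bool :=
  decide (200 ≤ N1) && decide (N1 < N2) && decide (N2 ≤ 300) && okT tm m.kap m.E0 &&
  decide (DU m.kap m.E0 N1 < m.Dm * 1000) && decide (DU m.kap m.E0 N2 < m.Dm * 1000) &&
  chainOK N1 N2 m.bb 0 l

theorem aff_pos {α β n1 n2 n : ℝ} (h1 : 0 < α + β * n1) (h2 : 0 < α + β * n2) (hn1 : n1 ≤ n)
    (hn2 : n ≤ n2) : 0 < α + β * n := by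
  rcases le_or_gt 0 β with h | h
  · have := mul_le_mul_of_nonneg_left hn1 h
    linarith
  · have := mul_le_mul_of_nonpos_left hn2 h.le
    linarith

theorem Dlt_le {kap E0 : ℤ} {n : ℝ} (hn : 0 ≤ n) :
    Dlt ((kap : ℝ) / 10 ^ 7) ((E0 : ℝ) / 10 ^ 7) n
      ≤ 0.423315 - (kap : ℝ) / 10 ^ 7 + n * (-0.040084 - (E0 : ℝ) / 10 ^ 7) := by
  obtain ⟨⟨_, h1⟩, h2, _⟩ := consts_num
  unfold Dlt
  have h3 : n * (LL 2 0 - (E0 : ℝ) / 10 ^ 7) ≤ n * (-0.040084 - (E0 : ℝ) / 10 ^ 7) :=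
    mul_le_mul_of_nonneg_left (by linarith) hn
  linarith

theorem line_sound {d : CData} {lo N1 N2 : ℤ} {n : ℝ} (h1 : lineOK d lo N1 = true)
    (h2 : lineOK d lo N2 = true) (hn0 : 0 ≤ n) (hn1 : (N1 : ℝ) / 100 ≤ n)
    (hn2 : n ≤ (N2 : ℝ) / 100) :
    Dlt d.kapR d.E0R n < psi d.A1R d.a0R d.a1R d.Y3R (n - 2) + d.rhoR * ((lo : ℝ) / 10 ^ 4) := by
  simp only [lineOK, Bool.and_eq_true, decide_eq_true_eq, DU] at h1 h2
  obtain ⟨⟨a1, a2⟩, a3⟩ := h1
  obtain ⟨⟨b1, b2⟩, b3⟩ := h2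
  have hD := Dlt_le (kap := d.kap) (E0 := d.E0) hn0
  have A1 : (423315000 - 100 * (d.kap : ℝ) + N1 * (-400840) - N1 * d.E0)
      < d.A1 * (N1 - 200) * 10 + d.rho * lo := by exact_mod_cast a1
  have A2 : (423315000 - 100 * (d.kap : ℝ) + N1 * (-400840) - N1 * d.E0)
      < d.a0 * 1000 + d.a1 * (N1 - 200) * 10 + d.rho * lo := by exact_mod_cast a2
  have A3 : (423315000 - 100 * (d.kap : ℝ) + N1 * (-400840) - N1 * d.E0)
      < d.Y3 * (300 - N1) * 10 + d.rho * lo := by exact_mod_cast a3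
  have B1 : (423315000 - 100 * (d.kap : ℝ) + N2 * (-400840) - N2 * d.E0)
      < d.A1 * (N2 - 200) * 10 + d.rho * lo := by exact_mod_cast b1
  have B2 : (423315000 - 100 * (d.kap : ℝ) + N2 * (-400840) - N2 * d.E0)
      < d.a0 * 1000 + d.a1 * (N2 - 200) * 10 + d.rho * lo := by exact_mod_cast b2
  have B3 : (423315000 - 100 * (d.kap : ℝ) + N2 * (-400840) - N2 * d.E0)
      < d.Y3 * (300 - N2) * 10 + d.rho * lo := by exact_mod_cast b3
  have hD' : Dlt d.kapR d.E0R n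
      ≤ 0.423315 - (d.kap : ℝ) / 10 ^ 7 + n * (-0.040084 - (d.E0 : ℝ) / 10 ^ 7) := hD
  have key : Dlt d.kapR d.E0R n - d.rhoR * ((lo : ℝ) / 10 ^ 4)
      < psi d.A1R d.a0R d.a1R d.Y3R (n - 2) := by
    unfold psi
    rw [lt_min_iff, lt_min_iff]
    refine ⟨?_, ?_, ?_⟩
    · have h := aff_pos (α := -(0.423315 - (d.kap : ℝ) / 10 ^ 7) - 2 * d.A1R
          + d.rhoR * ((lo : ℝ) / 10 ^ 4))
        (β := d.A1R - (-0.040084 - (d.E0 : ℝ) / 10 ^ 7)) (n1 := (N1 : ℝ) / 100)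
        (n2 := (N2 : ℝ) / 100) (n := n)
        (by unfold CData.A1R CData.rhoR; linarith) (by unfold CData.A1R CData.rhoR; linarith)
        hn1 hn2
      linarith
    · have h := aff_pos (α := -(0.423315 - (d.kap : ℝ) / 10 ^ 7) + d.a0R - 2 * d.a1R
          + d.rhoR * ((lo : ℝ) / 10 ^ 4))
        (β := d.a1R - (-0.040084 - (d.E0 : ℝ) / 10 ^ 7)) (n1 := (N1 : ℝ) / 100)
        (n2 := (N2 : ℝ) / 100) (n := n)
        (by unfold CData.a0R CData.a1R CData.rhoR; linarith)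
        (by unfold CData.a0R CData.a1R CData.rhoR; linarith) hn1 hn2
      linarith
    · have h := aff_pos (α := -(0.423315 - (d.kap : ℝ) / 10 ^ 7) + 3 * d.Y3R
          + d.rhoR * ((lo : ℝ) / 10 ^ 4))
        (β := -d.Y3R - (-0.040084 - (d.E0 : ℝ) / 10 ^ 7)) (n1 := (N1 : ℝ) / 100)
        (n2 := (N2 : ℝ) / 100) (n := n)
        (by unfold CData.Y3R CData.rhoR; linarith) (by unfold CData.Y3R CData.rhoR; linarith)
        hn1 hn2
      linarith
  linarith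

variable {ι : Type*} [Fintype ι] [DecidableEq ι]

/-- one C-case. -/
theorem RowHyp.caseC {i : ι} {c s : ι → ℝ} {T : ℝ} (h : RowHyp i c s T) {d : CData}
    (hok : d.ok = true) {kap E0 : ℝ} (hk : kap ≤ d.kapR) (hE : E0 ≤ d.E0R)
    (hD : ∀ x, 0 < x → x ≤ 1 → 0 ≤ DA kap E0 x) {lo : ℝ} (hlo : lo ≤ bet i c s)
    (hhi : bet i c s ≤ d.BR) (hn2 : 2 ≤ ∑ j, c j) (hn3 : ∑ j, c j ≤ 3)
    (hfin : Dlt kap E0 (∑ j, c j)
      < psi d.A1R d.a0R d.a1R d.Y3R (∑ j, c j - 2) + d.rhoR * lo) :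
    0 < RR i c s T := by
  have P : d.Pos := by
    have hok' := hok
    simp only [CData.ok, Bool.and_eq_true] at hok'
    exact CData.pos_of_ok hok'.1.1.1
  exact h.rowC hD P.B P.K P.dl (sq_nonneg _) P.rho P.A1 P.a0 P.a01 P.Y3
    (fun x g hx hx1 hg hg1 => CData.A_sound hok hk hE hx hx1 hg hg1)
    (fun x g hx hx1 hg hg1 => CData.B_sound hok hk hE hD hx hx1 hg hg1)
    hlo hhi hn2 hn3 hfin

theorem RowHyp.chain {i : ι} {c s : ι → ℝ} {T : ℝ} (h : RowHyp i c s T) {N1 N2 bb : ℤ}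
    (hn2 : 2 ≤ ∑ j, c j) (hn3 : ∑ j, c j ≤ 3) (hN1 : (N1 : ℝ) / 100 ≤ ∑ j, c j)
    (hN2 : ∑ j, c j ≤ (N2 : ℝ) / 100) (hbb : bet i c s < (bb : ℝ) / 10 ^ 4) :
    ∀ (l : List (ℤ × CData)) (prev : ℤ), chainOK N1 N2 bb prev l = true →
      (∀ x ∈ l, x.2.ok = true) → (prev : ℝ) / 10 ^ 4 ≤ bet i c s → 0 < RR i c s T
  | [], prev, hc, _, hp => by
      simp only [chainOK, decide_eq_true_eq] at hc
      exfalso
      have : (bb : ℝ) ≤ prev := by exact_mod_cast hc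
      have h2 : (bb : ℝ) / 10 ^ 4 ≤ (prev : ℝ) / 10 ^ 4 := by gcongr
      linarith
  | (tk, d) :: l, prev, hc, hl, hp => by
      simp only [chainOK, Bool.and_eq_true] at hc
      obtain ⟨⟨⟨c1, c2⟩, c3⟩, c4⟩ := hc
      rcases le_or_gt (bet i c s) d.BR with hB | hB
      · exact h.caseC (hl (tk, d) (List.mem_cons_self ..)) le_rfl le_rfl
          (fun x hx hx1 => okT_sound c1 hx hx1) hp hB hn2 hn3
          (line_sound c2 c3 (by linarith) hN1 hN2)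
      · exact h.chain hn2 hn3 hN1 hN2 hbb l d.B c4
          (fun x hx => hl x (List.mem_cons_of_mem _ hx)) hB.le

/-- the row inequality on an interior interval. -/
theorem RowHyp.interior {i : ι} {c s : ι → ℝ} {T : ℝ} (h : RowHyp i c s T) {N1 N2 tm : ℤ}
    {m : MData} {l : List (ℤ × CData)} (hm1 : m.ok1 = true) (hm2 : m.ok2 = true)
    (hl : ∀ x ∈ l, x.2.ok = true) (hI : okI N1 N2 tm m l = true)
    (hN1 : (N1 : ℝ) / 100 ≤ ∑ j, c j) (hN2 : ∑ j, c j ≤ (N2 : ℝ) / 100) :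
    0 < RR i c s T := by
  simp only [okI, Bool.and_eq_true, decide_eq_true_eq] at hI
  obtain ⟨⟨⟨⟨⟨⟨i1, i2⟩, i3⟩, i4⟩, i5⟩, i6⟩, i7⟩ := hI
  have j1 : (200 : ℝ) ≤ N1 := by exact_mod_cast i1
  have j3 : (N2 : ℝ) ≤ 300 := by exact_mod_cast i3
  have hn2 : 2 ≤ ∑ j, c j := by linarith
  have hn3 : ∑ j, c j ≤ 3 := by linarith
  rcases le_or_gt m.bbR (bet i c s) with hb | hb
  · simp only [DU] at i5 i6
    have A1 : (423315000 - 100 * (m.kap : ℝ) + N1 * (-400840) - N1 * m.E0) < m.Dm * 1000 := by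
      exact_mod_cast i5
    have A2 : (423315000 - 100 * (m.kap : ℝ) + N2 * (-400840) - N2 * m.E0) < m.Dm * 1000 := by
      exact_mod_cast i6
    have hD : Dlt m.kapR m.E0R (∑ j, c j) ≤ 0.423315 - (m.kap : ℝ) / 10 ^ 7
        + (∑ j, c j) * (-0.040084 - (m.E0 : ℝ) / 10 ^ 7) :=
      Dlt_le (kap := m.kap) (E0 := m.E0) (by linarith)
    have hfin := aff_pos (α := -(0.423315 - (m.kap : ℝ) / 10 ^ 7) + m.DmR)
        (β := -(-0.040084 - (m.E0 : ℝ) / 10 ^ 7)) (n1 := (N1 : ℝ) / 100)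
        (n2 := (N2 : ℝ) / 100) (n := ∑ j, c j)
        (by unfold MData.DmR; linarith) (by unfold MData.DmR; linarith) hN1 hN2
    exact h.rowM (kap := m.kapR) (E0 := m.E0R) (bb := m.bbR) (Dm := m.DmR)
      (fun x hx hx1 => okT_sound i4 hx hx1)
      (fun x hx hx1 => MData.M1_sound hm1 le_rfl le_rfl hx hx1)
      (fun x hx hx1 => MData.M2_sound hm2 le_rfl le_rfl hx hx1) hb (by linarith)
  · exact h.chain hn2 hn3 hN1 hN2 hb l 0 i7 hl (by simpa using h.bet_nonneg)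

end Pool.Agent.DSX
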