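import Mathlib

/-!
# A positivity test for integer polynomials in two variables on the unit square (helper57)

Polynomials in one variable are lists of integers (coefficient of `y ^ k` at position `k`), in two
variables lists of such lists.  The test expands around the corner `(1,1)` (Bernstein form);
if that fails the square is halved as prescribed by a tree.
-/

set_option autoImplicit false

namespace Pool.Agent.DSX

/-! ### one variable -/

/-- value of a coefficient list. -/
def ev1 (v : ℝ) : List ℤ → ℝ
  | [] => 0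
  | a :: l => (a : ℝ) + v * ev1 v l

def add1 : List ℤ → List ℤ → List ℤ
  | [], m => m
  | l, [] => l
  | a :: l, b :: m => (a + b) :: add1 l m

theorem ev1_add (v : ℝ) : ∀ l m : List ℤ, ev1 v (add1 l m) = ev1 v l + ev1 v m
  | [], m => by simp [add1, ev1]
  | a :: l, [] => by simp [add1, ev1]
  | a :: l, b :: m => by
      simp only [add1, ev1, ev1_add v l m]
      push_cast
      ring

def scale1 (k : ℤ) (l : List ℤ) : List ℤ := l.map (fun a => k * a)

theorem ev1_scale (v : ℝ) (k : ℤ) : ∀ l : List ℤ, ev1 v (scale1 k l) = k * ev1 v l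
  | [] => by simp [scale1, ev1]
  | a :: l => by
      have h := ev1_scale v k l
      unfold scale1 at h ⊢
      simp only [List.map_cons, ev1, h]
      push_cast
      ring

def mul1 : List ℤ → List ℤ → List ℤ
  | [], _ => []
  | a :: l, m => add1 (scale1 a m) (0 :: mul1 l m)

theorem ev1_mul (v : ℝ) (m : List ℤ) : ∀ l : List ℤ, ev1 v (mul1 l m) = ev1 v l * ev1 v m
  | [] => by simp [mul1, ev1]
  | a :: l => by
      simp only [mul1, ev1_add, ev1_scale, ev1, ev1_mul v m l]
      push_cast
      ring

/-! ### two variables -/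

def ev2 (u v : ℝ) : List (List ℤ) → ℝ
  | [] => 0
  | r :: M => ev1 v r + u * ev2 u v M

def add2 : List (List ℤ) → List (List ℤ) → List (List ℤ)
  | [], m => m
  | l, [] => l
  | a :: l, b :: m => add1 a b :: add2 l m

theorem ev2_add (u v : ℝ) : ∀ l m : List (List ℤ), ev2 u v (add2 l m) = ev2 u v l + ev2 u v m
  | [], m => by simp [add2, ev2]
  | a :: l, [] => by simp [add2, ev2]
  | a :: l, b :: m => by
      simp only [add2, ev2, ev2_add u v l m, ev1_add]
      ring

def scale2 (k : ℤ) (l : List (List ℤ)) : List (List ℤ) := l.map (scale1 k)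

theorem ev2_scale (u v : ℝ) (k : ℤ) : ∀ l : List (List ℤ), ev2 u v (scale2 k l) = k * ev2 u v l
  | [] => by simp [scale2, ev2]
  | a :: l => by
      have h := ev2_scale u v k l
      unfold scale2 at h ⊢
      simp only [List.map_cons, ev2, h, ev1_scale]
      ring

/-- multiplication by a polynomial in the second variable. -/
def mulr (r : List ℤ) (l : List (List ℤ)) : List (List ℤ) := l.map (mul1 r)

theorem ev2_mulr (u v : ℝ) (r : List ℤ) :
    ∀ l : List (List ℤ), ev2 u v (mulr r l) = ev1 v r * ev2 u v l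
  | [] => by simp [mulr, ev2]
  | a :: l => by
      have h := ev2_mulr u v r l
      unfold mulr at h ⊢
      simp only [List.map_cons, ev2, h, ev1_mul]
      ring

def mul2 : List (List ℤ) → List (List ℤ) → List (List ℤ)
  | [], _ => []
  | a :: l, m => add2 (mulr a m) ([] :: mul2 l m)

theorem ev2_mul (u v : ℝ) (m : List (List ℤ)) :
    ∀ l : List (List ℤ), ev2 u v (mul2 l m) = ev2 u v l * ev2 u v m
  | [] => by simp [mul2, ev2]
  | a :: l => by
      simp only [mul2, ev2_add, ev2_mulr, ev2, ev2_mul u v m l, ev1]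
      ring

/-! ### Taylor shift, reversal, halving -/

/-- `p (x + 1)` in one variable, for coefficient lists. -/
def shift1 : List ℤ → List ℤ
  | [] => []
  | a :: l => let s := shift1 l; add1 (a :: s) s

theorem ev1_shift (v : ℝ) : ∀ l : List ℤ, ev1 v (shift1 l) = ev1 (v + 1) l
  | [] => by simp [shift1, ev1]
  | a :: l => by
      simp only [shift1, ev1_add, ev1, ev1_shift v l]
      ring

def shift2 : List (List ℤ) → List (List ℤ)
  | [] => []
  | a :: l => let s := shift2 l; add2 (a :: s) s

theorem ev2_shift (u v : ℝ) : ∀ l : List (List ℤ), ev2 u v (shift2 l) = ev2 (u + 1) v l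
  | [] => by simp [shift2, ev2]
  | a :: l => by
      simp only [shift2, ev2_add, ev2, ev2_shift u v l]
      ring

/-! ### lengths -/

theorem len_add1 : ∀ {l m : List ℤ} {n : ℕ}, l.length = n → m.length = n → (add1 l m).length = n
  | [], m, n, h1, h2 => by simpa [add1] using h2
  | a :: l, [], n, h1, h2 => by simpa [add1] using h1
  | a :: l, b :: m, n, h1, h2 => by
      cases n with
      | zero => simp at h1
      | succ n =>
        simp only [add1, List.length_cons, Nat.add_right_cancel_iff] at *
        exact len_add1 h1 h2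

theorem len_scale1 (k : ℤ) (l : List ℤ) : (scale1 k l).length = l.length := by
  simp [scale1]

theorem len_shift1 : ∀ l : List ℤ, (shift1 l).length = l.length
  | [] => rfl
  | a :: l => by
      have h := len_shift1 l
      simp only [shift1]
      -- lengths: l+1 and l
      have key : ∀ (p q : List ℤ), q.length ≤ p.length → (add1 p q).length = p.length := by
        intro p
        induction p with
        | nil => intro q hq; cases q with
          | nil => rfl
          | cons b q => simp at hq
        | cons a p ih => intro q hq; cases q with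
          | nil => rfl
          | cons b q =>
            simp only [add1, List.length_cons, Nat.add_right_cancel_iff]
            exact ih q (by simpa using hq)
      rw [key _ _ (by simp), List.length_cons, List.length_cons, h]

/-! ### reversal -/

theorem ev1_append (v : ℝ) (a : ℤ) : ∀ l : List ℤ, ev1 v (l ++ [a]) = ev1 v l + v ^ l.length * a
  | [] => by simp [ev1]
  | b :: l => by
      simp only [List.cons_append, ev1, ev1_append v a l, List.length_cons]
      ring

theorem ev1_reverse {v w : ℝ} (h : v * w = 1) :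
    ∀ l : List ℤ, v ^ l.length * ev1 w l.reverse = v * ev1 v l
  | [] => by simp [ev1]
  | a :: l => by
      have ih := ev1_reverse h l
      rw [List.reverse_cons, ev1_append, List.length_reverse, List.length_cons, ev1]
      have h2 : v ^ l.length * w ^ l.length = 1 := by rw [← mul_pow, h, one_pow]
      calc v ^ (l.length + 1) * (ev1 w l.reverse + w ^ l.length * a)
          = v * (v ^ l.length * ev1 w l.reverse) + v * (v ^ l.length * w ^ l.length) * a := by ring
        _ = v * (a + v * ev1 v l) := by rw [ih, h2]; ring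

theorem ev2_append (u v : ℝ) (r : List ℤ) :
    ∀ M : List (List ℤ), ev2 u v (M ++ [r]) = ev2 u v M + u ^ M.length * ev1 v r
  | [] => by simp [ev2]
  | b :: M => by
      simp only [List.cons_append, ev2, ev2_append u v r M, List.length_cons]
      ring

theorem ev2_reverse {u z : ℝ} (v : ℝ) (h : u * z = 1) :
    ∀ M : List (List ℤ), u ^ M.length * ev2 z v M.reverse = u * ev2 u v M
  | [] => by simp [ev2]
  | a :: M => by
      have ih := ev2_reverse v h M
      rw [List.reverse_cons, ev2_append, List.length_reverse, List.length_cons, ev2]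
      have h2 : u ^ M.length * z ^ M.length = 1 := by rw [← mul_pow, h, one_pow]
      calc u ^ (M.length + 1) * (ev2 z v M.reverse + z ^ M.length * ev1 v a)
          = u * (u ^ M.length * ev2 z v M.reverse)
            + u * (u ^ M.length * z ^ M.length) * ev1 v a := by ring
        _ = u * (ev1 v a + u * ev2 u v M) := by rw [ih, h2]; ring

/-- all rows have length `n`. -/
def Rect (n : ℕ) (M : List (List ℤ)) : Prop := ∀ r ∈ M, r.length = n

theorem Rect.nil (n : ℕ) : Rect n [] := by intro r hr; simp at hr

theorem Rect.cons_iff {n : ℕ} {r : List ℤ} {M : List (List ℤ)} :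
    Rect n (r :: M) ↔ r.length = n ∧ Rect n M := by
  unfold Rect
  simp

theorem Rect.add2 {n : ℕ} : ∀ {M N : List (List ℤ)}, Rect n M → Rect n N → Rect n (add2 M N)
  | [], N, _, h2 => by simpa [DSX.add2] using h2
  | a :: M, [], h1, _ => by simpa [DSX.add2] using h1
  | a :: M, b :: N, h1, h2 => by
      rw [Rect.cons_iff] at h1 h2
      simp only [DSX.add2, Rect.cons_iff]
      exact ⟨len_add1 h1.1 h2.1, Rect.add2 h1.2 h2.2⟩

theorem Rect.shift2 {n : ℕ} : ∀ {M : List (List ℤ)}, Rect n M → Rect n (shift2 M)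
  | [], _ => by simpa [DSX.shift2] using Rect.nil n
  | a :: M, h => by
      rw [Rect.cons_iff] at h
      have ih := Rect.shift2 h.2
      simp only [DSX.shift2]
      exact Rect.add2 (Rect.cons_iff.2 ⟨h.1, ih⟩) ih

theorem Rect.map {n m : ℕ} {M : List (List ℤ)} (h : Rect n M) (f : List ℤ → List ℤ)
    (hf : ∀ r, r.length = n → (f r).length = m) : Rect m (M.map f) := by
  intro r hr
  obtain ⟨q, hq, rfl⟩ := List.mem_map.1 hr
  exact hf q (h q hq)

/-- reversal in the second variable -/
theorem ev2_mapreverse {v w : ℝ} (u : ℝ) (h : v * w = 1) {n : ℕ} :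
    ∀ {M : List (List ℤ)}, Rect n M → v ^ n * ev2 u w (M.map List.reverse) = v * ev2 u v M
  | [], _ => by simp [ev2]
  | a :: M, hM => by
      rw [Rect.cons_iff] at hM
      have ih := ev2_mapreverse u h hM.2
      have h1 := ev1_reverse h a
      rw [hM.1] at h1
      simp only [List.map_cons, ev2]
      calc v ^ n * (ev1 w a.reverse + u * ev2 u w (List.map List.reverse M))
          = v ^ n * ev1 w a.reverse + u * (v ^ n * ev2 u w (List.map List.reverse M)) := by ring
        _ = v * (ev1 v a + u * ev2 u v M) := by rw [h1, ih]; ring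

theorem ev2_mapshift (u v : ℝ) : ∀ M : List (List ℤ), ev2 u v (M.map shift1) = ev2 u (v + 1) M
  | [] => by simp [ev2]
  | a :: M => by
      simp only [List.map_cons, ev2, ev1_shift, ev2_mapshift u v M]

/-! ### nonnegativity of coefficients -/

def nn1 (l : List ℤ) : Bool := l.all (fun a => decide (0 ≤ a))
def nn2 (M : List (List ℤ)) : Bool := M.all nn1

theorem ev1_nonneg {v : ℝ} (hv : 0 ≤ v) : ∀ {l : List ℤ}, nn1 l = true → 0 ≤ ev1 v l
  | [], _ => by simp [ev1]
  | a :: l, h => by
      simp only [nn1, List.all_cons, Bool.and_eq_true, decide_eq_true_eq] at h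
      have h1 := ev1_nonneg hv (l := l) h.2
      have h2 : (0 : ℝ) ≤ a := by exact_mod_cast h.1
      simp only [ev1]
      positivity

theorem ev2_nonneg {u v : ℝ} (hu : 0 ≤ u) (hv : 0 ≤ v) :
    ∀ {M : List (List ℤ)}, nn2 M = true → 0 ≤ ev2 u v M
  | [], _ => by simp [ev2]
  | a :: M, h => by
      simp only [nn2, List.all_cons, Bool.and_eq_true] at h
      have h1 := ev2_nonneg hu hv (M := M) h.2
      have h2 := ev1_nonneg hv h.1
      simp only [ev2]
      positivity

/-- the Bernstein test. -/
def bern (M : List (List ℤ)) : Bool :=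
  nn2 (shift2 ((M.map List.reverse).map shift1).reverse)

theorem bern_pos {u v : ℝ} (hu : 0 < u) (hu1 : u ≤ 1) (hv : 0 < v) (hv1 : v ≤ 1) {n : ℕ}
    {M : List (List ℤ)} (hM : Rect n M) (h : bern M = true) : 0 ≤ ev2 u v M := by
  have hx : 0 ≤ 1 / u - 1 := by
    rw [sub_nonneg, le_div_iff₀ hu]; linarith
  have hy : 0 ≤ 1 / v - 1 := by
    rw [sub_nonneg, le_div_iff₀ hv]; linarith
  have h1 := ev2_nonneg hx hy h
  rw [ev2_shift, sub_add_cancel] at h1
  have h2 := ev2_reverse (u := u) (z := 1 / u) (1 / v - 1) (by field_simp)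
    ((M.map List.reverse).map shift1)
  have h3 : 0 ≤ u * ev2 u (1 / v - 1) ((M.map List.reverse).map shift1) := by
    rw [← h2]; positivity
  have h4 : 0 ≤ ev2 u (1 / v - 1) ((M.map List.reverse).map shift1) :=
    nonneg_of_mul_nonneg_right h3 hu
  rw [ev2_mapshift, sub_add_cancel] at h4
  have h5 := ev2_mapreverse (v := v) (w := 1 / v) u (by field_simp) hM
  have h6 : 0 ≤ v * ev2 u v M := by rw [← h5]; positivity
  exact nonneg_of_mul_nonneg_right h6 hv

/-! ### halving -/

def half1 : List ℤ → List ℤ
  | [] => []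
  | a :: l => (a * Int.ofNat (2 ^ l.length)) :: half1 l

theorem len_half1 : ∀ l : List ℤ, (half1 l).length = l.length
  | [] => rfl
  | a :: l => by simp only [half1, List.length_cons, len_half1 l]

theorem ev1_half (v : ℝ) : ∀ l : List ℤ, 2 * ev1 v (half1 l) = 2 ^ l.length * ev1 (v / 2) l
  | [] => by simp [half1, ev1]
  | a :: l => by
      have ih := ev1_half v l
      simp only [half1, ev1, List.length_cons]
      have e : ((a * Int.ofNat (2 ^ l.length) : ℤ) : ℝ) = a * 2 ^ l.length := by push_cast; simp
      rw [e]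
      calc 2 * (a * 2 ^ l.length + v * ev1 v (half1 l))
          = 2 ^ (l.length + 1) * a + v * (2 * ev1 v (half1 l)) := by ring
        _ = 2 ^ (l.length + 1) * (a + v / 2 * ev1 (v / 2) l) := by rw [ih]; ring

theorem ev2_maphalf (u v : ℝ) {n : ℕ} : ∀ {M : List (List ℤ)}, Rect n M →
    2 * ev2 u v (M.map half1) = 2 ^ n * ev2 u (v / 2) M
  | [], _ => by simp [ev2]
  | a :: M, hM => by
      rw [Rect.cons_iff] at hM
      have ih := ev2_maphalf u v hM.2
      have h1 := ev1_half v a
      rw [hM.1] at h1
      simp only [List.map_cons, ev2]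
      calc 2 * (ev1 v (half1 a) + u * ev2 u v (List.map half1 M))
          = 2 * ev1 v (half1 a) + u * (2 * ev2 u v (List.map half1 M)) := by ring
        _ = 2 ^ n * (ev1 (v / 2) a + u * ev2 u (v / 2) M) := by rw [h1, ih]; ring

def half2 : List (List ℤ) → List (List ℤ)
  | [] => []
  | a :: M => scale1 (Int.ofNat (2 ^ M.length)) a :: half2 M

theorem Rect.half2 {n : ℕ} : ∀ {M : List (List ℤ)}, Rect n M → Rect n (half2 M)
  | [], _ => by simpa [DSX.half2] using Rect.nil n
  | a :: M, h => by
      rw [Rect.cons_iff] at h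
      simp only [DSX.half2]
      exact Rect.cons_iff.2 ⟨by rw [len_scale1]; exact h.1, Rect.half2 h.2⟩

theorem ev2_half (u v : ℝ) : ∀ M : List (List ℤ),
    2 * ev2 u v (half2 M) = 2 ^ M.length * ev2 (u / 2) v M
  | [] => by simp [half2, ev2]
  | a :: M => by
      have ih := ev2_half u v M
      simp only [half2, ev2, ev1_scale, List.length_cons]
      have e : ((Int.ofNat (2 ^ M.length) : ℤ) : ℝ) = 2 ^ M.length := by push_cast; simp
      rw [e]
      calc 2 * (2 ^ M.length * ev1 v a + u * ev2 u v (half2 M))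
          = 2 ^ (M.length + 1) * ev1 v a + u * (2 * ev2 u v (half2 M)) := by ring
        _ = 2 ^ (M.length + 1) * (ev1 v a + u / 2 * ev2 (u / 2) v M) := by rw [ih]; ring

/-- subdivision trees. -/
inductive Tr where
  | lf : Tr
  | sx : Tr → Tr → Tr
  | sy : Tr → Tr → Tr

def chk : Tr → List (List ℤ) → Bool
  | Tr.lf, M => bern M
  | Tr.sx a b, M => let H := half2 M; chk a H && chk b (shift2 H)
  | Tr.sy a b, M => let H := M.map half1; chk a H && chk b (H.map shift1)

theorem chk_pos : ∀ (t : Tr) {u v : ℝ}, 0 < u → u ≤ 1 → 0 < v → v ≤ 1 → ∀ {n : ℕ}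
    {M : List (List ℤ)}, Rect n M → chk t M = true → 0 ≤ ev2 u v M
  | Tr.lf, u, v, hu, hu1, hv, hv1, n, M, hM, h => bern_pos hu hu1 hv hv1 hM h
  | Tr.sx a b, u, v, hu, hu1, hv, hv1, n, M, hM, h => by
      simp only [chk, Bool.and_eq_true] at h
      rcases le_or_gt u (1 / 2) with h2 | h2
      · have h3 := chk_pos a (u := 2 * u) (v := v) (by linarith) (by linarith) hv hv1
          hM.half2 h.1
        have h4 := ev2_half (2 * u) v M
        have e : 2 * u / 2 = u := by ring
        rw [e] at h4
        have h5 : 0 ≤ 2 ^ M.length * ev2 u v M := by rw [← h4]; positivity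
        exact nonneg_of_mul_nonneg_right h5 (by positivity)
      · have h3 := chk_pos b (u := 2 * u - 1) (v := v) (by linarith) (by linarith) hv hv1
          hM.half2.shift2 h.2
        rw [ev2_shift, sub_add_cancel] at h3
        have h4 := ev2_half (2 * u) v M
        have e : 2 * u / 2 = u := by ring
        rw [e] at h4
        have h5 : 0 ≤ 2 ^ M.length * ev2 u v M := by rw [← h4]; positivity
        exact nonneg_of_mul_nonneg_right h5 (by positivity)
  | Tr.sy a b, u, v, hu, hu1, hv, hv1, n, M, hM, h => by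
      simp only [chk, Bool.and_eq_true] at h
      have hR : Rect n (M.map half1) := hM.map half1 (fun r hr => by rw [len_half1, hr])
      rcases le_or_gt v (1 / 2) with h2 | h2
      · have h3 := chk_pos a (u := u) (v := 2 * v) hu hu1 (by linarith) (by linarith) hR h.1
        have h4 := ev2_maphalf u (2 * v) hM
        have e : 2 * v / 2 = v := by ring
        rw [e] at h4
        have h5 : 0 ≤ 2 ^ n * ev2 u v M := by rw [← h4]; positivity
        exact nonneg_of_mul_nonneg_right h5 (by positivity)
      · have h3 := chk_pos b (u := u) (v := 2 * v - 1) hu hu1 (by linarith) (by linarith)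
          (hR.map shift1 (fun r hr => by rw [len_shift1, hr])) h.2
        rw [ev2_mapshift, sub_add_cancel] at h3
        have h4 := ev2_maphalf u (2 * v) hM
        have e : 2 * v / 2 = v := by ring
        rw [e] at h4
        have h5 : 0 ≤ 2 ^ n * ev2 u v M := by rw [← h4]; positivity
        exact nonneg_of_mul_nonneg_right h5 (by positivity)

/-! ### padding -/

def padTo : ℕ → List ℤ → List ℤ
  | 0, _ => []
  | n + 1, [] => 0 :: padTo n []
  | n + 1, a :: l => a :: padTo n l

theorem len_padTo : ∀ (n : ℕ) (l : List ℤ), (padTo n l).length = n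
  | 0, _ => by simp [padTo]
  | n + 1, [] => by simp [padTo, len_padTo n []]
  | n + 1, a :: l => by simp [padTo, len_padTo n l]

theorem ev1_padTo (v : ℝ) : ∀ (n : ℕ) (l : List ℤ), l.length ≤ n → ev1 v (padTo n l) = ev1 v l
  | 0, [], _ => by simp [padTo]
  | 0, a :: l, h => by simp at h
  | n + 1, [], _ => by
      have := ev1_padTo v n [] (by simp)
      simp only [padTo, ev1, this]
      simp
  | n + 1, a :: l, h => by
      simp only [padTo, ev1, ev1_padTo v n l (by simpa using h)]

def maxLen : List (List ℤ) → ℕ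
  | [] => 0
  | r :: M => max r.length (maxLen M)

def padM (M : List (List ℤ)) : List (List ℤ) := M.map (padTo (maxLen M))

theorem ev2_padTo (u v : ℝ) (n : ℕ) : ∀ M : List (List ℤ), maxLen M ≤ n →
    ev2 u v (M.map (padTo n)) = ev2 u v M
  | [], _ => by simp [ev2]
  | r :: M, h => by
      have h1 : r.length ≤ n := le_trans (le_max_left _ _) h
      have h2 : maxLen M ≤ n := le_trans (le_max_right _ _) h
      simp only [List.map_cons, ev2, ev2_padTo u v n M h2, ev1_padTo v n r h1]

theorem rect_padM (M : List (List ℤ)) : Rect (maxLen M) (padM M) := by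
  intro r hr
  obtain ⟨q, _, rfl⟩ := List.mem_map.1 hr
  exact len_padTo _ _

/-! ### expressions with decimal constants -/

/-- polynomial expressions; `c k e` is the constant `k / 10 ^ e`. -/
inductive Ex where
  | x : Ex
  | y : Ex
  | c : ℤ → ℕ → Ex
  | add : Ex → Ex → Ex
  | sub : Ex → Ex → Ex
  | mul : Ex → Ex → Ex

noncomputable def Ex.ev (u v : ℝ) : Ex → ℝ
  | Ex.x => u
  | Ex.y => v
  | Ex.c k e => (k : ℝ) / 10 ^ e
  | Ex.add a b => a.ev u v + b.ev u v
  | Ex.sub a b => a.ev u v - b.ev u v
  | Ex.mul a b => a.ev u v * b.ev u v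

/-- value: a matrix and the exponent of the denominator. -/
def Ex.toM : Ex → List (List ℤ) × ℕ
  | Ex.x => ([[], [1]], 0)
  | Ex.y => ([[0, 1]], 0)
  | Ex.c k e => ([[k]], e)
  | Ex.add a b =>
      let p := a.toM; let q := b.toM
      (add2 (scale2 (Int.ofNat (10 ^ (max p.2 q.2 - p.2))) p.1)
        (scale2 (Int.ofNat (10 ^ (max p.2 q.2 - q.2))) q.1), max p.2 q.2)
  | Ex.sub a b =>
      let p := a.toM; let q := b.toM
      (add2 (scale2 (Int.ofNat (10 ^ (max p.2 q.2 - p.2))) p.1)
        (scale2 (-Int.ofNat (10 ^ (max p.2 q.2 - q.2))) q.1), max p.2 q.2)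
  | Ex.mul a b =>
      let p := a.toM; let q := b.toM
      (mul2 p.1 q.1, p.2 + q.2)

theorem Ex.toM_ev (u v : ℝ) : ∀ E : Ex, ev2 u v E.toM.1 / 10 ^ E.toM.2 = E.ev u v
  | Ex.x => by simp [Ex.toM, Ex.ev, ev2, ev1]
  | Ex.y => by simp [Ex.toM, Ex.ev, ev2, ev1]
  | Ex.c k e => by simp [Ex.toM, Ex.ev, ev2, ev1]
  | Ex.add a b => by
      have ha := Ex.toM_ev u v a
      have hb := Ex.toM_ev u v b
      simp only [Ex.toM, Ex.ev, ev2_add, ev2_scale]
      rw [← ha, ← hb]
      set p := a.toM
      set q := b.toM
      have e1 : ((Int.ofNat (10 ^ (max p.2 q.2 - p.2)) : ℤ) : ℝ) = 10 ^ (max p.2 q.2 - p.2) := by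
        push_cast; simp
      have e2 : ((Int.ofNat (10 ^ (max p.2 q.2 - q.2)) : ℤ) : ℝ) = 10 ^ (max p.2 q.2 - q.2) := by
        push_cast; simp
      rw [e1, e2]
      have h1 : (10 : ℝ) ^ (max p.2 q.2) = 10 ^ (max p.2 q.2 - p.2) * 10 ^ p.2 := by
        rw [← pow_add, Nat.sub_add_cancel (le_max_left _ _)]
      have h2 : (10 : ℝ) ^ (max p.2 q.2) = 10 ^ (max p.2 q.2 - q.2) * 10 ^ q.2 := by
        rw [← pow_add, Nat.sub_add_cancel (le_max_right _ _)]
      rw [add_div]
      congr 1
      · rw [h1, mul_div_mul_left _ _ (by positivity)]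
      · rw [h2, mul_div_mul_left _ _ (by positivity)]
  | Ex.sub a b => by
      have ha := Ex.toM_ev u v a
      have hb := Ex.toM_ev u v b
      simp only [Ex.toM, Ex.ev, ev2_add, ev2_scale]
      rw [← ha, ← hb]
      set p := a.toM
      set q := b.toM
      have e1 : ((Int.ofNat (10 ^ (max p.2 q.2 - p.2)) : ℤ) : ℝ) = 10 ^ (max p.2 q.2 - p.2) := by
        push_cast; simp
      have e2 : ((-Int.ofNat (10 ^ (max p.2 q.2 - q.2)) : ℤ) : ℝ)
          = -10 ^ (max p.2 q.2 - q.2) := by
        push_cast; simp
      rw [e1, e2]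
      have h1 : (10 : ℝ) ^ (max p.2 q.2) = 10 ^ (max p.2 q.2 - p.2) * 10 ^ p.2 := by
        rw [← pow_add, Nat.sub_add_cancel (le_max_left _ _)]
      have h2 : (10 : ℝ) ^ (max p.2 q.2) = 10 ^ (max p.2 q.2 - q.2) * 10 ^ q.2 := by
        rw [← pow_add, Nat.sub_add_cancel (le_max_right _ _)]
      rw [neg_mul, ← sub_eq_add_neg, sub_div]
      congr 1
      · rw [h1, mul_div_mul_left _ _ (by positivity)]
      · rw [h2, mul_div_mul_left _ _ (by positivity)]
  | Ex.mul a b => by
      have ha := Ex.toM_ev u v a
      have hb := Ex.toM_ev u v b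
      simp only [Ex.toM, Ex.ev, ev2_mul]
      rw [← ha, ← hb, pow_add, div_mul_div_comm]

/-- the test for an expression. -/
def Ex.ok (E : Ex) (t : Tr) : Bool := chk t (padM E.toM.1)

theorem Ex.ok_pos {E : Ex} {t : Tr} (h : E.ok t = true) {u v : ℝ} (hu : 0 < u) (hu1 : u ≤ 1)
    (hv : 0 < v) (hv1 : v ≤ 1) : 0 ≤ E.ev u v := by
  rw [← E.toM_ev u v]
  have h1 := chk_pos t hu hu1 hv hv1 (rect_padM E.toM.1) h
  unfold padM at h1
  rw [ev2_padTo u v _ _ le_rfl] at h1
  positivity

end Pool.Agent.DSX
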