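import Pool.Agent.DSX.Defs
import Pool.Agent.DSX.Poly

/-!
# Certificates for the row inequality: data, polynomials, tests (helper57)
-/

set_option autoImplicit false

namespace Pool.Agent.DSX

open Finset Pool.Agent.Helper86.DistSum

instance : Add Ex := ⟨Ex.add⟩
instance : Sub Ex := ⟨Ex.sub⟩
instance : Mul Ex := ⟨Ex.mul⟩

theorem Ex.ev_add (u v : ℝ) (a b : Ex) : (a + b).ev u v = a.ev u v + b.ev u v := rfl
theorem Ex.ev_sub (u v : ℝ) (a b : Ex) : (a - b).ev u v = a.ev u v - b.ev u v := rfl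
theorem Ex.ev_mul (u v : ℝ) (a b : Ex) : (a * b).ev u v = a.ev u v * b.ev u v := rfl
theorem Ex.ev_c (u v : ℝ) (k : ℤ) (e : ℕ) : (Ex.c k e).ev u v = (k : ℝ) / 10 ^ e := rfl
theorem Ex.ev_x (u v : ℝ) : Ex.x.ev u v = u := rfl
theorem Ex.ev_y (u v : ℝ) : Ex.y.ev u v = v := rfl

/-- the polynomial with coefficients `l / 10^5`. -/
noncomputable def qR : List ℤ → ℝ → ℝ
  | [], _ => 0
  | a :: l, g => (a : ℝ) / 10 ^ 5 + g * qR l g

def qE : List ℤ → Ex → Ex
  | [], _ => Ex.c 0 0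
  | a :: l, g => Ex.c a 5 + g * qE l g

theorem qE_ev (u v : ℝ) (g : Ex) : ∀ l : List ℤ, (qE l g).ev u v = qR l (g.ev u v)
  | [] => by simp [qE, qR, Ex.ev_c]
  | a :: l => by
      simp only [qE, qR, Ex.ev_add, Ex.ev_mul, Ex.ev_c, qE_ev u v g l]

/-- one B-piece: `full kind gb t` covers the `g`-interval up to `gb/100` and all `s`;
`last sst t1 t2` is the last piece, split at `s = sst/1000`. -/
inductive Pc where
  | full : ℕ → ℤ → Tr → Pc
  | last : ℤ → Tr → Tr → Pc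

/-- data of one C-case. -/
structure CData where
  kap : ℤ -- / 10^7
  E0 : ℤ -- / 10^7
  B : ℤ -- / 10^4
  K : ℤ -- / 10^2
  dl : ℤ -- / 10
  gD : ℤ -- / 10^2
  rho : ℤ -- / 10^5
  A1 : ℤ -- / 10^6
  a0 : ℤ -- / 10^6
  a1 : ℤ -- / 10^6
  Y3 : ℤ -- / 10^6
  qF : List ℤ
  qD : List ℤ
  tF : Tr
  tD : Tr
  pcs : List Pc

namespace CData
variable (d : CData)

noncomputable def kapR : ℝ := (d.kap : ℝ) / 10 ^ 7
noncomputable def E0R : ℝ := (d.E0 : ℝ) / 10 ^ 7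
noncomputable def BR : ℝ := (d.B : ℝ) / 10 ^ 4
noncomputable def KR : ℝ := (d.K : ℝ) / 10 ^ 2
noncomputable def dlR : ℝ := (d.dl : ℝ) / 10 ^ 1
noncomputable def gDR : ℝ := (d.gD : ℝ) / 10 ^ 2
noncomputable def rhoR : ℝ := (d.rho : ℝ) / 10 ^ 5
noncomputable def A1R : ℝ := (d.A1 : ℝ) / 10 ^ 6
noncomputable def a0R : ℝ := (d.a0 : ℝ) / 10 ^ 6
noncomputable def a1R : ℝ := (d.a1 : ℝ) / 10 ^ 6
noncomputable def Y3R : ℝ := (d.Y3 : ℝ) / 10 ^ 6

end CData

/-! ### the polynomials, over an arbitrary type with `+ - *` -/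

section poly
variable {R : Type*} [Add R] [Sub R] [Mul R]

/-- `(1+s) * DA`. -/
def Dn (one kap E0 s : R) : R := (one - s) - (one + s) * (kap * (one - s * s) + E0)

def PAF (one two seven th kap E0 B K dl gD q s g : R) : R :=
  let c := g * g
  let b := one - c
  let X := c + c * c - (gD * gD + (gD * gD) * (gD * gD))
  let D := one - (one - s) * g
  let T := K * dl * (two * c * b - B * b * (one + seven * c) - two * K * (b * b))
    - two * dl * B * c * (b * b) - K * (dl + one) * (X * X)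
  B * (K * dl) * ((one - s) * (one - g))
    + K * dl * b * Dn one kap E0 s * (s * (one + s) * D)
    + B * (th * T - K * dl * (one - g) * q) * (s * ((one + s) * (one + s)) * D)

def PAD (one two seven th kap E0 B K dl gD q s g : R) : R :=
  let c := g * g
  let b := one - c
  let X := c + c * c - (gD * gD + (gD * gD) * (gD * gD))
  let D := one - (one - s) * g
  let T := c * (one + g) * (K * dl * (two * c - B * (one + seven * c) - two * K * b)
      - two * dl * B * c * b) - K * dl * (one + dl) * (s * s) * (one + g) * (X * X)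
  B * (K * dl) * (c * (one - s))
    + K * dl * (c * (one + g)) * Dn one kap E0 s * (s * (one + s) * D)
    + B * (th * T - K * dl * c * q) * (s * ((one + s) * (one + s)) * D)

/-- kind 1: `DA + (1-s^2)(Z - rho b) - A1`, times `1+s`. -/
def PB1 (one kap E0 rho A1 q s g : R) : R :=
  Dn one kap E0 s + (one - s * s) * (one + s) * ((one - g) * q - rho * (one - g * g))
    - (one + s) * A1

/-- kinds 2, 3: `g^2 (DA + (1-s^2)(Z - rho b)) - (a0 + a1 g^2)`, times `1+s`. -/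
def PB2 (one kap E0 rho a0 a1 q s g : R) : R :=
  g * g * (Dn one kap E0 s
      + (one - s * s) * (one + s) * ((one - g) * q - rho * (one - g * g)))
    - (one + s) * (a0 + a1 * (g * g))

/-- last piece, `s ≤ sst`. -/
def PB4 (one rho Y3 sst q g : R) : R :=
  (one - sst * sst) * (g * g) * (q - rho * (one + g)) - Y3 * (one + g)

end poly

/-- the linear form `lo + (hi - lo) w`. -/
def linE (lo hi : ℤ) (e : ℕ) (w : Ex) : Ex := Ex.c lo e + Ex.c (hi - lo) e * w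

theorem linE_ev (u v : ℝ) (lo hi : ℤ) (e : ℕ) (w : Ex) :
    (linE lo hi e w).ev u v = (lo : ℝ) / 10 ^ e + ((hi : ℝ) - lo) / 10 ^ e * w.ev u v := by
  simp only [linE, Ex.ev_add, Ex.ev_mul, Ex.ev_c]
  push_cast
  ring

namespace CData
variable (d : CData)

/-- parameters are admissible. -/
def okP : Bool :=
  decide (0 < d.B) && decide (0 < d.K) && decide (0 < d.dl) && decide (0 < d.gD) &&
  decide (d.gD < 100) && decide (0 ≤ d.rho) && decide (0 ≤ d.A1) && decide (0 ≤ d.a0) &&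
  decide (0 ≤ d.a0 + d.a1) && decide (0 ≤ d.Y3)

def exF : Ex :=
  let g := linE 0 d.gD 2 Ex.y
  PAF (Ex.c 1 0) (Ex.c 2 0) (Ex.c 7 0) (Ex.c 14 3) (Ex.c d.kap 7) (Ex.c d.E0 7) (Ex.c d.B 4)
    (Ex.c d.K 2) (Ex.c d.dl 1) (Ex.c d.gD 2) (qE d.qF g) Ex.x g

def exD : Ex :=
  let g := linE d.gD 100 2 Ex.y
  PAD (Ex.c 1 0) (Ex.c 2 0) (Ex.c 7 0) (Ex.c 14 3) (Ex.c d.kap 7) (Ex.c d.E0 7) (Ex.c d.B 4)
    (Ex.c d.K 2) (Ex.c d.dl 1) (Ex.c d.gD 2) (qE d.qD g) Ex.x g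

def exB (kind : ℕ) (q : List ℤ) (s g : Ex) : Ex :=
  match kind with
  | 0 => PB1 (Ex.c 1 0) (Ex.c d.kap 7) (Ex.c d.E0 7) (Ex.c d.rho 5) (Ex.c d.A1 6) (qE q g) s g
  | 1 => PB2 (Ex.c 1 0) (Ex.c d.kap 7) (Ex.c d.E0 7) (Ex.c d.rho 5) (Ex.c d.a0 6) (Ex.c d.a1 6)
      (qE q g) s g
  | _ => PB2 (Ex.c 1 0) (Ex.c d.kap 7) (Ex.c d.E0 7) (Ex.c d.rho 5) (Ex.c d.Y3 6)
      (Ex.c (-d.Y3) 6) (qE q g) s g

def okB : ℤ → List Pc → Bool
  | prev, [] => decide (100 ≤ prev)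
  | prev, Pc.full k gb t :: l =>
      (decide (gb ≤ d.gD) || decide (d.gD ≤ prev)) &&
      (d.exB k (if gb ≤ d.gD then d.qF else d.qD) Ex.x (linE prev gb 2 Ex.y)).ok t && okB gb l
  | prev, Pc.last sst t1 t2 :: _ =>
      decide (d.gD ≤ prev) && decide (0 ≤ sst) && decide (sst < 1000) &&
      (PB4 (Ex.c 1 0) (Ex.c d.rho 5) (Ex.c d.Y3 6) (Ex.c sst 3)
        (qE d.qD (linE prev 100 2 Ex.y)) (linE prev 100 2 Ex.y)).ok t1 &&
      (d.exB 2 d.qD (linE sst 1000 3 Ex.x) (linE prev 100 2 Ex.y)).ok t2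

/-- the whole test. -/
def ok : Bool := d.okP && d.exF.ok d.tF && d.exD.ok d.tD && d.okB 0 d.pcs

end CData

/-! ### M-cases -/

/-- data of one M-case: trees for `s > .67` and `s ≤ .67`, for `bet = bb` and `bet = s^2`. -/
structure MData where
  kap : ℤ -- / 10^7
  E0 : ℤ -- / 10^7
  bb : ℤ -- / 10^4
  Dm : ℤ -- / 10^6
  t1 : Tr
  t2 : Tr
  t3 : Tr
  t4 : Tr

section poly
variable {R : Type*} [Add R] [Sub R] [Mul R]

def PM1 (one half th kap E0 bb Dm s : R) : R :=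
  (Dn one kap E0 s - (one + s) * Dm) * (s * s * (one + s))
    + bb * (half * (one - s) - th * ((s * s) * (s * s)) * ((one + s) * (one + s)))

def PM2 (one half th kap E0 Dm s : R) : R :=
  (Dn one kap E0 s - (one + s) * Dm) * (one + s)
    + (half * (one - s) - th * ((s * s) * (s * s)) * ((one + s) * (one + s)))

def PM3 (one two four th kap E0 bb Dm s : R) : R :=
  (Dn one kap E0 s - (one + s) * Dm) * (s * (one + s) * ((two - s) * (two - s)))
    + bb * (four * ((one - s) * (one - s))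
      - th * (s * (s * s)) * ((one + s) * (one + s)) * ((two - s) * (two - s)))

def PM4 (one two four th kap E0 Dm s : R) : R :=
  (Dn one kap E0 s - (one + s) * Dm) * ((one + s) * ((two - s) * (two - s)))
    + s * (four * ((one - s) * (one - s))
      - th * (s * (s * s)) * ((one + s) * (one + s)) * ((two - s) * (two - s)))

end poly

namespace MData
variable (d : MData)

noncomputable def kapR : ℝ := (d.kap : ℝ) / 10 ^ 7
noncomputable def E0R : ℝ := (d.E0 : ℝ) / 10 ^ 7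
noncomputable def bbR : ℝ := (d.bb : ℝ) / 10 ^ 4
noncomputable def DmR : ℝ := (d.Dm : ℝ) / 10 ^ 6

def ok1 : Bool :=
  (PM1 (Ex.c 1 0) (Ex.c 5 1) (Ex.c 14 3) (Ex.c d.kap 7) (Ex.c d.E0 7) (Ex.c d.bb 4)
    (Ex.c d.Dm 6) (linE 67 100 2 Ex.x)).ok d.t1 &&
  (PM3 (Ex.c 1 0) (Ex.c 2 0) (Ex.c 4 0) (Ex.c 14 3) (Ex.c d.kap 7) (Ex.c d.E0 7) (Ex.c d.bb 4)
    (Ex.c d.Dm 6) (linE 0 67 2 Ex.x)).ok d.t3

def ok2 : Bool :=
  (PM2 (Ex.c 1 0) (Ex.c 5 1) (Ex.c 14 3) (Ex.c d.kap 7) (Ex.c d.E0 7)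
    (Ex.c d.Dm 6) (linE 67 100 2 Ex.x)).ok d.t2 &&
  (PM4 (Ex.c 1 0) (Ex.c 2 0) (Ex.c 4 0) (Ex.c 14 3) (Ex.c d.kap 7) (Ex.c d.E0 7)
    (Ex.c d.Dm 6) (linE 0 67 2 Ex.x)).ok d.t4

end MData

/-- the tangent test: `kap ≤ ww t`, `E0 ≤ ee t - ww t (1-t^2)` for `t = tk/1000`. -/
def okT (tk kap E0 : ℤ) : Bool :=
  decide (0 < tk) && decide (tk < 1000) &&
  decide (kap * tk * ((1000 + tk) * (1000 + tk)) ≤ 10000000000000000) &&
  decide (E0 * tk * (1000 + tk) ≤ -((1000 - tk) * (1000 - tk)) * 10000000)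

end Pool.Agent.DSX
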