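import Pool.Agent.Helper86.DistSum.Geometry

/-!
# Distance sums, range `3(k+1)/2 < N < 2(k+1)`: common definitions (helper57)

Everything refers to `ee, LL, SS, ProjData, offsum` of `Pool.Agent.Helper86.DistSum`.
-/

set_option autoImplicit false

namespace Pool.Agent.DSX

open Finset Pool.Agent.Helper86.DistSum

/-- own-variable lower bound for the saving factor (`P = g * p`, both diagonal entries `1 - s^2`). -/
noncomputable def S1 (s g : ℝ) : ℝ :=
  (1 - s) * (1 - g) / (s * (1 + s) ^ 2 * (1 - (1 - s) * g))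

/-- the weight of the transfer terms. -/
noncomputable def tht : ℝ := 7 / 500

/-- the kernel of the transfer bound. -/
noncomputable def tau (B K dl lam cD s c : ℝ) : ℝ :=
  2 * c * (1 - c) - B * (1 - c) * (1 + 7 * c) - 2 * K * (1 - c) ^ 2
    - 2 / K * B * c * (1 - c) ^ 2
    - (if c ≤ cD then (1 + 1 / dl) * (c + c ^ 2 - lam) ^ 2
        else (1 + dl) * s ^ 2 * ((1 - c) / c) * (c + c ^ 2 - lam) ^ 2)

/-- the affine minorant of `e` with slope `kap` and intercept `E0`, as a gap. -/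
noncomputable def DA (kap E0 s : ℝ) : ℝ := ee s - kap * (1 - s ^ 2) - E0

/-- the defect of the chord: `sum c_j (ee s_j - LL 2 p_j) = sum c_j DA s_j - Dlt n`. -/
noncomputable def Dlt (kap E0 n : ℝ) : ℝ :=
  slope (sm 3) (sm 2) - kap + n * (LL 2 0 - E0)

section
variable {ι : Type*} [Fintype ι] [DecidableEq ι]

/-- squared correlations of a projection matrix. -/
noncomputable def cc (P : ι → ι → ℝ) (i j : ι) : ℝ := P i j ^ 2 / (P i i * P j j)

/-- the self-energy. -/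
noncomputable def AA (P : ι → ι → ℝ) (k : ι) : ℝ := ∑ m, P m m * cc P k m ^ 2

/-- the transfer term. -/
noncomputable def TT (P : ι → ι → ℝ) (i : ι) : ℝ :=
  AA P i - ∑ k, P k k * cc P i k * AA P k

/-- the non-integrality of the row. -/
noncomputable def bet (i : ι) (c s : ι → ℝ) : ℝ :=
  ∑ j ∈ univ.erase i, (1 - s j ^ 2) * c j * (1 - c j)

/-- hypotheses on a row: `c` = squared correlations, `s = √(1-p)`, `T` = transfer term. -/
structure RowHyp (i : ι) (c s : ι → ℝ) (T : ℝ) : Prop where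
  hs0 : ∀ j, 0 < s j
  hs1 : ∀ j, s j ≤ 1
  hc0 : ∀ j, 0 ≤ c j
  hc1 : ∀ j, c j ≤ 1
  hci : c i = 1
  hsum : ∑ j, c j * (1 - s j ^ 2) = 1
  hT1 : -(s i ^ 2) * bet i c s ≤ T
  hT2 : ∀ B K dl lam cD : ℝ, bet i c s ≤ B → 0 < K → 0 < dl → 0 ≤ cD →
    ∑ j ∈ univ.erase i, (1 - s j ^ 2) * c j * tau B K dl lam cD (s i) (c j) ≤ T

/-- the row functional. -/
noncomputable def RR (i : ι) (c s : ι → ℝ) (T : ℝ) : ℝ :=
  ∑ j, c j * (ee (s j) - LL 2 (1 - s j ^ 2))
    + ∑ j ∈ univ.erase i, c j * (1 - s j ^ 2) * S1 (s i) (√(c j)) + tht * T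

end

section
variable {ι : Type*} [Fintype ι] [DecidableEq ι]

theorem RowHyp.identity {i : ι} {c s : ι → ℝ} {T : ℝ} (h : RowHyp i c s T) (kap E0 : ℝ) :
    ∑ j, c j * (ee (s j) - LL 2 (1 - s j ^ 2))
      = ∑ j, c j * DA kap E0 (s j) - Dlt kap E0 (∑ j, c j) := by
  have h1 : ∀ j, c j * (ee (s j) - LL 2 (1 - s j ^ 2))
      = c j * DA kap E0 (s j) + c j * (E0 - LL 2 0)
        + (c j * (1 - s j ^ 2)) * (kap - slope (sm 3) (sm 2)) := by
    intro j
    rw [LL_affine 2 (1 - s j ^ 2)]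
    unfold DA
    norm_num
    ring
  rw [Finset.sum_congr rfl (fun j _ => h1 j), Finset.sum_add_distrib, Finset.sum_add_distrib,
    ← Finset.sum_mul, ← Finset.sum_mul, h.hsum]
  unfold Dlt
  ring

/-- the statement of the row theorem. -/
def RowTwoStmt (ι : Type*) [Fintype ι] [DecidableEq ι] : Prop :=
  ∀ (i : ι) (c s : ι → ℝ) (T : ℝ), RowHyp i c s T →
    0 ≤ RR i c s T ∧ (RR i c s T = 0 →
      (1 - s i ^ 2 = 1 / 2 ∨ 1 - s i ^ 2 = 1 / 3) ∧
      (∀ j, c j ≠ 0 → s j = s i) ∧ (∀ j, j ≠ i → c j ≠ 0 → c j = 1))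

end

/-- lower bound of `S1 x g / (1 - g^2)`. -/
noncomputable def sig (x : ℝ) : ℝ :=
  if x ≤ 67 / 100 then 4 * (1 - x) ^ 2 / (x * (1 + x) ^ 2 * (2 - x) ^ 2)
  else (1 - x) / (2 * x ^ 2 * (1 + x) ^ 2)

/-- the concave three line function on `[0,1]`. -/
noncomputable def psi (A1 a0 a1 Y3 c : ℝ) : ℝ := min (A1 * c) (min (a0 + a1 * c) (Y3 * (1 - c)))

end Pool.Agent.DSX
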