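import Pool.Agent.DSX.Defs
import Pool.Agent.Helper86.DistSum.Finite

/-!
# DSX / Final: the bound, the classification and the theorem for `k + 1 < N ≤ 2(k + 1)`, from the
transport inequality.
-/

set_option autoImplicit false

namespace Pool.Agent.DSX

open Finset Pool.Agent.Helper86.DistSum

section
variable {ι : Type*} [Fintype ι] [DecidableEq ι]

/-- `main_bound` (Helper86/DistSum/Geometry.lean) with `hm : 2 ≤ m`, and the transport inequality
as a hypothesis; same proof. -/
theorem main_bound_of {E : Type*} [NormedAddCommGroup E] [InnerProductSpace ℝ E] {m r : ℕ}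
    [FiniteDimensional ℝ E] (hm : 2 ≤ m) {x : ι → E} (hx : ∀ i, ‖x i‖ = 1)
    (hr : Module.finrank ℝ E + r ≤ Fintype.card ι)
    (htrans : ∀ (P : ι → ι → ℝ) (h : ProjData P),
      ∑ i, LL m (P i i) ≤ ∑ i, ee (h.s i)
        + offsum (fun i j => P i j ^ 2 * SS (h.s i) (h.s j) (P i j)) ∧
      (∑ i, LL m (P i i) = ∑ i, ee (h.s i)
          + offsum (fun i j => P i j ^ 2 * SS (h.s i) (h.s j) (P i j)) →
        ∀ i, (P i i = 1 / (m : ℝ) ∨ P i i = 1 / ((m : ℝ) + 1)) ∧
          (∀ j, P i j ≠ 0 → P j j = P i i ∧ P i j = P i i))) :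
    offsum (fun i j => √(1 - inner ℝ (x i) (x j)))
      ≤ (Fintype.card ι : ℝ) ^ 2 - (Fintype.card ι : ℝ) / 2
        - (Fintype.card ι * LL m 0 + slope (sm (m + 1)) (sm m) * r) / 2 ∧
    (offsum (fun i j => √(1 - inner ℝ (x i) (x j)))
      = (Fintype.card ι : ℝ) ^ 2 - (Fintype.card ι : ℝ) / 2
        - (Fintype.card ι * LL m 0 + slope (sm (m + 1)) (sm m) * r) / 2 →
      ∃ P : ι → ι → ℝ, ProjData P ∧ ∑ i, P i i = (r : ℝ) ∧
        (∀ i, P i i = 1 / (m : ℝ) ∨ P i i = 1 / ((m : ℝ) + 1)) ∧
        (∀ i j, P i j ≠ 0 → P j j = P i i ∧ P i j = P i i) ∧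
        (∀ i j, i ≠ j → P i j = 0 → inner ℝ (x i) (x j) = (0:ℝ)) ∧
        (∀ i j, i ≠ j → P i j ≠ 0 → inner ℝ (x i) (x j) = - (P i i / (1 - P i i)))) := by
  obtain ⟨P, h1, h2, h3, h4, h5⟩ := exists_proj x r hr
  have h := projData_of hx h1 h2 h3 h5
  have hg1 : ∀ i j, inner ℝ (x i) (x j) ≤ (1:ℝ) := by
    intro i j
    have := real_inner_le_norm (x i) (x j)
    rw [hx i, hx j] at this
    linarith
  have hq : ∀ i j, 0 < 1 - nub (h.s i) (h.s j) * P i j := fun i j => by linarith [h.q_lt i j]
  have hstep : ∀ i j, i ≠ j → √(1 - inner ℝ (x i) (x j))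
      ≤ ((1 - nub (h.s i) (h.s j) * P i j) * (1 - inner ℝ (x i) (x j))
        + 1 / (1 - nub (h.s i) (h.s j) * P i j)) / 2 := by
    intro i j _
    have := amgm (z := √(1 - inner ℝ (x i) (x j))) (hq i j)
    rw [Real.sq_sqrt (by linarith [hg1 i j])] at this
    exact this
  have hT := total_identity hx h h3
  have hsum : ∑ i, LL m (P i i) = Fintype.card ι * LL m 0 + slope (sm (m + 1)) (sm m) * r := by
    have : ∀ i, LL m (P i i) = LL m 0 + slope (sm (m + 1)) (sm m) * P i i := fun i => LL_affine m _
    simp_rw [this]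
    rw [Finset.sum_add_distrib, ← Finset.mul_sum, h4]
    simp
  have htr := htrans P h
  rw [hsum] at htr
  have hle := offsum_le hstep
  have hnn : 0 ≤ ‖∑ i, x i‖ ^ 2 := sq_nonneg _
  constructor
  · rw [hT] at hle
    linarith [htr.1]
  · intro heq
    have hE : offsum (fun i j => √(1 - inner ℝ (x i) (x j)))
        = offsum (fun i j => ((1 - nub (h.s i) (h.s j) * P i j) * (1 - inner ℝ (x i) (x j))
        + 1 / (1 - nub (h.s i) (h.s j) * P i j)) / 2) := by
      apply le_antisymm hle
      rw [hT]
      linarith [htr.1]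
    have hpt := offsum_eq_of_le hstep hE
    have htr2 := htr.2 (by rw [hT] at hE; linarith [htr.1])
    refine ⟨P, h, h4, fun i => (htr2 i).1, fun i j => (htr2 i).2 j, ?_, ?_⟩
    · intro i j hij hP0
      have := hpt i j hij
      rw [hP0] at this
      have hz := amgm_eq (q := 1) one_pos (z := √(1 - inner ℝ (x i) (x j))) (by
        rw [Real.sq_sqrt (by linarith [hg1 i j])]
        rw [this]
        ring)
      rw [one_mul] at hz
      have h6 := Real.sq_sqrt (show 0 ≤ 1 - inner ℝ (x i) (x j) by linarith [hg1 i j])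
      rw [hz] at h6
      linarith
    · intro i j hij hP0
      obtain ⟨hjj, hPij⟩ := (htr2 i).2 j hP0
      have hthis := hpt i j hij
      have hz := amgm_eq (hq i j) (z := √(1 - inner ℝ (x i) (x j))) (by
        rw [Real.sq_sqrt (by linarith [hg1 i j])]
        exact hthis)
      have hsj : h.s j = h.s i := by unfold ProjData.s; rw [hjj]
      have hqs : 1 - nub (h.s i) (h.s j) * P i j = h.s i := by
        rw [hPij, hsj, ← h.s_sq i]
        unfold nub
        have : (1 + h.s i) ≠ 0 := by linarith [h.s_pos i]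
        field_simp
        ring
      rw [hqs] at hz
      have h6 := Real.sq_sqrt (show 0 ≤ 1 - inner ℝ (x i) (x j) by linarith [hg1 i j])
      have h7 : h.s i ^ 2 * (1 - inner ℝ (x i) (x j)) = 1 := by
        rw [← h6, ← mul_pow, hz]; norm_num
      have h8 : h.s i ^ 2 = 1 - P i i := by linarith [h.s_sq i]
      rw [h8] at h7
      have h9 : 0 < 1 - P i i := by linarith [h.lt_one i]
      field_simp
      linarith

omit [DecidableEq ι] in
/-- `classify` (Helper86/DistSum/Classify.lean) with `hm : 2 ≤ m`; same proof. -/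
theorem classify2 {P : ι → ι → ℝ} (h : ProjData P) {m r : ℕ} (hm : 2 ≤ m)
    (htr : ∑ i, P i i = (r : ℝ))
    (hd : ∀ i, P i i = 1 / (m : ℝ) ∨ P i i = 1 / ((m : ℝ) + 1))
    (hent : ∀ i j, P i j ≠ 0 → P j j = P i i ∧ P i j = P i i) :
    ∃ κ : ι → Fin r, (∀ i j, κ i = κ j ↔ P i j ≠ 0) ∧
      (∀ i, ((univ.filter (fun j => κ j = κ i)).card : ℝ) * P i i = 1) ∧
      (∀ t, (univ.filter (fun j => κ j = t)).card = m ∨
        (univ.filter (fun j => κ j = t)).card = m + 1) := by
  classical
  have hm0 : (0:ℝ) < m := by exact_mod_cast (by omega : 0 < m)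
  have hpos : ∀ i, 0 < P i i := by
    intro i
    rcases hd i with h' | h' <;> rw [h'] <;> positivity
  let S : Setoid ι :=
    { r := fun i j => P i j ≠ 0
      iseqv :=
        { refl := fun i => (hpos i).ne'
          symm := fun {i j} hij => by rw [h.symm]; exact hij
          trans := fun {i j k} hij hjk => by
            obtain ⟨a, b⟩ := hent i j hij
            rw [h.rows_eq a b k]
            exact hjk } }
  have hSr : ∀ i j, S.r i j ↔ P i j ≠ 0 := fun i j => Iff.rfl
  have hmk : ∀ i j, (Quotient.mk S i = Quotient.mk S j) ↔ P i j ≠ 0 := by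
    intro i j
    rw [Quotient.eq]
    exact hSr i j
  -- class size
  have hsize : ∀ i, ((univ.filter (fun j => Quotient.mk S j = Quotient.mk S i)).card : ℝ) * P i i = 1 := by
    intro i
    have h1 := h.sumsq i
    have h2 : ∑ j, P i j ^ 2 = ∑ j, if Quotient.mk S j = Quotient.mk S i then P i i ^ 2 else 0 := by
      apply Finset.sum_congr rfl
      intro j _
      by_cases hj : P i j = 0
      · have : ¬ (Quotient.mk S j = Quotient.mk S i) := by
          rw [hmk, h.symm]; simpa using hj
        rw [if_neg this, hj]; norm_num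
      · have : Quotient.mk S j = Quotient.mk S i := by
          rw [hmk, h.symm]; exact hj
        rw [if_pos this, (hent i j hj).2]
    rw [h2, ← Finset.sum_filter, Finset.sum_const, nsmul_eq_mul] at h1
    have h3 : P i i ≠ 0 := (hpos i).ne'
    have h4 : (((univ.filter (fun j => Quotient.mk S j = Quotient.mk S i)).card : ℝ) * P i i) * P i i
        = 1 * P i i := by rw [one_mul, mul_assoc, ← sq]; exact h1
    exact mul_right_cancel₀ h3 h4
  have hcard : Fintype.card (Quotient S) = r := by
    have h1 : (∑ q : Quotient S, (1:ℝ)) = r := by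
      rw [← htr, ← Finset.sum_fiberwise univ (fun i => Quotient.mk S i) (fun i => P i i)]
      apply Finset.sum_congr rfl
      intro q _
      induction q using Quotient.inductionOn with
      | h i =>
        have h2 : ∀ j ∈ univ.filter (fun j => Quotient.mk S j = Quotient.mk S i), P j j = P i i := by
          intro j hj
          have := (Finset.mem_filter.mp hj).2
          rw [hmk, h.symm] at this
          exact (hent i j this).1
        rw [Finset.sum_congr rfl h2, Finset.sum_const, nsmul_eq_mul]
        exact (hsize i).symm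
    simp at h1
    exact_mod_cast h1
  let e : Quotient S ≃ Fin r := Fintype.equivFinOfCardEq hcard
  have hκ : ∀ i j, (e (Quotient.mk S i) = e (Quotient.mk S j)) ↔ P i j ≠ 0 := by
    intro i j
    rw [e.injective.eq_iff, hmk]
  have hfil : ∀ i, univ.filter (fun j => e (Quotient.mk S j) = e (Quotient.mk S i))
      = univ.filter (fun j => Quotient.mk S j = Quotient.mk S i) := by
    intro i
    apply Finset.filter_congr
    intro j _
    rw [e.injective.eq_iff]
  refine ⟨fun i => e (Quotient.mk S i), hκ, ?_, ?_⟩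
  · intro i
    rw [hfil]
    exact hsize i
  · intro t
    obtain ⟨i, hi⟩ : ∃ i, e (Quotient.mk S i) = t := by
      obtain ⟨i, hi⟩ := Quotient.exists_rep (e.symm t)
      exact ⟨i, by rw [hi]; simp⟩
    rw [← hi, hfil]
    have h1 := hsize i
    rcases hd i with h' | h'
    · left
      rw [h'] at h1
      have : ((univ.filter (fun j => Quotient.mk S j = Quotient.mk S i)).card : ℝ) = m := by
        field_simp at h1
        exact h1
      exact_mod_cast this
    · right
      rw [h'] at h1
      have : ((univ.filter (fun j => Quotient.mk S j = Quotient.mk S i)).card : ℝ) = m + 1 := by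
        field_simp at h1
        exact h1
      exact_mod_cast this

end

end Pool.Agent.DSX

namespace Pool.Agent.DSX.Final

open Finset Pool.Agent.Helper86.DistSum Pool.Agent.DSX

/-- `P` is a set of `N` points of the unit sphere `S^k` of `ℝ^{k+1}`. -/
def IsConfig (N k : ℕ) (P : Finset (EuclideanSpace ℝ (Fin (k + 1)))) : Prop :=
  P.card = N ∧ ∀ p ∈ P, ‖p‖ = 1

/-- `L(N,k,P)`: the sum of the Euclidean distances over the unordered pairs of points of `P`
(half of the sum over ordered pairs). -/
noncomputable def pairSum {k : ℕ} (P : Finset (EuclideanSpace ℝ (Fin (k + 1)))) : ℝ :=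
  (∑ p ∈ P, ∑ q ∈ P, dist p q) / 2

/-- `P` is the disjoint union of `r` classes, each of which has `m` or `m + 1` points; two distinct
points of a class with `n` points have inner product `-1/(n-1)` (so, the points being unit vectors,
a class is the vertex set of a regular simplex with `n` vertices), and points of different classes
are orthogonal. -/
def OrthogonalSimplexUnion {k : ℕ} (P : Finset (EuclideanSpace ℝ (Fin (k + 1)))) (r m : ℕ) :
    Prop :=
  ∃ κ : EuclideanSpace ℝ (Fin (k + 1)) → Fin r,
    (∀ t, (P.filter (fun p => κ p = t)).card = m ∨ (P.filter (fun p => κ p = t)).card = m + 1) ∧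
    ∀ p ∈ P, ∀ q ∈ P, p ≠ q → inner ℝ p q =
      if κ p = κ q then -(1 / (((P.filter (fun l => κ l = κ p)).card : ℝ) - 1)) else (0 : ℝ)

/-- The value: with `r = N - k - 1`, `m = ⌊N/r⌋`, `θ = N mod r`, the sum of the distances of
`θ` regular simplices with `m+1` vertices and `r-θ` regular simplices with `m` vertices, all
inscribed in unit spheres of mutually orthogonal subspaces. -/
noncomputable def value (N k : ℕ) : ℝ :=
  let r : ℕ := N - (k + 1)
  let m : ℕ := N / r
  let θ : ℕ := N % r
  ((r : ℝ) - θ) * (m * √((m : ℝ) * (m - 1) / 2)) + θ * ((m + 1) * √(((m : ℝ) + 1) * m / 2))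
    + √2 / 2 * ((N : ℝ) ^ 2 - (((r : ℝ) - θ) * (m : ℝ) ^ 2 + θ * ((m : ℝ) + 1) ^ 2))

private lemma sqrt_half {z : ℝ} (hz : 0 ≤ z) : √(z / 2) = √2 / 2 * √z := by
  rw [Real.sqrt_div hz]
  have h : √2 * √2 = (2:ℝ) := Real.mul_self_sqrt (by norm_num)
  have h2 : √2 ≠ (0:ℝ) := by positivity
  rw [div_eq_iff h2]
  have h3 : √2 / 2 * √z * √2 = √z * (√2 * √2) / 2 := by ring
  rw [h3, h]
  ring

private lemma value_eq {N k : ℕ} (h2 : 1 ≤ N / (N - (k + 1))) (h3 : N % (N - (k + 1)) ≤ N - (k + 1)) :
    value N k = √2 / 2 * ((N : ℝ) ^ 2 - (((N - (k + 1) - N % (N - (k + 1)) : ℕ) : ℝ)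
      * GG (N / (N - (k + 1))) + (N % (N - (k + 1)) : ℕ) * GG (N / (N - (k + 1)) + 1))) := by
  unfold value GG
  simp only
  set r := N - (k + 1) with hr
  set m := N / r with hm
  set θ := N % r with hθ
  have hm1 : (1:ℝ) ≤ m := by exact_mod_cast h2
  rw [Nat.cast_sub h3, sqrt_half (by nlinarith), sqrt_half (by positivity)]
  push_cast
  have e : ((m:ℝ) + 1) * (m + 1 - 1) = ((m:ℝ) + 1) * m := by ring
  rw [e]
  ring

/-- Part (a) of Pool/Agent/Results/MP_b22a07_co/OrthogonalSimplices.lean for all `N, k` with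
`k + 1 < N ≤ 2(k+1)`, under the transport inequality for `m = 2`. -/
theorem full_of
    (htr2 : ∀ (ι : Type) [Fintype ι] [DecidableEq ι] (P : ι → ι → ℝ) (h : ProjData P),
      ∑ i, LL 2 (P i i) ≤ ∑ i, ee (h.s i)
        + offsum (fun i j => P i j ^ 2 * SS (h.s i) (h.s j) (P i j)) ∧
      (∑ i, LL 2 (P i i) = ∑ i, ee (h.s i)
          + offsum (fun i j => P i j ^ 2 * SS (h.s i) (h.s j) (P i j)) →
        ∀ i, (P i i = 1 / ((2 : ℕ) : ℝ) ∨ P i i = 1 / (((2 : ℕ) : ℝ) + 1)) ∧
          (∀ j, P i j ≠ 0 → P j j = P i i ∧ P i j = P i i))) :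
    ∀ N k : ℕ, k + 1 < N → N ≤ 2 * (k + 1) →
      IsGreatest {L : ℝ | ∃ P, IsConfig N k P ∧ pairSum P = L} (value N k) ∧
      ∀ P, IsConfig N k P →
        (pairSum P = value N k ↔ OrthogonalSimplexUnion P (N - (k + 1)) (N / (N - (k + 1)))) := by
  classical
  intro N k hk hN
  set r := N - (k + 1) with hr
  set m := N / r with hm
  have hr0 : 0 < r := by omega
  have h3r : 2 * r ≤ N := by omega
  have hm3 : 2 ≤ m := by
    rw [hm, Nat.le_div_iff_mul_le hr0]; omega
  have hθ : N % r ≤ r := (Nat.mod_lt N hr0).le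
  have hNm : N = m * r + N % r := by
    have := Nat.div_add_mod N r
    rw [Nat.mul_comm] at this
    exact this.symm
  have hval : value N k = √2 / 2 * ((N : ℝ) ^ 2 - (((r - N % r : ℕ) : ℝ)
    * GG m + (N % r : ℕ) * GG (m + 1))) := 
    value_eq (le_trans (by norm_num : 1 ≤ 2) hm3) hθ
  have hs2 : 0 < √2 / 2 := by positivity
  -- the bound and the equality case for configurations
  have key : ∀ P, IsConfig N k P → pairSum P ≤ value N k ∧
      (pairSum P = value N k ↔ OrthogonalSimplexUnion P r m) := by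
    intro P hP
    have hcard : Fintype.card {p // p ∈ P} = N := by
      rw [Fintype.card_coe]; exact hP.1
    have hfr : Module.finrank ℝ (EuclideanSpace ℝ (Fin (k + 1))) = k + 1 := by simp
    have hunit : ∀ i : {p // p ∈ P}, ‖(i : EuclideanSpace ℝ (Fin (k + 1)))‖ = 1 :=
      fun i => hP.2 i.1 i.2
    have hmb := main_bound_of (r := r) hm3 hunit (by rw [hfr, hcard]; omega)
        (fun M hM => by
          rcases Nat.lt_or_ge m 3 with h | h
          · have hm2 : m = 2 := by omega
            rw [hm2]
            exact htr2 {p // p ∈ P} M hM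
          · exact hM.transport h)
    rw [hcard, target_eq (by omega) hNm hθ] at hmb
    have hsum : pairSum P = √2 / 2 * offsum (fun (i j : {p // p ∈ P}) =>
        √(1 - inner ℝ (i : EuclideanSpace ℝ (Fin (k + 1))) (j : EuclideanSpace ℝ (Fin (k + 1))))) :=
      distSum_eq P hP.2
    refine ⟨?_, ?_, ?_⟩
    · rw [hsum, hval]
      exact mul_le_mul_of_nonneg_left hmb.1 hs2.le
    · intro heq
      rw [hsum, hval] at heq
      have heq2 := mul_left_cancel₀ hs2.ne' heq
      obtain ⟨M, hM, htr, hd, hent, hz, hnz⟩ := hmb.2 heq2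
      obtain ⟨κ, hκ1, hκ2, hκ3⟩   := classify2 hM hm3 htr hd hent
      have hiff := isOrthSimplexUnion_iff (m := m) P hr0
      apply hiff.mpr
      refine ⟨κ, ?_, hκ3⟩
      intro i j hij
      by_cases hkij : κ i = κ j
      · rw [if_pos hkij]
        have hne := (hκ1 i j).mp hkij
        rw [hnz i j hij hne]
        have hc := hκ2 i
        have hMpos : M i i ≠ 0 := by
          intro h0; rw [h0, mul_zero] at hc; norm_num at hc
        have hlt := hM.lt_one i
        have hn : ((univ.filter (fun l => κ l = κ i)).card : ℝ) = 1 / M i i := by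
          rw [eq_div_iff hMpos]; exact hc
        rw [hn]
        have h1 : 1 - M i i ≠ 0 := by linarith
        have h2 : 1 / M i i - 1 = (1 - M i i) / M i i := by field_simp
        rw [h2, one_div_div]
      · rw [if_neg hkij]
        apply hz i j hij
        by_contra hne
        exact hkij ((hκ1 i j).mpr hne)
    · intro hU
      have hiff := isOrthSimplexUnion_iff (m := m) P hr0
      obtain ⟨κ, hκ1, hκ2⟩ := hiff.mp hU
      have h2 : ∀ t, 2 ≤ (univ.filter (fun l => κ l = t)).card := by
        intro t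
        rcases hκ2 t with h | h <;> omega
      obtain ⟨A, hA1, hA2, hA3⟩ := sum_GG_of_sizes κ hκ2
      rw [hcard] at hA2
      have hAeq : A = N % r := by
        have h4 : m * r + A = m * r + N % r := by rw [← hA2, ← hNm]
        omega
      rw [hsum, hval, offsum_of_orthSimplices hκ1 h2, hcard, hA3, hAeq]
  refine ⟨⟨?_, ?_⟩, fun P hP => (key P hP).2⟩
  · -- attainment
    set κ : Fin N → Fin r := fun i => ⟨i.1 % r, Nat.mod_lt _ hr0⟩ with hκ
    have hsize : ∀ t, (univ.filter (fun l => κ l = t)).card = m ∨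
        (univ.filter (fun l => κ l = t)).card = m + 1 := by
      intro t
      have hb : (univ.filter (fun l => κ l = t)).card
          = N / r + if (t : ℕ) < N % r then 1 else 0 := balanced_fiber (N := N) hr0 t
      rw [hb]
      by_cases h : (t : ℕ) < N % r
      · right; rw [if_pos h]
      · left; rw [if_neg h, add_zero]
    have h2 : ∀ t, 2 ≤ (univ.filter (fun l => κ l = t)).card := by
      intro t
      rcases hsize t with h | h <;> omega
    obtain ⟨x, hx1, hx2⟩ := exists_orthSimplices (d := k + 1) κ h2 (by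
      rw [Fintype.card_fin]; omega)
    have hinj : Function.Injective x := by
      intro i j hij
      by_contra hne
      have h4 := hx2 i j hne
      rw [hij, real_inner_self_eq_norm_sq, hx1 j] at h4
      by_cases hkij : κ i = κ j
      · rw [if_pos hkij] at h4
        have h5 : (2:ℝ) ≤ ((univ.filter (fun l => κ l = κ i)).card : ℝ) := by
          exact_mod_cast h2 (κ i)
        have h6 : 0 < 1 / (((univ.filter (fun l => κ l = κ i)).card : ℝ) - 1) := by
          apply one_div_pos.mpr; linarith
        linarith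
      · rw [if_neg hkij] at h4
        norm_num at h4
    refine ⟨univ.image x, ⟨?_, ?_⟩, ?_⟩
    · rw [Finset.card_image_of_injective _ hinj]
      simp
    · intro p hp
      obtain ⟨i, _, rfl⟩ := Finset.mem_image.mp hp
      exact hx1 i
    · have hsum : pairSum (univ.image x)
          = √2 / 2 * offsum (fun i j => √(1 - inner ℝ (x i) (x j))) := distSum_image hinj hx1
      obtain ⟨A, hA1, hA2, hA3⟩ := sum_GG_of_sizes κ hsize
      rw [Fintype.card_fin] at hA2
      have hAeq : A = N % r := by
        have h4 : m * r + A = m * r + N % r := by rw [← hA2, ← hNm]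
        omega
      rw [hsum, hval, offsum_of_orthSimplices hx2 h2, Fintype.card_fin, hA3, hAeq]
  · rintro L ⟨P, hP, rfl⟩
    exact (key P hP).1

end Pool.Agent.DSX.Final
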