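import Pool.Agent.DSX.Data

/-!
# Certificate data (generated, helper57)
-/

set_option autoImplicit false
set_option maxRecDepth 100000

namespace Pool.Agent.DSX

def m0 : MData where
  kap := 4852814
  E0 := -710678
  bb := 180
  Dm := 1557
  t1 := (Tr.sx (Tr.sx (Tr.sx Tr.lf Tr.lf) Tr.lf) Tr.lf)
  t2 := Tr.lf
  t3 := Tr.lf
  t4 := Tr.lf

theorem m0_ok1 : m0.ok1 = true := by decide +kernel
theorem m0_ok2 : m0.ok2 = true := by decide +kernel

def m1 : MData where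
  kap := 4694729
  E0 := -633075
  bb := 500
  Dm := 3792
  t1 := (Tr.sx (Tr.sx (Tr.sx Tr.lf Tr.lf) Tr.lf) Tr.lf)
  t2 := Tr.lf
  t3 := Tr.lf
  t4 := Tr.lf

theorem m1_ok1 : m1.ok1 = true := by decide +kernel
theorem m1_ok2 : m1.ok2 = true := by decide +kernel

def m2 : MData where
  kap := 4565501
  E0 := -571861
  bb := 800
  Dm := 5271
  t1 := (Tr.sx (Tr.sx Tr.lf Tr.lf) Tr.lf)
  t2 := Tr.lf
  t3 := Tr.lf
  t4 := Tr.lf

theorem m2_ok1 : m2.ok1 = true := by decide +kernel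
theorem m2_ok2 : m2.ok2 = true := by decide +kernel

def m3 : MData where
  kap := 4441194
  E0 := -514977
  bb := 1040
  Dm := 6048
  t1 := (Tr.sx (Tr.sx Tr.lf (Tr.sx Tr.lf Tr.lf)) Tr.lf)
  t2 := Tr.lf
  t3 := Tr.lf
  t4 := Tr.lf

theorem m3_ok1 : m3.ok1 = true := by decide +kernel
theorem m3_ok2 : m3.ok2 = true := by decide +kernel

def m4 : MData where
  kap := 4332254
  E0 := -466823
  bb := 1200
  Dm := 6287
  t1 := (Tr.sx (Tr.sx Tr.lf (Tr.sx Tr.lf Tr.lf)) Tr.lf)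
  t2 := Tr.lf
  t3 := Tr.lf
  t4 := Tr.lf

theorem m4_ok1 : m4.ok1 = true := by decide +kernel
theorem m4_ok2 : m4.ok2 = true := by decide +kernel

def m5 : MData where
  kap := 4237372
  E0 := -426238
  bb := 1250
  Dm := 5957
  t1 := (Tr.sx (Tr.sx Tr.lf (Tr.sx Tr.lf Tr.lf)) Tr.lf)
  t2 := Tr.lf
  t3 := Tr.lf
  t4 := Tr.lf

theorem m5_ok1 : m5.ok1 = true := by decide +kernel
theorem m5_ok2 : m5.ok2 = true := by decide +kernel

def m6 : MData where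
  kap := 4175721
  E0 := -400572
  bb := 1260
  Dm := 5705
  t1 := (Tr.sx (Tr.sx Tr.lf (Tr.sx Tr.lf Tr.lf)) Tr.lf)
  t2 := Tr.lf
  t3 := Tr.lf
  t4 := Tr.lf

theorem m6_ok1 : m6.ok1 = true := by decide +kernel
theorem m6_ok2 : m6.ok2 = true := by decide +kernel

def m7 : MData where
  kap := 4175721
  E0 := -400572
  bb := 1260
  Dm := 5703
  t1 := (Tr.sx (Tr.sx Tr.lf (Tr.sx Tr.lf Tr.lf)) Tr.lf)
  t2 := Tr.lf
  t3 := Tr.lf
  t4 := Tr.lf

theorem m7_ok1 : m7.ok1 = true := by decide +kernel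
theorem m7_ok2 : m7.ok2 = true := by decide +kernel

def m8 : MData where
  kap := 4155449
  E0 := -392257
  bb := 1260
  Dm := 5567
  t1 := (Tr.sx (Tr.sx Tr.lf (Tr.sx Tr.lf Tr.lf)) Tr.lf)
  t2 := Tr.lf
  t3 := Tr.lf
  t4 := Tr.lf

theorem m8_ok1 : m8.ok1 = true := by decide +kernel
theorem m8_ok2 : m8.ok2 = true := by decide +kernel

def m9 : MData where
  kap := 4075717
  E0 := -360165
  bb := 1225
  Dm := 4990
  t1 := (Tr.sx (Tr.sx Tr.lf (Tr.sx Tr.lf Tr.lf)) Tr.lf)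
  t2 := Tr.lf
  t3 := Tr.lf
  t4 := Tr.lf

theorem m9_ok1 : m9.ok1 = true := by decide +kernel
theorem m9_ok2 : m9.ok2 = true := by decide +kernel

def m10 : MData where
  kap := 4007691
  E0 := -333578
  bb := 1145
  Dm := 4408
  t1 := (Tr.sx (Tr.sx Tr.lf (Tr.sx Tr.lf Tr.lf)) Tr.lf)
  t2 := Tr.lf
  t3 := Tr.lf
  t4 := Tr.lf

theorem m10_ok1 : m10.ok1 = true := by decide +kernel
theorem m10_ok2 : m10.ok2 = true := by decide +kernel

def m11 : MData where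
  kap := 3960065
  E0 := -315412
  bb := 1030
  Dm := 3835
  t1 := (Tr.sx (Tr.sx Tr.lf (Tr.sx Tr.lf (Tr.sx Tr.lf Tr.lf))) Tr.lf)
  t2 := Tr.lf
  t3 := Tr.lf
  t4 := Tr.lf

theorem m11_ok1 : m11.ok1 = true := by decide +kernel
theorem m11_ok2 : m11.ok2 = true := by decide +kernel

def m12 : MData where
  kap := 3922529
  E0 := -301362
  bb := 885
  Dm := 3225
  t1 := (Tr.sx (Tr.sx Tr.lf (Tr.sx Tr.lf (Tr.sx Tr.lf Tr.lf))) Tr.lf)
  t2 := Tr.lf
  t3 := Tr.lf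
  t4 := Tr.lf

theorem m12_ok1 : m12.ok1 = true := by decide +kernel
theorem m12_ok2 : m12.ok2 = true := by decide +kernel

def m13 : MData where
  kap := 3858024
  E0 := -277778
  bb := 705
  Dm := 2453
  t1 := (Tr.sx (Tr.sx Tr.lf (Tr.sx Tr.lf (Tr.sx Tr.lf Tr.lf))) Tr.lf)
  t2 := Tr.lf
  t3 := Tr.lf
  t4 := Tr.lf

theorem m13_ok1 : m13.ok1 = true := by decide +kernel
theorem m13_ok2 : m13.ok2 = true := by decide +kernel

def m14 : MData where
  kap := 3821825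
  E0 := -264862
  bb := 495
  Dm := 1708
  t1 := (Tr.sx (Tr.sx Tr.lf (Tr.sx Tr.lf (Tr.sx Tr.lf (Tr.sx Tr.lf Tr.lf)))) Tr.lf)
  t2 := Tr.lf
  t3 := Tr.lf
  t4 := Tr.lf

theorem m14_ok1 : m14.ok1 = true := by decide +kernel
theorem m14_ok2 : m14.ok2 = true := by decide +kernel

def m15 : MData where
  kap := 3711731
  E0 := -227038
  bb := 290
  Dm := 874
  t1 := (Tr.sx (Tr.sx Tr.lf (Tr.sx Tr.lf (Tr.sx Tr.lf Tr.lf))) Tr.lf)
  t2 := Tr.lf
  t3 := Tr.lf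
  t4 := Tr.lf

theorem m15_ok1 : m15.ok1 = true := by decide +kernel
theorem m15_ok2 : m15.ok2 = true := by decide +kernel

def m16 : MData where
  kap := 4852814
  E0 := -710678
  bb := 0
  Dm := 1000
  t1 := Tr.lf
  t2 := Tr.lf
  t3 := Tr.lf
  t4 := Tr.lf

theorem m16_ok2 : m16.ok2 = true := by decide +kernel

def m17 : MData where
  kap := 3711731
  E0 := -227038
  bb := 0
  Dm := 1000
  t1 := Tr.lf
  t2 := Tr.lf
  t3 := Tr.lf
  t4 := Tr.lf

theorem m17_ok2 : m17.ok2 = true := by decide +kernel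

end Pool.Agent.DSX
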