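import Pool.Agent.DSX.Cases
import Pool.Agent.DSX.MDataF
import Pool.Agent.DSX.CData0
import Pool.Agent.DSX.CData1
import Pool.Agent.DSX.CData2
import Pool.Agent.DSX.CData3
import Pool.Agent.DSX.CData4
import Pool.Agent.DSX.CData5

/-!
# The row theorem for `m = 2` (helper57)
-/

set_option autoImplicit false

namespace Pool.Agent.DSX

open Finset Pool.Agent.Helper86.DistSum

variable {ι : Type*} [Fintype ι] [DecidableEq ι]

theorem RowHyp.int1 {i : ι} {c s : ι → ℝ} {T : ℝ} (h : RowHyp i c s T)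
    (h1 : (205 : ℝ) / 100 ≤ ∑ j, c j) (h2 : ∑ j, c j ≤ (215 : ℝ) / 100) : 0 < RR i c s T :=
  h.interior (N1 := 205) (N2 := 215) (tm := 720) (m := m1) (l := [(720, c1)])
    m1_ok1 m1_ok2 (by
      intro x hx
      simp only [List.mem_singleton] at hx
      rw [hx]; exact c1_ok) (by decide +kernel) (by push_cast; exact h1) (by push_cast; exact h2)

theorem RowHyp.int2 {i : ι} {c s : ι → ℝ} {T : ℝ} (h : RowHyp i c s T)
    (h1 : (215 : ℝ) / 100 ≤ ∑ j, c j) (h2 : ∑ j, c j ≤ (225 : ℝ) / 100) : 0 < RR i c s T :=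
  h.interior (N1 := 215) (N2 := 225) (tm := 731) (m := m2) (l := [(732, c2)])
    m2_ok1 m2_ok2 (by
      intro x hx
      simp only [List.mem_singleton] at hx
      rw [hx]; exact c2_ok) (by decide +kernel) (by push_cast; exact h1) (by push_cast; exact h2)

theorem RowHyp.int3 {i : ι} {c s : ι → ℝ} {T : ℝ} (h : RowHyp i c s T)
    (h1 : (225 : ℝ) / 100 ≤ ∑ j, c j) (h2 : ∑ j, c j ≤ (235 : ℝ) / 100) : 0 < RR i c s T :=
  h.interior (N1 := 225) (N2 := 235) (tm := 742) (m := m3) (l := [(742, c3)])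
    m3_ok1 m3_ok2 (by
      intro x hx
      simp only [List.mem_singleton] at hx
      rw [hx]; exact c3_ok) (by decide +kernel) (by push_cast; exact h1) (by push_cast; exact h2)

theorem RowHyp.int4 {i : ι} {c s : ι → ℝ} {T : ℝ} (h : RowHyp i c s T)
    (h1 : (235 : ℝ) / 100 ≤ ∑ j, c j) (h2 : ∑ j, c j ≤ (245 : ℝ) / 100) : 0 < RR i c s T :=
  h.interior (N1 := 235) (N2 := 245) (tm := 752) (m := m4) (l := [(752, c4)])
    m4_ok1 m4_ok2 (by
      intro x hx
      simp only [List.mem_singleton] at hx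
      rw [hx]; exact c4_ok) (by decide +kernel) (by push_cast; exact h1) (by push_cast; exact h2)

theorem RowHyp.int5 {i : ι} {c s : ι → ℝ} {T : ℝ} (h : RowHyp i c s T)
    (h1 : (245 : ℝ) / 100 ≤ ∑ j, c j) (h2 : ∑ j, c j ≤ (250 : ℝ) / 100) : 0 < RR i c s T :=
  h.interior (N1 := 245) (N2 := 250) (tm := 761) (m := m5) (l := [(758, c5), (759, c6)])
    m5_ok1 m5_ok2 (by
      intro x hx
      simp only [List.mem_cons, List.not_mem_nil, or_false] at hx
      rcases hx with hx | hx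
      · rw [hx]; exact c5_ok
      · rw [hx]; exact c6_ok) (by decide +kernel) (by push_cast; exact h1) (by push_cast; exact h2)

theorem RowHyp.int6 {i : ι} {c s : ι → ℝ} {T : ℝ} (h : RowHyp i c s T)
    (h1 : (250 : ℝ) / 100 ≤ ∑ j, c j) (h2 : ∑ j, c j ≤ (255 : ℝ) / 100) : 0 < RR i c s T :=
  h.interior (N1 := 250) (N2 := 255) (tm := 767) (m := m6) (l := [(764, c7), (765, c8)])
    m6_ok1 m6_ok2 (by
      intro x hx
      simp only [List.mem_cons, List.not_mem_nil, or_false] at hx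
      rcases hx with hx | hx
      · rw [hx]; exact c7_ok
      · rw [hx]; exact c8_ok) (by decide +kernel) (by push_cast; exact h1) (by push_cast; exact h2)

theorem RowHyp.int7 {i : ι} {c s : ι → ℝ} {T : ℝ} (h : RowHyp i c s T)
    (h1 : (255 : ℝ) / 100 ≤ ∑ j, c j) (h2 : ∑ j, c j ≤ (260 : ℝ) / 100) : 0 < RR i c s T :=
  h.interior (N1 := 255) (N2 := 260) (tm := 767) (m := m7) (l := [(769, c9), (768, c10)])
    m7_ok1 m7_ok2 (by
      intro x hx
      simp only [List.mem_cons, List.not_mem_nil, or_false] at hx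
      rcases hx with hx | hx
      · rw [hx]; exact c9_ok
      · rw [hx]; exact c10_ok) (by decide +kernel) (by push_cast; exact h1) (by push_cast; exact h2)

theorem RowHyp.int8 {i : ι} {c s : ι → ℝ} {T : ℝ} (h : RowHyp i c s T)
    (h1 : (260 : ℝ) / 100 ≤ ∑ j, c j) (h2 : ∑ j, c j ≤ (265 : ℝ) / 100) : 0 < RR i c s T :=
  h.interior (N1 := 260) (N2 := 265) (tm := 769) (m := m8) (l := [(774, c11), (774, c12)])
    m8_ok1 m8_ok2 (by
      intro x hx
      simp only [List.mem_cons, List.not_mem_nil, or_false] at hx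
      rcases hx with hx | hx
      · rw [hx]; exact c11_ok
      · rw [hx]; exact c12_ok) (by decide +kernel) (by push_cast; exact h1) (by push_cast; exact h2)

theorem RowHyp.int9 {i : ι} {c s : ι → ℝ} {T : ℝ} (h : RowHyp i c s T)
    (h1 : (265 : ℝ) / 100 ≤ ∑ j, c j) (h2 : ∑ j, c j ≤ (270 : ℝ) / 100) : 0 < RR i c s T :=
  h.interior (N1 := 265) (N2 := 270) (tm := 777) (m := m9) (l := [(780, c13), (778, c14)])
    m9_ok1 m9_ok2 (by
      intro x hx
      simp only [List.mem_cons, List.not_mem_nil, or_false] at hx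
      rcases hx with hx | hx
      · rw [hx]; exact c13_ok
      · rw [hx]; exact c14_ok) (by decide +kernel) (by push_cast; exact h1) (by push_cast; exact h2)

theorem RowHyp.int10 {i : ι} {c s : ι → ℝ} {T : ℝ} (h : RowHyp i c s T)
    (h1 : (270 : ℝ) / 100 ≤ ∑ j, c j) (h2 : ∑ j, c j ≤ (275 : ℝ) / 100) : 0 < RR i c s T :=
  h.interior (N1 := 270) (N2 := 275) (tm := 784) (m := m10) (l := [(785, c15), (785, c16)])
    m10_ok1 m10_ok2 (by
      intro x hx
      simp only [List.mem_cons, List.not_mem_nil, or_false] at hx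
      rcases hx with hx | hx
      · rw [hx]; exact c15_ok
      · rw [hx]; exact c16_ok) (by decide +kernel) (by push_cast; exact h1) (by push_cast; exact h2)

theorem RowHyp.int11 {i : ι} {c s : ι → ℝ} {T : ℝ} (h : RowHyp i c s T)
    (h1 : (275 : ℝ) / 100 ≤ ∑ j, c j) (h2 : ∑ j, c j ≤ (280 : ℝ) / 100) : 0 < RR i c s T :=
  h.interior (N1 := 275) (N2 := 280) (tm := 789) (m := m11) (l := [(791, c17), (791, c18)])
    m11_ok1 m11_ok2 (by
      intro x hx
      simp only [List.mem_cons, List.not_mem_nil, or_false] at hx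
      rcases hx with hx | hx
      · rw [hx]; exact c17_ok
      · rw [hx]; exact c18_ok) (by decide +kernel) (by push_cast; exact h1) (by push_cast; exact h2)

theorem RowHyp.int12 {i : ι} {c s : ι → ℝ} {T : ℝ} (h : RowHyp i c s T)
    (h1 : (280 : ℝ) / 100 ≤ ∑ j, c j) (h2 : ∑ j, c j ≤ (285 : ℝ) / 100) : 0 < RR i c s T :=
  h.interior (N1 := 280) (N2 := 285) (tm := 793) (m := m12) (l := [(797, c19), (798, c20)])
    m12_ok1 m12_ok2 (by
      intro x hx
      simp only [List.mem_cons, List.not_mem_nil, or_false] at hx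
      rcases hx with hx | hx
      · rw [hx]; exact c19_ok
      · rw [hx]; exact c20_ok) (by decide +kernel) (by push_cast; exact h1) (by push_cast; exact h2)

theorem RowHyp.int13 {i : ι} {c s : ι → ℝ} {T : ℝ} (h : RowHyp i c s T)
    (h1 : (285 : ℝ) / 100 ≤ ∑ j, c j) (h2 : ∑ j, c j ≤ (290 : ℝ) / 100) : 0 < RR i c s T :=
  h.interior (N1 := 285) (N2 := 290) (tm := 800) (m := m13) (l := [(803, c21)])
    m13_ok1 m13_ok2 (by
      intro x hx
      simp only [List.mem_singleton] at hx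
      rw [hx]; exact c21_ok) (by decide +kernel) (by push_cast; exact h1) (by push_cast; exact h2)

theorem RowHyp.int14 {i : ι} {c s : ι → ℝ} {T : ℝ} (h : RowHyp i c s T)
    (h1 : (290 : ℝ) / 100 ≤ ∑ j, c j) (h2 : ∑ j, c j ≤ (295 : ℝ) / 100) : 0 < RR i c s T :=
  h.interior (N1 := 290) (N2 := 295) (tm := 804) (m := m14) (l := [(810, c22)])
    m14_ok1 m14_ok2 (by
      intro x hx
      simp only [List.mem_singleton] at hx
      rw [hx]; exact c22_ok) (by decide +kernel) (by push_cast; exact h1) (by push_cast; exact h2)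

theorem RowHyp.interiorAll {i : ι} {c s : ι → ℝ} {T : ℝ} (h : RowHyp i c s T)
    (h1 : (205 : ℝ) / 100 ≤ ∑ j, c j) (h2 : ∑ j, c j ≤ (295 : ℝ) / 100) : 0 < RR i c s T := by
  rcases le_or_gt (∑ j, c j) ((215 : ℝ) / 100) with h11 | h11
  · exact h.int1 h1 h11
  rcases le_or_gt (∑ j, c j) ((225 : ℝ) / 100) with h12 | h12
  · exact h.int2 h11.le h12
  rcases le_or_gt (∑ j, c j) ((235 : ℝ) / 100) with h13 | h13
  · exact h.int3 h12.le h13
  rcases le_or_gt (∑ j, c j) ((245 : ℝ) / 100) with h14 | h14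
  · exact h.int4 h13.le h14
  rcases le_or_gt (∑ j, c j) ((250 : ℝ) / 100) with h15 | h15
  · exact h.int5 h14.le h15
  rcases le_or_gt (∑ j, c j) ((255 : ℝ) / 100) with h16 | h16
  · exact h.int6 h15.le h16
  rcases le_or_gt (∑ j, c j) ((260 : ℝ) / 100) with h17 | h17
  · exact h.int7 h16.le h17
  rcases le_or_gt (∑ j, c j) ((265 : ℝ) / 100) with h18 | h18
  · exact h.int8 h17.le h18
  rcases le_or_gt (∑ j, c j) ((270 : ℝ) / 100) with h19 | h19
  · exact h.int9 h18.le h19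
  rcases le_or_gt (∑ j, c j) ((275 : ℝ) / 100) with h20 | h20
  · exact h.int10 h19.le h20
  rcases le_or_gt (∑ j, c j) ((280 : ℝ) / 100) with h21 | h21
  · exact h.int11 h20.le h21
  rcases le_or_gt (∑ j, c j) ((285 : ℝ) / 100) with h22 | h22
  · exact h.int12 h21.le h22
  rcases le_or_gt (∑ j, c j) ((290 : ℝ) / 100) with h23 | h23
  · exact h.int13 h22.le h23
  exact h.int14 h23.le h2

/-! ### the end intervals and the equality cases -/

theorem hD_two {x : ℝ} (hx : 0 < x) : 0 ≤ DA (ww (sm 2)) (ee (sm 2) - ww (sm 2) / 2) x := by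
  rw [DA_two.1 x hx]; exact DD_nonneg hx sm2_pos

theorem hD_three {x : ℝ} (hx : 0 < x) : 0 ≤ DA (ww (sm 3)) (ee (sm 3) - ww (sm 3) / 3) x := by
  rw [DA_three.1 x hx]; exact DD_nonneg hx sm3_pos

theorem RowHyp.end2 {i : ι} {c s : ι → ℝ} {T : ℝ} (h : RowHyp i c s T)
    (h1 : 2 < ∑ j, c j) (h2 : ∑ j, c j ≤ (205 : ℝ) / 100) : 0 < RR i c s T := by
  obtain ⟨⟨k1, k2⟩, k3, k4, ⟨k5, k6⟩, k7, k8⟩ := consts_num
  have hDl := DA_two.2 (∑ j, c j)
  have hk0 : ww (sm 2) ≤ c0.kapR := by unfold CData.kapR c0; norm_num at k4 ⊢; linarith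
  have hE0 : ee (sm 2) - ww (sm 2) / 2 ≤ c0.E0R := by
    unfold CData.E0R c0; norm_num at k6 ⊢; linarith
  have hkm : ww (sm 2) ≤ m0.kapR := by unfold MData.kapR m0; norm_num at k4 ⊢; linarith
  have hEm : ee (sm 2) - ww (sm 2) / 2 ≤ m0.E0R := by
    unfold MData.E0R m0; norm_num at k6 ⊢; linarith
  have hsl : LL 2 0 - (ee (sm 2) - ww (sm 2) / 2) < 0.0309839 := by linarith
  have hsl0 : 0 < LL 2 0 - (ee (sm 2) - ww (sm 2) / 2) := by linarith
  set κ := ww (sm 2) with hκ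
  set E := ee (sm 2) - κ / 2 with hE
  set n := ∑ j, c j with hn
  have hDl2 : Dlt κ E n ≤ (n - 2) * 0.0309839 := by
    rw [hDl]
    exact mul_le_mul_of_nonneg_left hsl.le (by linarith)
  rcases le_or_gt m0.bbR (bet i c s) with hb | hb
  · refine h.rowM (kap := κ) (E0 := E) (bb := m0.bbR) (Dm := m0.DmR)
      (fun x hx _ => hD_two hx)
      (fun x hx hx1 => MData.M1_sound m0_ok1 hkm hEm hx hx1)
      (fun x hx hx1 => MData.M2_sound m0_ok2 hkm hEm hx hx1) hb ?_
    have : (1557 : ℝ) / 10 ^ 6 = m0.DmR := by unfold MData.DmR m0; norm_num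
    rw [← this]
    rw [← hn]
    linarith
  · have hbB : bet i c s ≤ c0.BR := by
      refine hb.le.trans ?_
      unfold CData.BR c0 MData.bbR m0
      norm_num
    refine h.caseC c0_ok hk0 hE0 (fun x hx _ => hD_two hx) (lo := 0) h.bet_nonneg hbB h1.le
      (by linarith) ?_
    rw [← hn]
    unfold psi CData.A1R CData.a0R CData.a1R CData.Y3R CData.rhoR c0
    rw [mul_zero, add_zero, lt_min_iff, lt_min_iff]
    refine ⟨?_, ?_, ?_⟩ <;> norm_num <;> linarith

theorem RowHyp.end3 {i : ι} {c s : ι → ℝ} {T : ℝ} (h : RowHyp i c s T)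
    (h1 : (295 : ℝ) / 100 ≤ ∑ j, c j) (h2 : ∑ j, c j < 3) : 0 < RR i c s T := by
  obtain ⟨⟨k1, k2⟩, k3, k4, ⟨k5, k6⟩, k7, k8⟩ := consts_num
  have hDl := DA_three.2 (∑ j, c j)
  have hk0 : ww (sm 3) ≤ c23.kapR := by unfold CData.kapR c23; norm_num at k7 ⊢; linarith
  have hE0 : ee (sm 3) - ww (sm 3) / 3 ≤ c23.E0R := by
    unfold CData.E0R c23; norm_num at k8 ⊢; linarith
  have hkm : ww (sm 3) ≤ m15.kapR := by unfold MData.kapR m15; norm_num at k7 ⊢; linarith
  have hEm : ee (sm 3) - ww (sm 3) / 3 ≤ m15.E0R := by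
    unfold MData.E0R m15; norm_num at k8 ⊢; linarith
  have hsl : -(LL 2 0 - (ee (sm 3) - ww (sm 3) / 3)) < 0.0173805 := by linarith
  set κ := ww (sm 3) with hκ
  set E := ee (sm 3) - κ / 3 with hE
  set n := ∑ j, c j with hn
  have hDl2 : Dlt κ E n ≤ (3 - n) * 0.0173805 := by
    rw [hDl]
    have := mul_le_mul_of_nonneg_left hsl.le (show 0 ≤ 3 - n by linarith)
    linarith
  rcases le_or_gt m15.bbR (bet i c s) with hb | hb
  · refine h.rowM (kap := κ) (E0 := E) (bb := m15.bbR) (Dm := m15.DmR)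
      (fun x hx _ => hD_three hx)
      (fun x hx hx1 => MData.M1_sound m15_ok1 hkm hEm hx hx1)
      (fun x hx hx1 => MData.M2_sound m15_ok2 hkm hEm hx hx1) hb ?_
    have : (874 : ℝ) / 10 ^ 6 = m15.DmR := by unfold MData.DmR m15; norm_num
    rw [← this]
    rw [← hn]
    linarith
  · have hbB : bet i c s ≤ c23.BR := by
      refine hb.le.trans ?_
      unfold CData.BR c23 MData.bbR m15
      norm_num
    refine h.caseC c23_ok hk0 hE0 (fun x hx _ => hD_three hx) (lo := 0) h.bet_nonneg hbB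
      (by linarith) h2.le ?_
    rw [← hn]
    unfold psi CData.A1R CData.a0R CData.a1R CData.Y3R CData.rhoR c23
    rw [mul_zero, add_zero, lt_min_iff, lt_min_iff]
    refine ⟨?_, ?_, ?_⟩ <;> norm_num <;> linarith

theorem RowHyp.fin_eq {i : ι} {c s : ι → ℝ} {T : ℝ} (h : RowHyp i c s T) {t : ℝ} (ht : t < 1)
    (ht0 : 0 < t) (hb : bet i c s = 0) (hs : ∀ j, c j ≠ 0 → s j = t) :
    (∀ j, c j ≠ 0 → s j = s i) ∧ (∀ j, j ≠ i → c j ≠ 0 → c j = 1) := by
  have hsi : s i = t := hs i (by rw [h.hci]; exact one_ne_zero)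
  refine ⟨fun j hj => by rw [hs j hj, hsi], ?_⟩
  intro j hji hj
  have h0 : ∀ j ∈ univ.erase i, 0 ≤ (1 - s j ^ 2) * c j * (1 - c j) := by
    intro j _
    have h1 : 0 ≤ 1 - s j ^ 2 := by nlinarith [h.hs0 j, h.hs1 j]
    have h2 : 0 ≤ 1 - c j := by linarith [h.hc1 j]
    exact mul_nonneg (mul_nonneg h1 (h.hc0 j)) h2
  have h1 := (Finset.sum_eq_zero_iff_of_nonneg h0).1 hb j
    (Finset.mem_erase.2 ⟨hji, Finset.mem_univ j⟩)
  rw [hs j hj] at h1
  have h2 : 1 - t ^ 2 ≠ 0 := by nlinarith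
  have h3 : (1 - t ^ 2) * c j ≠ 0 := mul_ne_zero h2 hj
  have := (mul_eq_zero.1 h1).resolve_left h3
  linarith

theorem RowHyp.low {i : ι} {c s : ι → ℝ} {T : ℝ} (h : RowHyp i c s T)
    (h1 : ∑ j, c j ≤ 2) :
    0 ≤ RR i c s T ∧ (RR i c s T = 0 → 1 - s i ^ 2 = 1 / 2 ∧
      (∀ j, c j ≠ 0 → s j = s i) ∧ (∀ j, j ≠ i → c j ≠ 0 → c j = 1)) := by
  obtain ⟨⟨k1, k2⟩, k3, k4, ⟨k5, k6⟩, k7, k8⟩ := consts_num
  have hkm : ww (sm 2) ≤ m16.kapR := by unfold MData.kapR m16; norm_num at k4 ⊢; linarith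
  have hEm : ee (sm 2) - ww (sm 2) / 2 ≤ m16.E0R := by
    unfold MData.E0R m16; norm_num at k6 ⊢; linarith
  have hDm : 0 < m16.DmR := by unfold MData.DmR m16; norm_num
  have hsl0 : 0 < LL 2 0 - (ee (sm 2) - ww (sm 2) / 2) := by linarith
  have hN := h.rowN (kap := ww (sm 2)) (E0 := ee (sm 2) - ww (sm 2) / 2)
    (fun x hx _ => hD_two hx)
    (fun x hx hx1 => lt_of_lt_of_le hDm (MData.M2_sound m16_ok2 hkm hEm hx hx1))
    (by rw [DA_two.2]; exact mul_nonpos_of_nonpos_of_nonneg (by linarith) hsl0.le)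
  refine ⟨hN.1, ?_⟩
  intro h0
  obtain ⟨_, z2, z3⟩ := hN.2 h0
  have hs : ∀ j, c j ≠ 0 → s j = sm 2 := by
    intro j hj
    have := z3 j hj
    rw [DA_two.1 _ (h.hs0 j)] at this
    exact DD_eq_zero (h.hs0 j) sm2_pos this
  have hlt : sm 2 < 1 := by linarith [sm2_hi]
  refine ⟨?_, h.fin_eq hlt sm2_pos z2 hs⟩
  rw [hs i (by rw [h.hci]; exact one_ne_zero), sm2_sq]
  norm_num

theorem RowHyp.high {i : ι} {c s : ι → ℝ} {T : ℝ} (h : RowHyp i c s T)
    (h1 : 3 ≤ ∑ j, c j) :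
    0 ≤ RR i c s T ∧ (RR i c s T = 0 → 1 - s i ^ 2 = 1 / 3 ∧
      (∀ j, c j ≠ 0 → s j = s i) ∧ (∀ j, j ≠ i → c j ≠ 0 → c j = 1)) := by
  obtain ⟨⟨k1, k2⟩, k3, k4, ⟨k5, k6⟩, k7, k8⟩ := consts_num
  have hkm : ww (sm 3) ≤ m17.kapR := by unfold MData.kapR m17; norm_num at k7 ⊢; linarith
  have hEm : ee (sm 3) - ww (sm 3) / 3 ≤ m17.E0R := by
    unfold MData.E0R m17; norm_num at k8 ⊢; linarith
  have hDm : 0 < m17.DmR := by unfold MData.DmR m17; norm_num
  have hsl0 : LL 2 0 - (ee (sm 3) - ww (sm 3) / 3) ≤ 0 := by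
    have e1 := ee_three
    have e2 := ww_three
    have e3 := L0_eq
    rw [e1, e2, e3]
    have a := sm2_hi
    have b := sm3_lo
    linarith
  have hN := h.rowN (kap := ww (sm 3)) (E0 := ee (sm 3) - ww (sm 3) / 3)
    (fun x hx _ => hD_three hx)
    (fun x hx hx1 => lt_of_lt_of_le hDm (MData.M2_sound m17_ok2 hkm hEm hx hx1))
    (by rw [DA_three.2]; exact mul_nonpos_of_nonneg_of_nonpos (by linarith) hsl0)
  refine ⟨hN.1, ?_⟩
  intro h0
  obtain ⟨_, z2, z3⟩ := hN.2 h0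
  have hs : ∀ j, c j ≠ 0 → s j = sm 3 := by
    intro j hj
    have := z3 j hj
    rw [DA_three.1 _ (h.hs0 j)] at this
    exact DD_eq_zero (h.hs0 j) sm3_pos this
  have hlt : sm 3 < 1 := by linarith [sm3_hi]
  refine ⟨?_, h.fin_eq hlt sm3_pos z2 hs⟩
  rw [hs i (by rw [h.hci]; exact one_ne_zero), sm3_sq]
  norm_num

/-- **The row theorem.** -/
theorem row_two : RowTwoStmt ι := by
  intro i c s T h
  rcases le_or_gt (∑ j, c j) 2 with h1 | h1
  · obtain ⟨a, b⟩ := h.low h1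
    exact ⟨a, fun h0 => ⟨Or.inl (b h0).1, (b h0).2⟩⟩
  rcases le_or_gt 3 (∑ j, c j) with h2 | h2
  · obtain ⟨a, b⟩ := h.high h2
    exact ⟨a, fun h0 => ⟨Or.inr (b h0).1, (b h0).2⟩⟩
  have hpos : 0 < RR i c s T := by
    rcases le_or_gt (∑ j, c j) ((205 : ℝ) / 100) with h3 | h3
    · exact h.end2 h1 h3
    rcases le_or_gt (∑ j, c j) ((295 : ℝ) / 100) with h4 | h4
    · exact h.interiorAll h3.le h4
    · exact h.end3 h4.le h2
  exact ⟨hpos.le, fun h0 => absurd h0 hpos.ne'⟩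

end Pool.Agent.DSX
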