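import Pool.Agent.DSX.Defs

/-!
# DSX, module SavConv (helper84)
-/

set_option autoImplicit false

namespace Pool.Agent.DSX

open Finset Pool.Agent.Helper86.DistSum

variable {ι : Type*} [Fintype ι] [DecidableEq ι]

private lemma sc_w {u g : ℝ} (hu : 1 / 2 ≤ u) (hu1 : u < 1) (hg1 : g ≤ 1) :
    0 < u - g * (2 * u - 1) := by
  have h1 : 0 ≤ 2 * u - 1 := by linarith
  have h2 : g * (2 * u - 1) ≤ 1 * (2 * u - 1) := mul_le_mul_of_nonneg_right hg1 h1
  linarith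

/-- midpoint convexity -/
private lemma sc_conv {u v g : ℝ} (hu : 1 / 2 ≤ u) (hv : 1 / 2 ≤ v) (hu1 : u < 1) (hv1 : v < 1)
    (hg0 : 0 ≤ g) (hg1 : g ≤ 1) :
    ((u + v) / 2) ^ 3 / ((u + v) / 2 - g * (2 * ((u + v) / 2) - 1))
      ≤ (u ^ 3 / (u - g * (2 * u - 1)) + v ^ 3 / (v - g * (2 * v - 1))) / 2 := by
  have wu := sc_w hu hu1 hg1
  have wv := sc_w hv hv1 hg1
  have wm := sc_w (u := (u + v) / 2) (g := g) (by linarith) (by linarith) hg1
  obtain ⟨m, hm⟩ : ∃ m : ℝ, m = (u + v) / 2 := ⟨_, rfl⟩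
  obtain ⟨d, hd⟩ : ∃ d : ℝ, d = (u - v) / 2 := ⟨_, rfl⟩
  obtain ⟨a, ha⟩ : ∃ a : ℝ, a = 1 - 2 * g := ⟨_, rfl⟩
  obtain ⟨w, hw⟩ : ∃ w : ℝ, w = a * m + g := ⟨_, rfl⟩
  have eu : u - g * (2 * u - 1) = w + a * d := by rw [hw, ha, hm, hd]; ring
  have ev : v - g * (2 * v - 1) = w - a * d := by rw [hw, ha, hm, hd]; ring
  have em : (u + v) / 2 - g * (2 * ((u + v) / 2) - 1) = w := by rw [hw, ha, hm]; ring
  have eu' : u = m + d := by rw [hm, hd]; ring
  have ev' : v = m - d := by rw [hm, hd]; ring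
  rw [eu] at wu ⊢
  rw [ev] at wv ⊢
  rw [em] at wm ⊢
  rw [← hm, div_add_div _ _ wu.ne' wv.ne', div_div, div_le_div_iff₀ wm (by positivity), eu', ev']
  have hm0 : 1 / 2 ≤ m := by rw [hm]; linarith
  have hd2 : d ^ 2 ≤ m ^ 2 / 4 := by
    have h1 : d ^ 2 ≤ (1 / 4) ^ 2 := by
      apply sq_le_sq'
      · rw [hd]; linarith
      · rw [hd]; linarith
    have h2 : (1 / 2) ^ 2 ≤ m ^ 2 := pow_le_pow_left₀ (by norm_num) hm0 2
    linarith
  have key : 0 ≤ m * (3 * w ^ 2 - 3 * a * m * w + a ^ 2 * m ^ 2) - a * d ^ 2 * w := by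
    have hm1 : 0 < m := by linarith
    rcases le_or_gt a 0 with ha0 | ha0
    · have h1 : 0 ≤ -a := by linarith
      have h2 : 0 ≤ m * (3 * w ^ 2 + 3 * (-a) * m * w + a ^ 2 * m ^ 2) + (-a) * d ^ 2 * w := by
        positivity
      linarith
    · have e1 : m * (3 * w ^ 2 - 3 * a * m * w + a ^ 2 * m ^ 2) =
          m * (3 * w * g + a ^ 2 * m ^ 2) := by
        rw [hw]; ring
      have e2 : a * d ^ 2 * w ≤ a * (m ^ 2 / 4) * w := by gcongr
      have e3 : a * (m ^ 2 / 4) * w ≤ m * (3 * w * g + a ^ 2 * m ^ 2) := by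
        have h3 : 0 ≤ m * (3 * w * g) - a * m ^ 2 / 4 * g := by
          have : m * (3 * w * g) - a * m ^ 2 / 4 * g = m * g * (11 / 4 * (a * m) + 3 * g) := by
            rw [hw]; ring
          rw [this]; positivity
        have h4 : a * (m ^ 2 / 4) * w = a * m ^ 2 / 4 * g + a ^ 2 * m ^ 3 / 4 := by
          rw [hw]; ring
        have h5 : 0 ≤ a ^ 2 * m ^ 3 := by positivity
        rw [h4]
        nlinarith
      linarith
  have h6 := mul_nonneg (sq_nonneg d) key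
  nlinarith

private lemma sc_S1 {s g : ℝ} (hs : 0 < s) (hs1 : s ≤ 1) (hg1 : g ≤ 1) :
    ww s - (1 / (1 + s)) ^ 3 / (1 / (1 + s) - g * (2 * (1 / (1 + s)) - 1)) = S1 s g := by
  have h1 : 0 < 1 - g * (1 - s) := by
    have : g * (1 - s) ≤ 1 * (1 - s) := mul_le_mul_of_nonneg_right hg1 (by linarith)
    linarith
  have h2 : (1 + s) ≠ 0 := by positivity
  have h3 : 1 / (1 + s) - g * (2 * (1 / (1 + s)) - 1) = (1 - g * (1 - s)) / (1 + s) := by
    field_simp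
    ring
  have h4 : 1 - (1 - s) * g ≠ 0 := by rw [mul_comm]; exact h1.ne'
  have h5 : (1 / (1 + s)) ^ 3 / ((1 - g * (1 - s)) / (1 + s)) =
      1 / ((1 + s) ^ 2 * (1 - (1 - s) * g)) := by
    rw [mul_comm g]
    field_simp
  rw [h3, h5]
  unfold ww S1
  rw [div_sub_div _ _ (by positivity) (by positivity), div_eq_div_iff (by positivity) (by positivity)]
  ring

theorem SS_split {s1 s2 P g : ℝ} (h1 : 0 < s1) (h1' : s1 ≤ 1) (h2 : 0 < s2) (h2' : s2 ≤ 1)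
    (hg0 : 0 ≤ g) (hg1 : g ≤ 1) (hP : P ^ 2 = (1 - s1 ^ 2) * (1 - s2 ^ 2) * g ^ 2) :
    (S1 s1 g + S1 s2 g) / 2 ≤ SS s1 s2 P := by
  have hb := nub_bounds h1 h1' h2 h2'
  obtain ⟨c1, -⟩ := conv_nu h1
  obtain ⟨c2, -⟩ := conv_nu h2
  have e1 := sc_S1 h1 h1' hg1
  have e2 := sc_S1 h2 h2' hg1
  have hu0 : 1 / 2 ≤ 1 / (1 + s1) := by
    rw [div_le_div_iff₀ (by norm_num) (by positivity)]; linarith
  have hv0 : 1 / 2 ≤ 1 / (1 + s2) := by
    rw [div_le_div_iff₀ (by norm_num) (by positivity)]; linarith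
  have hu1 : 1 / (1 + s1) < 1 := by
    rw [div_lt_one (by positivity)]; linarith
  have hv1 : 1 / (1 + s2) < 1 := by
    rw [div_lt_one (by positivity)]; linarith
  have hc := sc_conv hu0 hv0 hu1 hv1 hg0 hg1
  have hb1 := sav_b1 hu0 hv0 hu1 hv1
  have hn : nub s1 s2 = (1 / (1 + s1) + 1 / (1 + s2)) / 2 := rfl
  rw [← c1, ← c2, ← hn] at hb1
  rw [← hn] at hc
  have hPabs : P ≤ g * (((1 - s1 ^ 2) + (1 - s2 ^ 2)) / 2) := by
    refine (le_abs_self P).trans (abs_le_of_sq_le_sq ?_ ?_)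
    · rw [hP, mul_pow]
      nlinarith [mul_nonneg (sq_nonneg g) (sq_nonneg ((1 - s1 ^ 2) - (1 - s2 ^ 2)))]
    · have : 0 ≤ (1 - s1 ^ 2) + (1 - s2 ^ 2) := by nlinarith
      positivity
  have hn0 : 0 < nub s1 s2 := by linarith [hb.1]
  have hwn := sc_w (g := g) hb.1 hb.2 hg1
  have hle : (nub s1 s2 - g * (2 * nub s1 s2 - 1)) / nub s1 s2 ≤ 1 - nub s1 s2 * P := by
    have h3 : P ≤ g * ((2 * nub s1 s2 - 1) / nub s1 s2 ^ 2) :=
      hPabs.trans (mul_le_mul_of_nonneg_left hb1 hg0)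
    have h4 := mul_le_mul_of_nonneg_left h3 hn0.le
    have h5 : nub s1 s2 * (g * ((2 * nub s1 s2 - 1) / nub s1 s2 ^ 2)) =
        1 - (nub s1 s2 - g * (2 * nub s1 s2 - 1)) / nub s1 s2 := by
      field_simp
      ring
    linarith
  have hF : nub s1 s2 ^ 2 / (1 - nub s1 s2 * P) ≤
      nub s1 s2 ^ 3 / (nub s1 s2 - g * (2 * nub s1 s2 - 1)) := by
    calc nub s1 s2 ^ 2 / (1 - nub s1 s2 * P)
        ≤ nub s1 s2 ^ 2 / ((nub s1 s2 - g * (2 * nub s1 s2 - 1)) / nub s1 s2) :=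
          div_le_div_of_nonneg_left (by positivity) (div_pos hwn hn0) hle
      _ = _ := by
          field_simp
  unfold SS
  linarith

omit [DecidableEq ι] in
private lemma sc_cc {P : ι → ι → ℝ} (h : ProjData P) (i j : ι) :
    0 ≤ cc P i j ∧ cc P i j ≤ 1 ∧ P i j ^ 2 = P i i * P j j * cc P i j ∧ cc P i j = cc P j i := by
  have hi := h.diag_nonneg i
  have hj := h.diag_nonneg j
  refine ⟨?_, ?_, ?_, ?_⟩
  · unfold cc; positivity
  · unfold cc
    exact div_le_one_of_le₀ (h.cs i j) (by positivity)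
  · by_cases h1 : P i i = 0
    · rw [h.eq_zero_of_diag h1 j, h1]; ring
    · by_cases h2 : P j j = 0
      · rw [h.symm, h.eq_zero_of_diag h2 i, h2]; ring
      · unfold cc
        field_simp
  · unfold cc
    rw [h.symm i j, mul_comm]

private lemma sc_swap (f : ι → ι → ℝ) : offsum (fun i j => f j i) = offsum f := by
  rw [offsum_eq, offsum_eq, Finset.sum_comm]

theorem offsum_split {P : ι → ι → ℝ} (h : ProjData P) :
    offsum (fun i j => P i j ^ 2 * S1 (h.s i) (√(cc P i j)))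
      ≤ offsum (fun i j => P i j ^ 2 * SS (h.s i) (h.s j) (P i j)) ∧
    (offsum (fun i j => P i j ^ 2 * S1 (h.s i) (√(cc P i j)))
      = offsum (fun i j => P i j ^ 2 * SS (h.s i) (h.s j) (P i j)) →
      ∀ i j, i ≠ j → P i j ^ 2 * SS (h.s i) (h.s j) (P i j)
        = P i j ^ 2 * ((S1 (h.s i) (√(cc P i j)) + S1 (h.s j) (√(cc P i j))) / 2)) := by
  have e1 : offsum (fun i j => P i j ^ 2 * S1 (h.s i) (√(cc P i j))) =
      offsum (fun i j => P i j ^ 2 *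
        ((S1 (h.s i) (√(cc P i j)) + S1 (h.s j) (√(cc P i j))) / 2)) := by
    have h2 := sc_swap (fun i j => P i j ^ 2 * S1 (h.s i) (√(cc P i j)))
    have h3 : offsum (fun i j => P i j ^ 2 *
        ((S1 (h.s i) (√(cc P i j)) + S1 (h.s j) (√(cc P i j))) / 2)) =
        1 / 2 * (offsum (fun i j => P i j ^ 2 * S1 (h.s i) (√(cc P i j))) +
          offsum (fun i j => P j i ^ 2 * S1 (h.s j) (√(cc P j i)))) := by
      rw [← offsum_add, ← offsum_mul]
      refine offsum_congr fun i j _ => ?_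
      rw [h.symm j i, (sc_cc h j i).2.2.2]
      ring
    rw [h3, h2]
    ring
  have hle : ∀ i j, i ≠ j → P i j ^ 2 *
      ((S1 (h.s i) (√(cc P i j)) + S1 (h.s j) (√(cc P i j))) / 2) ≤
      P i j ^ 2 * SS (h.s i) (h.s j) (P i j) := by
    intro i j _
    obtain ⟨c0, c1, c2, -⟩ := sc_cc h i j
    refine mul_le_mul_of_nonneg_left ?_ (sq_nonneg _)
    refine SS_split (h.s_pos i) (h.s_le i) (h.s_pos j) (h.s_le j) (Real.sqrt_nonneg _)
      (Real.sqrt_le_one.mpr c1) ?_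
    rw [Real.sq_sqrt c0, h.s_sq, h.s_sq]
    exact c2
  rw [e1]
  exact ⟨offsum_le hle, fun he i j hij => (offsum_eq_of_le hle he i j hij).symm⟩

end Pool.Agent.DSX
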