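import Pool.Agent.DSX.Data

/-!
# Soundness of the certificates (helper57)
-/

set_option autoImplicit false

namespace Pool.Agent.DSX

open Finset Pool.Agent.Helper86.DistSum

/-! ### evaluation of the expressions -/

theorem Dn_ev (u v : ℝ) (one kap E0 s : Ex) : (Dn one kap E0 s).ev u v
    = Dn (one.ev u v) (kap.ev u v) (E0.ev u v) (s.ev u v) := by
  simp only [Dn, Ex.ev_add, Ex.ev_sub, Ex.ev_mul]

theorem PAF_ev (u v : ℝ) (one two seven th kap E0 B K dl gD q s g : Ex) :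
    (PAF one two seven th kap E0 B K dl gD q s g).ev u v
      = PAF (one.ev u v) (two.ev u v) (seven.ev u v) (th.ev u v) (kap.ev u v) (E0.ev u v)
        (B.ev u v) (K.ev u v) (dl.ev u v) (gD.ev u v) (q.ev u v) (s.ev u v) (g.ev u v) := by
  simp only [PAF, Ex.ev_add, Ex.ev_sub, Ex.ev_mul, Dn_ev]

theorem PAD_ev (u v : ℝ) (one two seven th kap E0 B K dl gD q s g : Ex) :
    (PAD one two seven th kap E0 B K dl gD q s g).ev u v
      = PAD (one.ev u v) (two.ev u v) (seven.ev u v) (th.ev u v) (kap.ev u v) (E0.ev u v)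
        (B.ev u v) (K.ev u v) (dl.ev u v) (gD.ev u v) (q.ev u v) (s.ev u v) (g.ev u v) := by
  simp only [PAD, Ex.ev_add, Ex.ev_sub, Ex.ev_mul, Dn_ev]

theorem PB1_ev (u v : ℝ) (one kap E0 rho A1 q s g : Ex) :
    (PB1 one kap E0 rho A1 q s g).ev u v
      = PB1 (one.ev u v) (kap.ev u v) (E0.ev u v) (rho.ev u v) (A1.ev u v) (q.ev u v)
        (s.ev u v) (g.ev u v) := by
  simp only [PB1, Ex.ev_add, Ex.ev_sub, Ex.ev_mul, Dn_ev]

theorem PB2_ev (u v : ℝ) (one kap E0 rho a0 a1 q s g : Ex) :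
    (PB2 one kap E0 rho a0 a1 q s g).ev u v
      = PB2 (one.ev u v) (kap.ev u v) (E0.ev u v) (rho.ev u v) (a0.ev u v) (a1.ev u v)
        (q.ev u v) (s.ev u v) (g.ev u v) := by
  simp only [PB2, Ex.ev_add, Ex.ev_sub, Ex.ev_mul, Dn_ev]

theorem PB4_ev (u v : ℝ) (one rho Y3 sst q g : Ex) :
    (PB4 one rho Y3 sst q g).ev u v
      = PB4 (one.ev u v) (rho.ev u v) (Y3.ev u v) (sst.ev u v) (q.ev u v) (g.ev u v) := by
  simp only [PB4, Ex.ev_add, Ex.ev_sub, Ex.ev_mul]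

theorem PM1_ev (u v : ℝ) (one half th kap E0 bb Dm s : Ex) :
    (PM1 one half th kap E0 bb Dm s).ev u v
      = PM1 (one.ev u v) (half.ev u v) (th.ev u v) (kap.ev u v) (E0.ev u v) (bb.ev u v)
        (Dm.ev u v) (s.ev u v) := by
  simp only [PM1, Ex.ev_add, Ex.ev_sub, Ex.ev_mul, Dn_ev]

theorem PM2_ev (u v : ℝ) (one half th kap E0 Dm s : Ex) :
    (PM2 one half th kap E0 Dm s).ev u v
      = PM2 (one.ev u v) (half.ev u v) (th.ev u v) (kap.ev u v) (E0.ev u v)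
        (Dm.ev u v) (s.ev u v) := by
  simp only [PM2, Ex.ev_add, Ex.ev_sub, Ex.ev_mul, Dn_ev]

theorem PM3_ev (u v : ℝ) (one two four th kap E0 bb Dm s : Ex) :
    (PM3 one two four th kap E0 bb Dm s).ev u v
      = PM3 (one.ev u v) (two.ev u v) (four.ev u v) (th.ev u v) (kap.ev u v) (E0.ev u v)
        (bb.ev u v) (Dm.ev u v) (s.ev u v) := by
  simp only [PM3, Ex.ev_add, Ex.ev_sub, Ex.ev_mul, Dn_ev]

theorem PM4_ev (u v : ℝ) (one two four th kap E0 Dm s : Ex) :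
    (PM4 one two four th kap E0 Dm s).ev u v
      = PM4 (one.ev u v) (two.ev u v) (four.ev u v) (th.ev u v) (kap.ev u v) (E0.ev u v)
        (Dm.ev u v) (s.ev u v) := by
  simp only [PM4, Ex.ev_add, Ex.ev_sub, Ex.ev_mul, Dn_ev]

/-! ### the real statements behind the polynomials -/

theorem DA_eq_Dn {kap E0 s : ℝ} (hs : 0 < s) : DA kap E0 s = Dn 1 kap E0 s / (1 + s) := by
  unfold DA Dn ee
  have : (1 + s) ≠ 0 := by positivity
  field_simp
  ring

theorem DA_mono {kap E0 kap' E0' s : ℝ} (hs : 0 < s) (hs1 : s ≤ 1) (hk : kap' ≤ kap)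
    (hE : E0' ≤ E0) : DA kap E0 s ≤ DA kap' E0' s := by
  unfold DA
  have h1 : 0 ≤ 1 - s ^ 2 := by nlinarith
  have h2 := mul_le_mul_of_nonneg_right hk h1
  linarith

theorem D_pos {x g : ℝ} (hx : 0 < x) (hg0 : 0 ≤ g) (hg1 : g ≤ 1) : 0 < 1 - (1 - x) * g := by
  rcases le_or_gt x 1 with h | h
  · have : (1 - x) * g ≤ (1 - x) * 1 := mul_le_mul_of_nonneg_left hg1 (by linarith)
    linarith
  · have : (1 - x) * g ≤ 0 := mul_nonpos_of_nonpos_of_nonneg (by linarith) hg0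
    linarith

theorem A_of_F {kap E0 B K dl gD q x g : ℝ} (hx : 0 < x) (hg : 0 < g) (hg1 : g ≤ 1)
    (hB : 0 < B) (hK : 0 < K) (hdl : 0 < dl) (hgD : g ≤ gD) (hgD0 : 0 < gD)
    (h : 0 ≤ PAF 1 2 7 (14 / 10 ^ 3) kap E0 B K dl gD q x g) :
    (1 - g) * q ≤ S1 x g + (1 - g ^ 2) / B * DA kap E0 x
      + tht * tau B K dl (gD ^ 2 + gD ^ 4) (gD ^ 2) x (g ^ 2) := by
  have hD := D_pos hx hg.le hg1
  rw [DA_eq_Dn hx]
  have hc : g ^ 2 ≤ gD ^ 2 := by
    apply pow_le_pow_left₀ hg.le hgD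
  have hT : tau B K dl (gD ^ 2 + gD ^ 4) (gD ^ 2) x (g ^ 2)
      = (K * dl * (2 * (g * g) * (1 - g * g) - B * (1 - g * g) * (1 + 7 * (g * g))
          - 2 * K * ((1 - g * g) * (1 - g * g)))
        - 2 * dl * B * (g * g) * ((1 - g * g) * (1 - g * g))
        - K * (dl + 1) * ((g * g + (g * g) * (g * g) - (gD * gD + (gD * gD) * (gD * gD)))
          * (g * g + (g * g) * (g * g) - (gD * gD + (gD * gD) * (gD * gD))))) / (K * dl) := by
    unfold tau
    rw [if_pos hc]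
    field_simp
  rw [hT]
  have e : S1 x g + (1 - g ^ 2) / B * (Dn 1 kap E0 x / (1 + x)) + tht * ((K * dl * (2 * (g * g) * (1 - g * g) - B * (1 - g * g) * (1 + 7 * (g * g))
          - 2 * K * ((1 - g * g) * (1 - g * g)))
        - 2 * dl * B * (g * g) * ((1 - g * g) * (1 - g * g))
        - K * (dl + 1) * ((g * g + (g * g) * (g * g) - (gD * gD + (gD * gD) * (gD * gD)))
          * (g * g + (g * g) * (g * g) - (gD * gD + (gD * gD) * (gD * gD))))) / (K * dl)) - (1 - g) * q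
      = PAF 1 2 7 (14 / 10 ^ 3) kap E0 B K dl gD q x g
        / (B * (K * dl) * (x * (1 + x) ^ 2 * (1 - (1 - x) * g))) := by
    unfold PAF S1 tht
    simp only
    generalize (K * dl * (2 * (g * g) * (1 - g * g) - B * (1 - g * g) * (1 + 7 * (g * g))
          - 2 * K * ((1 - g * g) * (1 - g * g)))
        - 2 * dl * B * (g * g) * ((1 - g * g) * (1 - g * g))
        - K * (dl + 1) * ((g * g + (g * g) * (g * g) - (gD * gD + (gD * gD) * (gD * gD)))
          * (g * g + (g * g) * (g * g) - (gD * gD + (gD * gD) * (gD * gD))))) = T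
    generalize Dn 1 kap E0 x = N
    generalize hDD : 1 - (1 - x) * g = D
    rw [hDD] at hD
    have h1 : (1 + x) ≠ 0 := by positivity
    field_simp
    ring
  have h2 : 0 ≤ PAF 1 2 7 (14 / 10 ^ 3) kap E0 B K dl gD q x g
        / (B * (K * dl) * (x * (1 + x) ^ 2 * (1 - (1 - x) * g))) :=
    div_nonneg h (by positivity)
  linarith

theorem A_of_D {kap E0 B K dl gD q x g : ℝ} (hx : 0 < x) (hg : 0 < g) (hg1 : g ≤ 1)
    (hB : 0 < B) (hK : 0 < K) (hdl : 0 < dl) (hgD : gD < g) (hgD0 : 0 < gD)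
    (h : 0 ≤ PAD 1 2 7 (14 / 10 ^ 3) kap E0 B K dl gD q x g) :
    (1 - g) * q ≤ S1 x g + (1 - g ^ 2) / B * DA kap E0 x
      + tht * tau B K dl (gD ^ 2 + gD ^ 4) (gD ^ 2) x (g ^ 2) := by
  have hD := D_pos hx hg.le hg1
  rw [DA_eq_Dn hx]
  have hc : ¬ (g ^ 2 ≤ gD ^ 2) := by
    push Not
    apply pow_lt_pow_left₀ hgD hgD0.le (by norm_num)
  have hT : tau B K dl (gD ^ 2 + gD ^ 4) (gD ^ 2) x (g ^ 2)
      = (1 - g) * (g * g * (1 + g) * (K * dl * (2 * (g * g) - B * (1 + 7 * (g * g))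
          - 2 * K * (1 - g * g)) - 2 * dl * B * (g * g) * (1 - g * g))
        - K * dl * (1 + dl) * (x * x) * (1 + g)
        * ((g * g + (g * g) * (g * g) - (gD * gD + (gD * gD) * (gD * gD)))
          * (g * g + (g * g) * (g * g) - (gD * gD + (gD * gD) * (gD * gD)))))
        / (K * dl * (g * g)) := by
    unfold tau
    rw [if_neg hc]
    field_simp
    ring
  rw [hT]
  have e : S1 x g + (1 - g ^ 2) / B * (Dn 1 kap E0 x / (1 + x))
      + tht * ((1 - g) * (g * g * (1 + g) * (K * dl * (2 * (g * g) - B * (1 + 7 * (g * g))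
          - 2 * K * (1 - g * g)) - 2 * dl * B * (g * g) * (1 - g * g))
        - K * dl * (1 + dl) * (x * x) * (1 + g)
        * ((g * g + (g * g) * (g * g) - (gD * gD + (gD * gD) * (gD * gD)))
          * (g * g + (g * g) * (g * g) - (gD * gD + (gD * gD) * (gD * gD)))))
        / (K * dl * (g * g))) - (1 - g) * q
      = (1 - g) * PAD 1 2 7 (14 / 10 ^ 3) kap E0 B K dl gD q x g
        / (B * (K * dl) * (g * g) * (x * (1 + x) ^ 2 * (1 - (1 - x) * g))) := by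
    unfold PAD S1 tht
    simp only
    generalize (g * g * (1 + g) * (K * dl * (2 * (g * g) - B * (1 + 7 * (g * g))
          - 2 * K * (1 - g * g)) - 2 * dl * B * (g * g) * (1 - g * g))
        - K * dl * (1 + dl) * (x * x) * (1 + g)
        * ((g * g + (g * g) * (g * g) - (gD * gD + (gD * gD) * (gD * gD)))
          * (g * g + (g * g) * (g * g) - (gD * gD + (gD * gD) * (gD * gD))))) = T
    generalize Dn 1 kap E0 x = N
    generalize hDD : 1 - (1 - x) * g = D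
    rw [hDD] at hD
    have h1 : (1 + x) ≠ 0 := by positivity
    field_simp
    ring
  have h2 : 0 ≤ (1 - g) * PAD 1 2 7 (14 / 10 ^ 3) kap E0 B K dl gD q x g
        / (B * (K * dl) * (g * g) * (x * (1 + x) ^ 2 * (1 - (1 - x) * g))) :=
    div_nonneg (mul_nonneg (by linarith) h) (by positivity)
  linarith

theorem B_of_1 {kap E0 rho A1 q x g : ℝ} (hx : 0 < x)
    (h : 0 ≤ PB1 1 kap E0 rho A1 q x g) :
    A1 * g ^ 2 ≤ g ^ 2 * (DA kap E0 x + (1 - x ^ 2) * ((1 - g) * q - rho * (1 - g ^ 2))) := by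
  rw [DA_eq_Dn hx]
  have h1 : (1 + x) ≠ 0 := by positivity
  have e : Dn 1 kap E0 x / (1 + x) + (1 - x ^ 2) * ((1 - g) * q - rho * (1 - g ^ 2)) - A1
      = PB1 1 kap E0 rho A1 q x g / (1 + x) := by
    unfold PB1
    generalize Dn 1 kap E0 x = N
    field_simp
  have h2 : 0 ≤ PB1 1 kap E0 rho A1 q x g / (1 + x) := div_nonneg h (by positivity)
  have h3 : A1 ≤ Dn 1 kap E0 x / (1 + x) + (1 - x ^ 2) * ((1 - g) * q - rho * (1 - g ^ 2)) := by
    linarith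
  have := mul_le_mul_of_nonneg_left h3 (sq_nonneg g)
  linarith

theorem B_of_2 {kap E0 rho a0 a1 q x g : ℝ} (hx : 0 < x)
    (h : 0 ≤ PB2 1 kap E0 rho a0 a1 q x g) :
    a0 + a1 * g ^ 2
      ≤ g ^ 2 * (DA kap E0 x + (1 - x ^ 2) * ((1 - g) * q - rho * (1 - g ^ 2))) := by
  rw [DA_eq_Dn hx]
  have h1 : (1 + x) ≠ 0 := by positivity
  have e : g ^ 2 * (Dn 1 kap E0 x / (1 + x)
        + (1 - x ^ 2) * ((1 - g) * q - rho * (1 - g ^ 2))) - (a0 + a1 * g ^ 2)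
      = PB2 1 kap E0 rho a0 a1 q x g / (1 + x) := by
    unfold PB2
    generalize Dn 1 kap E0 x = N
    field_simp
  have h2 : 0 ≤ PB2 1 kap E0 rho a0 a1 q x g / (1 + x) := div_nonneg h (by positivity)
  linarith

theorem B_of_4 {rho Y3 sst q x g D : ℝ} (hx : 0 < x) (hxs : x ≤ sst) (hsst : sst < 1)
    (hg : 0 < g) (hg1 : g ≤ 1) (hY3 : 0 ≤ Y3) (hD : 0 ≤ D)
    (h : 0 ≤ PB4 1 rho Y3 sst q g) :
    Y3 * (1 - g ^ 2) ≤ g ^ 2 * (D + (1 - x ^ 2) * ((1 - g) * q - rho * (1 - g ^ 2))) := by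
  unfold PB4 at h
  have h0 : 0 < 1 - sst * sst := by nlinarith
  have hR : 0 ≤ Y3 * (1 + g) := by positivity
  have h1 : 0 ≤ (1 - sst * sst) * (g * g) * (q - rho * (1 + g)) := by linarith
  have h2 : 0 ≤ q - rho * (1 + g) := by
    by_contra hcon
    push Not at hcon
    have : (1 - sst * sst) * (g * g) * (q - rho * (1 + g)) < 0 :=
      mul_neg_of_pos_of_neg (by positivity) hcon
    linarith
  have h3 : 1 - sst * sst ≤ 1 - x ^ 2 := by nlinarith
  have h4 : (1 - sst * sst) * (g * g) * (q - rho * (1 + g))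
      ≤ (1 - x ^ 2) * (g * g) * (q - rho * (1 + g)) := by
    apply mul_le_mul_of_nonneg_right _ h2
    exact mul_le_mul_of_nonneg_right h3 (by positivity)
  have h5 : Y3 * (1 + g) ≤ (1 - x ^ 2) * (g * g) * (q - rho * (1 + g)) := by linarith
  have h6 := mul_le_mul_of_nonneg_right h5 (show 0 ≤ 1 - g by linarith)
  have h7 : 0 ≤ g ^ 2 * D := by positivity
  nlinarith [h6, h7]

theorem M_of_1 {kap E0 bb Dm x : ℝ} (hx : 67 / 100 < x)
    (h : 0 ≤ PM1 1 (5 / 10 ^ 1) (14 / 10 ^ 3) kap E0 bb Dm x) :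
    Dm ≤ DA kap E0 x + bb * (sig x - tht * x ^ 2) := by
  have hx0 : 0 < x := by linarith
  rw [DA_eq_Dn hx0]
  have h1 : (1 + x) ≠ 0 := by positivity
  have e : Dn 1 kap E0 x / (1 + x) + bb * (sig x - tht * x ^ 2) - Dm
      = PM1 1 (5 / 10 ^ 1) (14 / 10 ^ 3) kap E0 bb Dm x / (x ^ 2 * (1 + x) ^ 2) := by
    unfold PM1 sig tht
    rw [if_neg (by linarith)]
    generalize Dn 1 kap E0 x = N
    field_simp
    ring
  have h2 : 0 ≤ PM1 1 (5 / 10 ^ 1) (14 / 10 ^ 3) kap E0 bb Dm x / (x ^ 2 * (1 + x) ^ 2) :=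
    div_nonneg h (by positivity)
  linarith

theorem M_of_2 {kap E0 Dm x : ℝ} (hx : 67 / 100 < x)
    (h : 0 ≤ PM2 1 (5 / 10 ^ 1) (14 / 10 ^ 3) kap E0 Dm x) :
    Dm ≤ DA kap E0 x + x ^ 2 * (sig x - tht * x ^ 2) := by
  have hx0 : 0 < x := by linarith
  rw [DA_eq_Dn hx0]
  have h1 : (1 + x) ≠ 0 := by positivity
  have e : Dn 1 kap E0 x / (1 + x) + x ^ 2 * (sig x - tht * x ^ 2) - Dm
      = PM2 1 (5 / 10 ^ 1) (14 / 10 ^ 3) kap E0 Dm x / ((1 + x) ^ 2) := by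
    unfold PM2 sig tht
    rw [if_neg (by linarith)]
    generalize Dn 1 kap E0 x = N
    field_simp
    ring
  have h2 : 0 ≤ PM2 1 (5 / 10 ^ 1) (14 / 10 ^ 3) kap E0 Dm x / ((1 + x) ^ 2) :=
    div_nonneg h (by positivity)
  linarith

theorem M_of_3 {kap E0 bb Dm x : ℝ} (hx0 : 0 < x) (hx : x ≤ 67 / 100)
    (h : 0 ≤ PM3 1 2 4 (14 / 10 ^ 3) kap E0 bb Dm x) :
    Dm ≤ DA kap E0 x + bb * (sig x - tht * x ^ 2) := by
  rw [DA_eq_Dn hx0]
  have h1 : (1 + x) ≠ 0 := by positivity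
  have h3 : (2 - x) ≠ 0 := by linarith
  have h4 : 0 < 2 - x := by linarith
  have e : Dn 1 kap E0 x / (1 + x) + bb * (sig x - tht * x ^ 2) - Dm
      = PM3 1 2 4 (14 / 10 ^ 3) kap E0 bb Dm x / (x * (1 + x) ^ 2 * (2 - x) ^ 2) := by
    unfold PM3 sig tht
    rw [if_pos hx]
    generalize Dn 1 kap E0 x = N
    field_simp
    ring
  have h2 : 0 ≤ PM3 1 2 4 (14 / 10 ^ 3) kap E0 bb Dm x / (x * (1 + x) ^ 2 * (2 - x) ^ 2) :=
    div_nonneg h (by positivity)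
  linarith

theorem M_of_4 {kap E0 Dm x : ℝ} (hx0 : 0 < x) (hx : x ≤ 67 / 100)
    (h : 0 ≤ PM4 1 2 4 (14 / 10 ^ 3) kap E0 Dm x) :
    Dm ≤ DA kap E0 x + x ^ 2 * (sig x - tht * x ^ 2) := by
  rw [DA_eq_Dn hx0]
  have h1 : (1 + x) ≠ 0 := by positivity
  have h3 : (2 - x) ≠ 0 := by linarith
  have h4 : 0 < 2 - x := by linarith
  have e : Dn 1 kap E0 x / (1 + x) + x ^ 2 * (sig x - tht * x ^ 2) - Dm
      = PM4 1 2 4 (14 / 10 ^ 3) kap E0 Dm x / ((1 + x) ^ 2 * (2 - x) ^ 2) := by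
    unfold PM4 sig tht
    rw [if_pos hx]
    generalize Dn 1 kap E0 x = N
    field_simp
    ring
  have h2 : 0 ≤ PM4 1 2 4 (14 / 10 ^ 3) kap E0 Dm x / ((1 + x) ^ 2 * (2 - x) ^ 2) :=
    div_nonneg h (by positivity)
  linarith

end Pool.Agent.DSX
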