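import Pool.Agent.DSX.Sound

/-!
# Soundness of the certificates, second part (helper57)
-/

set_option autoImplicit false

namespace Pool.Agent.DSX

open Finset Pool.Agent.Helper86.DistSum

theorem lin_cover {lo hi g : ℝ} (h1 : lo < g) (h2 : g ≤ hi) :
    0 < (g - lo) / (hi - lo) ∧ (g - lo) / (hi - lo) ≤ 1 ∧
      lo + (hi - lo) * ((g - lo) / (hi - lo)) = g := by
  have h3 : 0 < hi - lo := by linarith
  refine ⟨div_pos (by linarith) h3, ?_, ?_⟩
  · rw [div_le_one h3]; linarith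
  · field_simp
    ring

/-- `linE` covers its interval. -/
theorem linE_cover {lo hi : ℤ} {e : ℕ} {g : ℝ} (h1 : (lo : ℝ) / 10 ^ e < g)
    (h2 : g ≤ (hi : ℝ) / 10 ^ e) :
    ∃ w : ℝ, 0 < w ∧ w ≤ 1 ∧ (lo : ℝ) / 10 ^ e + ((hi : ℝ) - lo) / 10 ^ e * w = g := by
  obtain ⟨a, b, c⟩ := lin_cover h1 h2
  refine ⟨_, a, b, ?_⟩
  rw [← c]
  have : ((hi : ℝ) - lo) / 10 ^ e = (hi : ℝ) / 10 ^ e - (lo : ℝ) / 10 ^ e := by ring
  rw [this, c, c]

theorem one_ev : ((1 : ℤ) : ℝ) / 10 ^ 0 = 1 := by norm_num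
theorem two_ev : ((2 : ℤ) : ℝ) / 10 ^ 0 = 2 := by norm_num
theorem four_ev : ((4 : ℤ) : ℝ) / 10 ^ 0 = 4 := by norm_num
theorem seven_ev : ((7 : ℤ) : ℝ) / 10 ^ 0 = 7 := by norm_num
theorem th_ev : ((14 : ℤ) : ℝ) / 10 ^ 3 = 14 / 10 ^ 3 := by norm_num
theorem half_ev : ((5 : ℤ) : ℝ) / 10 ^ 1 = 5 / 10 ^ 1 := by norm_num

namespace CData
variable {d : CData}

/-- the certified lower bound of the own terms. -/
noncomputable def Z (d : CData) (g : ℝ) : ℝ :=
  (1 - g) * (if g ≤ d.gDR then qR d.qF g else qR d.qD g)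

structure Pos (d : CData) : Prop where
  B : 0 < d.BR
  K : 0 < d.KR
  dl : 0 < d.dlR
  gD : 0 < d.gDR
  gD1 : d.gDR < 1
  rho : 0 ≤ d.rhoR
  A1 : 0 ≤ d.A1R
  a0 : 0 ≤ d.a0R
  a01 : 0 ≤ d.a0R + d.a1R
  Y3 : 0 ≤ d.Y3R

theorem pos_of_ok (h : d.okP = true) : d.Pos := by
  simp only [okP, Bool.and_eq_true, decide_eq_true_eq] at h
  obtain ⟨⟨⟨⟨⟨⟨⟨⟨⟨h1, h2⟩, h3⟩, h4⟩, h5⟩, h6⟩, h7⟩, h8⟩, h9⟩, h10⟩ := h
  have r1 : (0:ℝ) < d.B := by exact_mod_cast h1
  have r2 : (0:ℝ) < d.K := by exact_mod_cast h2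
  have r3 : (0:ℝ) < d.dl := by exact_mod_cast h3
  have r4 : (0:ℝ) < d.gD := by exact_mod_cast h4
  have r5 : (d.gD : ℝ) < 100 := by exact_mod_cast h5
  have r6 : (0:ℝ) ≤ d.rho := by exact_mod_cast h6
  have r7 : (0:ℝ) ≤ d.A1 := by exact_mod_cast h7
  have r8 : (0:ℝ) ≤ d.a0 := by exact_mod_cast h8
  have r9 : (0:ℝ) ≤ d.a0 + d.a1 := by exact_mod_cast h9
  have r10 : (0:ℝ) ≤ d.Y3 := by exact_mod_cast h10
  refine ⟨?_, ?_, ?_, ?_, ?_, ?_, ?_, ?_, ?_, ?_⟩
  · unfold BR; positivity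
  · unfold KR; positivity
  · unfold dlR; positivity
  · unfold gDR; positivity
  · unfold gDR; rw [div_lt_one (by positivity)]; linarith
  · unfold rhoR; positivity
  · unfold A1R; positivity
  · unfold a0R; positivity
  · unfold a0R a1R; rw [← add_div]; positivity
  · unfold Y3R; positivity

theorem A_sound (hok : d.ok = true) {kap E0 : ℝ} (hk : kap ≤ d.kapR) (hE : E0 ≤ d.E0R)
    {x g : ℝ} (hx : 0 < x) (hx1 : x ≤ 1) (hg : 0 < g) (hg1 : g ≤ 1) :
    d.Z g ≤ S1 x g + (1 - g ^ 2) / d.BR * DA kap E0 x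
      + tht * tau d.BR d.KR d.dlR (d.gDR ^ 2 + d.gDR ^ 4) (d.gDR ^ 2) x (g ^ 2) := by
  simp only [ok, Bool.and_eq_true] at hok
  obtain ⟨⟨⟨hP, hF⟩, hDD⟩, _⟩ := hok
  have P := pos_of_ok hP
  have hb : 0 ≤ (1 - g ^ 2) / d.BR := by
    apply div_nonneg _ P.B.le
    nlinarith
  have hmono := mul_le_mul_of_nonneg_left (DA_mono (s := x) hx hx1 hk hE) hb
  rcases le_or_gt g d.gDR with hgD | hgD
  · obtain ⟨w, hw0, hw1, hw⟩ := linE_cover (lo := 0) (hi := d.gD) (e := 2) (g := g)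
      (by simpa using hg) hgD
    have h := Ex.ok_pos hF hx hx1 hw0 hw1
    simp only [exF, PAF_ev, Ex.ev_c, Ex.ev_x, qE_ev, linE_ev, Ex.ev_y] at h
    rw [hw, one_ev, two_ev, seven_ev, th_ev] at h
    have h2 := A_of_F (kap := d.kapR) (E0 := d.E0R) hx hg hg1 P.B P.K P.dl hgD P.gD h
    unfold Z
    rw [if_pos hgD]
    linarith
  · obtain ⟨w, hw0, hw1, hw⟩ := linE_cover (lo := d.gD) (hi := 100) (e := 2) (g := g)
      hgD (by norm_num; exact hg1)
    have h := Ex.ok_pos hDD hx hx1 hw0 hw1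
    simp only [exD, PAD_ev, Ex.ev_c, Ex.ev_x, qE_ev, linE_ev, Ex.ev_y] at h
    rw [hw, one_ev, two_ev, seven_ev, th_ev] at h
    have h2 := A_of_D (kap := d.kapR) (E0 := d.E0R) hx hg hg1 P.B P.K P.dl hgD P.gD h
    unfold Z
    rw [if_neg (not_le.2 hgD)]
    linarith

theorem exB_sound {kind : ℕ} {q : List ℤ} {s g : Ex} {t : Tr} (P : d.Pos)
    (h : (d.exB kind q s g).ok t = true) {u v : ℝ} (hu : 0 < u) (hu1 : u ≤ 1) (hv : 0 < v)
    (hv1 : v ≤ 1) (hx : 0 < s.ev u v) :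
    psi d.A1R d.a0R d.a1R d.Y3R ((g.ev u v) ^ 2)
      ≤ (g.ev u v) ^ 2 * (DA d.kapR d.E0R (s.ev u v) + (1 - (s.ev u v) ^ 2)
        * ((1 - g.ev u v) * qR q (g.ev u v) - d.rhoR * (1 - (g.ev u v) ^ 2))) := by
  have h0 := Ex.ok_pos h hu hu1 hv hv1
  unfold psi
  match kind, h0 with
  | 0, h0 =>
    simp only [exB, PB1_ev, Ex.ev_c, qE_ev] at h0
    rw [one_ev] at h0
    have := B_of_1 (kap := d.kapR) (E0 := d.E0R) (rho := d.rhoR) (A1 := d.A1R) hx h0
    exact le_trans (min_le_left _ _) this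
  | 1, h0 =>
    simp only [exB, PB2_ev, Ex.ev_c, qE_ev] at h0
    rw [one_ev] at h0
    have := B_of_2 (kap := d.kapR) (E0 := d.E0R) (rho := d.rhoR) (a0 := d.a0R) (a1 := d.a1R) hx h0
    exact le_trans (le_trans (min_le_right _ _) (min_le_left _ _)) this
  | (n + 2), h0 =>
    simp only [exB, PB2_ev, Ex.ev_c, qE_ev] at h0
    rw [one_ev] at h0
    have := B_of_2 (kap := d.kapR) (E0 := d.E0R) (rho := d.rhoR) (a0 := d.Y3R)
      (a1 := ((-d.Y3 : ℤ) : ℝ) / 10 ^ 6) hx h0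
    refine le_trans (le_trans (min_le_right _ _) (min_le_right _ _)) ?_
    have e : ((-d.Y3 : ℤ) : ℝ) / 10 ^ 6 = - d.Y3R := by unfold Y3R; push_cast; ring
    rw [e] at this
    linarith

theorem okB_sound (P : d.Pos) {kap E0 : ℝ} (hk : kap ≤ d.kapR) (hE : E0 ≤ d.E0R)
    (hD : ∀ x, 0 < x → x ≤ 1 → 0 ≤ DA kap E0 x) :
    ∀ (l : List Pc) (prev : ℤ), d.okB prev l = true → ∀ {x g : ℝ}, 0 < x → x ≤ 1 →
      0 < g → g ≤ 1 → (prev : ℝ) / 10 ^ 2 < g →
      psi d.A1R d.a0R d.a1R d.Y3R (g ^ 2)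
        ≤ g ^ 2 * (DA kap E0 x + (1 - x ^ 2) * (d.Z g - d.rhoR * (1 - g ^ 2)))
  | [], prev, h, x, g, hx, hx1, hg, hg1, hpg => by
      simp only [okB, decide_eq_true_eq] at h
      exfalso
      have : (100:ℝ) ≤ prev := by exact_mod_cast h
      have h2 : (1:ℝ) ≤ (prev : ℝ) / 10 ^ 2 := by
        rw [le_div_iff₀ (by norm_num)]; linarith
      linarith
  | Pc.full k gb t :: l, prev, h, x, g, hx, hx1, hg, hg1, hpg => by
      simp only [okB, Bool.and_eq_true, Bool.or_eq_true, decide_eq_true_eq] at h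
      obtain ⟨⟨h1, h2⟩, h3⟩ := h
      rcases le_or_gt g ((gb : ℝ) / 10 ^ 2) with hgb | hgb
      · obtain ⟨w, hw0, hw1, hw⟩ := linE_cover hpg hgb
        have h4 := exB_sound P h2 (u := x) (v := w) hx hx1 hw0 hw1 (by simpa [Ex.ev_x] using hx)
        simp only [Ex.ev_x, linE_ev, Ex.ev_y] at h4
        rw [hw] at h4
        have hZ : d.Z g = (1 - g) * qR (if gb ≤ d.gD then d.qF else d.qD) g := by
          unfold Z
          by_cases hc : gb ≤ d.gD
          · have : g ≤ d.gDR := by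
              refine le_trans hgb ?_
              unfold gDR
              have : (gb : ℝ) ≤ d.gD := by exact_mod_cast hc
              gcongr
            rw [if_pos this, if_pos hc]
          · have h5 : d.gD ≤ prev := h1.resolve_left hc
            have : ¬ (g ≤ d.gDR) := by
              push Not
              refine lt_of_le_of_lt ?_ hpg
              unfold gDR
              have : (d.gD : ℝ) ≤ prev := by exact_mod_cast h5
              gcongr
            rw [if_neg this, if_neg hc]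
        rw [hZ]
        have hmono := mul_le_mul_of_nonneg_left (DA_mono (s := x) hx hx1 hk hE) (sq_nonneg g)
        linarith
      · exact okB_sound P hk hE hD l gb h3 hx hx1 hg hg1 hgb
  | Pc.last sst t1 t2 :: l, prev, h, x, g, hx, hx1, hg, hg1, hpg => by
      simp only [okB, Bool.and_eq_true, decide_eq_true_eq] at h
      obtain ⟨⟨⟨⟨h1, h2⟩, h3⟩, h4⟩, h5⟩ := h
      have hg1' : g ≤ ((100 : ℤ) : ℝ) / 10 ^ 2 := by norm_num; exact hg1
      obtain ⟨w, hw0, hw1, hw⟩ := linE_cover hpg hg1'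
      have hZ : d.Z g = (1 - g) * qR d.qD g := by
        unfold Z
        have : ¬ (g ≤ d.gDR) := by
          push Not
          refine lt_of_le_of_lt ?_ hpg
          unfold gDR
          have : (d.gD : ℝ) ≤ prev := by exact_mod_cast h1
          gcongr
        rw [if_neg this]
      rw [hZ]
      rcases le_or_gt x ((sst : ℝ) / 10 ^ 3) with hxs | hxs
      · have h6 := Ex.ok_pos h4 (u := 1) (v := w) one_pos le_rfl hw0 hw1
        simp only [PB4_ev, Ex.ev_c, qE_ev, linE_ev, Ex.ev_y] at h6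
        rw [hw, one_ev] at h6
        have hs1 : (sst : ℝ) / 10 ^ 3 < 1 := by
          rw [div_lt_one (by norm_num)]
          have : (sst : ℝ) < 1000 := by exact_mod_cast h3
          linarith
        have h7 := B_of_4 (rho := d.rhoR) (Y3 := d.Y3R) (q := qR d.qD g) hx hxs hs1 hg hg1 P.Y3
          (hD x hx hx1) h6
        refine le_trans ?_ h7
        unfold psi
        exact le_trans (min_le_right _ _) (min_le_right _ _)
      · have hx1' : x ≤ ((1000 : ℤ) : ℝ) / 10 ^ 3 := by norm_num; exact hx1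
        obtain ⟨z, hz0, hz1, hz⟩ := linE_cover hxs hx1'
        have hx' : 0 < (linE sst 1000 3 Ex.x).ev z w := by
          rw [linE_ev, Ex.ev_x, hz]; exact hx
        have h6 := exB_sound P h5 (u := z) (v := w) hz0 hz1 hw0 hw1 hx'
        simp only [Ex.ev_x, linE_ev, Ex.ev_y] at h6
        rw [hw, hz] at h6
        have hmono := mul_le_mul_of_nonneg_left (DA_mono (s := x) hx hx1 hk hE) (sq_nonneg g)
        linarith

theorem B_sound (hok : d.ok = true) {kap E0 : ℝ} (hk : kap ≤ d.kapR) (hE : E0 ≤ d.E0R)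
    (hD : ∀ x, 0 < x → x ≤ 1 → 0 ≤ DA kap E0 x)
    {x g : ℝ} (hx : 0 < x) (hx1 : x ≤ 1) (hg : 0 < g) (hg1 : g ≤ 1) :
    psi d.A1R d.a0R d.a1R d.Y3R (g ^ 2)
      ≤ g ^ 2 * (DA kap E0 x + (1 - x ^ 2) * (d.Z g - d.rhoR * (1 - g ^ 2))) := by
  simp only [ok, Bool.and_eq_true] at hok
  obtain ⟨⟨⟨hP, _⟩, _⟩, hB⟩ := hok
  exact okB_sound (pos_of_ok hP) hk hE hD d.pcs 0 hB hx hx1 hg hg1 (by simpa using hg)

end CData

namespace MData
variable {d : MData}

theorem M1_sound (h : d.ok1 = true) {kap E0 : ℝ} (hk : kap ≤ d.kapR) (hE : E0 ≤ d.E0R)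
    {x : ℝ} (hx : 0 < x) (hx1 : x ≤ 1) :
    d.DmR ≤ DA kap E0 x + d.bbR * (sig x - tht * x ^ 2) := by
  simp only [ok1, Bool.and_eq_true] at h
  have hmono := DA_mono (s := x) hx hx1 hk hE
  rcases le_or_gt x (67 / 100) with hc | hc
  · obtain ⟨w, hw0, hw1, hw⟩ := linE_cover (lo := 0) (hi := 67) (e := 2) (g := x)
      (by simpa using hx) (by norm_num; exact hc)
    have h0 := Ex.ok_pos h.2 (u := w) (v := 1) hw0 hw1 one_pos le_rfl
    simp only [PM3_ev, Ex.ev_c, linE_ev, Ex.ev_x] at h0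
    rw [hw, one_ev, two_ev, four_ev, th_ev] at h0
    have := M_of_3 (kap := d.kapR) (E0 := d.E0R) (bb := d.bbR) (Dm := d.DmR) hx hc h0
    linarith
  · obtain ⟨w, hw0, hw1, hw⟩ := linE_cover (lo := 67) (hi := 100) (e := 2) (g := x)
      (by norm_num; exact hc) (by norm_num; exact hx1)
    have h0 := Ex.ok_pos h.1 (u := w) (v := 1) hw0 hw1 one_pos le_rfl
    simp only [PM1_ev, Ex.ev_c, linE_ev, Ex.ev_x] at h0
    rw [hw, one_ev, half_ev, th_ev] at h0
    have := M_of_1 (kap := d.kapR) (E0 := d.E0R) (bb := d.bbR) (Dm := d.DmR) hc h0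
    linarith

theorem M2_sound (h : d.ok2 = true) {kap E0 : ℝ} (hk : kap ≤ d.kapR) (hE : E0 ≤ d.E0R)
    {x : ℝ} (hx : 0 < x) (hx1 : x ≤ 1) :
    d.DmR ≤ DA kap E0 x + x ^ 2 * (sig x - tht * x ^ 2) := by
  simp only [ok2, Bool.and_eq_true] at h
  have hmono := DA_mono (s := x) hx hx1 hk hE
  rcases le_or_gt x (67 / 100) with hc | hc
  · obtain ⟨w, hw0, hw1, hw⟩ := linE_cover (lo := 0) (hi := 67) (e := 2) (g := x)
      (by simpa using hx) (by norm_num; exact hc)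
    have h0 := Ex.ok_pos h.2 (u := w) (v := 1) hw0 hw1 one_pos le_rfl
    simp only [PM4_ev, Ex.ev_c, linE_ev, Ex.ev_x] at h0
    rw [hw, one_ev, two_ev, four_ev, th_ev] at h0
    have := M_of_4 (kap := d.kapR) (E0 := d.E0R) (Dm := d.DmR) hx hc h0
    linarith
  · obtain ⟨w, hw0, hw1, hw⟩ := linE_cover (lo := 67) (hi := 100) (e := 2) (g := x)
      (by norm_num; exact hc) (by norm_num; exact hx1)
    have h0 := Ex.ok_pos h.1 (u := w) (v := 1) hw0 hw1 one_pos le_rfl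
    simp only [PM2_ev, Ex.ev_c, linE_ev, Ex.ev_x] at h0
    rw [hw, one_ev, half_ev, th_ev] at h0
    have := M_of_2 (kap := d.kapR) (E0 := d.E0R) (Dm := d.DmR) hc h0
    linarith

end MData

/-- the tangent test. -/
theorem okT_sound {tk kap E0 : ℤ} (h : okT tk kap E0 = true) {x : ℝ} (hx : 0 < x) (hx1 : x ≤ 1) :
    0 ≤ DA ((kap : ℝ) / 10 ^ 7) ((E0 : ℝ) / 10 ^ 7) x := by
  simp only [okT, Bool.and_eq_true, decide_eq_true_eq] at h
  obtain ⟨⟨⟨h1, h2⟩, h3⟩, h4⟩ := h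
  have r1 : (0:ℝ) < tk := by exact_mod_cast h1
  have r2 : (tk : ℝ) < 1000 := by exact_mod_cast h2
  have r3 : (kap : ℝ) * tk * ((1000 + tk) * (1000 + tk)) ≤ 10000000000000000 := by
    exact_mod_cast h3
  have r4 : (E0 : ℝ) * tk * (1000 + tk) ≤ -((1000 - tk) * (1000 - tk)) * 10000000 := by
    exact_mod_cast h4
  set t : ℝ := (tk : ℝ) / 1000 with ht
  have ht0 : 0 < t := by positivity
  have htk : (tk : ℝ) = 1000 * t := by rw [ht]; ring
  have ht1 : t < 1 := by rw [ht, div_lt_one (by norm_num)]; exact r2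
  rw [htk] at r3 r4
  have hk : (kap : ℝ) / 10 ^ 7 ≤ ww t := by
    unfold ww
    rw [div_le_div_iff₀ (by norm_num) (by positivity)]
    nlinarith [r3]
  have hE : (E0 : ℝ) / 10 ^ 7 ≤ ee t - ww t * (1 - t ^ 2) := by
    have e : ee t - ww t * (1 - t ^ 2) = -(1 - t) ^ 2 / (t * (1 + t)) := by
      unfold ee ww
      have : (1 + t) ≠ 0 := by positivity
      field_simp
      ring
    rw [e, div_le_div_iff₀ (by norm_num) (by positivity)]
    nlinarith [r4]
  have h5 := DA_mono (s := x) hx hx1 hk hE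
  have h6 : DA (ww t) (ee t - ww t * (1 - t ^ 2)) x = DD x t := by
    unfold DA DD; ring
  have h7 := DD_nonneg hx ht0
  linarith

end Pool.Agent.DSX
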