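import Pool.Agent.DSX.Defs

/-!
# Transfer terms, simple part (helper57)
-/

set_option autoImplicit false

namespace Pool.Agent.DSX

open Finset Pool.Agent.Helper86.DistSum

variable {ι : Type*} [Fintype ι] [DecidableEq ι]

theorem cc_facts {P : ι → ι → ℝ} (h : ProjData P) :
    (∀ i j, 0 ≤ cc P i j) ∧ (∀ i j, cc P i j ≤ 1) ∧ (∀ i j, P i j ^ 2 = P i i * P j j * cc P i j) ∧
    (∀ i j, cc P i j = cc P j i) ∧ (∀ i, P i i ≠ 0 → cc P i i = 1) ∧
    (∀ i, P i i ≠ 0 → ∑ j, P j j * cc P i j = 1) := by
  have hd := h.diag_nonneg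
  have h3 : ∀ i j, P i j ^ 2 = P i i * P j j * cc P i j := by
    intro i j
    unfold cc
    by_cases hi : P i i = 0
    · rw [h.eq_zero_of_diag hi j, hi]; simp
    · by_cases hj : P j j = 0
      · have : P i j = 0 := by rw [h.symm]; exact h.eq_zero_of_diag hj i
        rw [this, hj]; simp
      · field_simp
  refine ⟨?_, ?_, h3, ?_, ?_, ?_⟩
  · intro i j
    unfold cc
    exact div_nonneg (sq_nonneg _) (mul_nonneg (hd i) (hd j))
  · intro i j
    unfold cc
    exact div_le_one_of_le₀ (h.cs i j) (mul_nonneg (hd i) (hd j))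
  · intro i j
    unfold cc
    rw [h.symm i j, mul_comm (P i i)]
  · intro i hi
    unfold cc
    rw [sq]
    exact div_self (mul_ne_zero hi hi)
  · intro i hi
    have e : ∀ j, P j j * cc P i j = P i j ^ 2 / P i i := by
      intro j
      rw [h3 i j]; field_simp
    simp_rw [e]
    rw [← Finset.sum_div, h.sumsq i, div_self hi]

theorem TT_sum {P : ι → ι → ℝ} (h : ProjData P) : ∑ i, P i i * TT P i = 0 := by
  obtain ⟨_, _, _, hsym, _, hone⟩ := cc_facts h
  unfold TT
  simp_rw [mul_sub, Finset.mul_sum]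
  rw [Finset.sum_sub_distrib, Finset.sum_comm, sub_eq_zero]
  apply Finset.sum_congr rfl
  intro k _
  by_cases hk : P k k = 0
  · rw [hk]; simp
  · have e : ∀ i, P i i * (P k k * cc P i k * AA P k) = (P i i * cc P k i) * (P k k * AA P k) := by
      intro i
      rw [hsym i k]; ring
    simp_rw [e]
    rw [← Finset.sum_mul, hone k hk, one_mul]

theorem AA_le_one {P : ι → ι → ℝ} (h : ProjData P) (k : ι) : AA P k ≤ 1 := by
  obtain ⟨h0, h1, _, _, _, hone⟩ := cc_facts h
  by_cases hk : P k k = 0
  · have : ∀ m, cc P k m = 0 := by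
      intro m; unfold cc; rw [h.eq_zero_of_diag hk m]; simp
    unfold AA
    simp [this]
  · rw [← hone k hk]
    unfold AA
    apply Finset.sum_le_sum
    intro m _
    apply mul_le_mul_of_nonneg_left _ (h.diag_nonneg m)
    nlinarith [h0 k m, h1 k m]

theorem TT_ge1 {P : ι → ι → ℝ} (h : ProjData P) (i : ι) (hi : P i i ≠ 0) :
    -(h.s i ^ 2) * bet i (cc P i) h.s ≤ TT P i := by
  obtain ⟨h0, h1, _, _, hii, hone⟩ := cc_facts h
  have hs : h.s i ^ 2 = 1 - P i i := by linarith [h.s_sq i]
  -- A_i = 1 - bet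
  have hA : AA P i = 1 - bet i (cc P i) h.s := by
    have e1 : bet i (cc P i) h.s = ∑ j, P j j * cc P i j * (1 - cc P i j) := by
      unfold bet
      rw [← Finset.add_sum_erase univ (fun j => P j j * cc P i j * (1 - cc P i j))
        (Finset.mem_univ i), hii i hi]
      simp only [sub_self, mul_zero, zero_add]
      apply Finset.sum_congr rfl
      intro j _
      rw [h.s_sq]
    have e2 : AA P i = ∑ j, P j j * cc P i j - ∑ j, P j j * cc P i j * (1 - cc P i j) := by
      unfold AA
      rw [← Finset.sum_sub_distrib]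
      apply Finset.sum_congr rfl
      intro j _
      ring
    rw [e2, hone i hi, e1]
  have hsum : ∑ k, P k k * cc P i k * AA P k ≤ P i i * AA P i + (1 - P i i) := by
    rw [← Finset.add_sum_erase univ _ (Finset.mem_univ i), hii i hi, mul_one]
    have e2 : ∑ k ∈ univ.erase i, P k k * cc P i k * AA P k
        ≤ ∑ k ∈ univ.erase i, P k k * cc P i k := by
      apply Finset.sum_le_sum
      intro k _
      have := mul_le_mul_of_nonneg_left (AA_le_one h k)
        (mul_nonneg (h.diag_nonneg k) (h0 i k))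
      linarith
    have e3 := Finset.add_sum_erase univ (fun k => P k k * cc P i k) (Finset.mem_univ i)
    rw [hone i hi, hii i hi, mul_one] at e3
    linarith
  unfold TT
  rw [hs]
  have : AA P i - (P i i * AA P i + (1 - P i i)) = -(1 - P i i) * bet i (cc P i) h.s := by
    rw [hA]; ring
  linarith

end Pool.Agent.DSX
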