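import Pool.Agent.DSX.TransferA

/-!
# DSX, module TransferB: the main transfer inequality
-/

set_option autoImplicit false

namespace Pool.Agent.DSX

open Finset Pool.Agent.Helper86.DistSum

variable {ι : Type*} [Fintype ι]

/-! ### projections -/

/-- the product of a matrix and a vector -/
private def tbV (Q : ι → ι → ℝ) (v : ι → ℝ) (l : ι) : ℝ := ∑ k, Q l k * v k

private theorem tb_inner {Q : ι → ι → ℝ} (hs : ∀ k m, Q k m = Q m k)
    (hid : ∀ k m, ∑ l, Q k l * Q l m = Q k m) (u v : ι → ℝ) :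
    ∑ l, tbV Q u l * tbV Q v l = ∑ k, ∑ m, u k * (Q k m * v m) := by
  have h1 : ∀ l, tbV Q u l * tbV Q v l = ∑ k, ∑ m, Q l k * u k * (Q l m * v m) := fun l =>
    Finset.sum_mul_sum _ _ _ _
  rw [Finset.sum_congr rfl fun l _ => h1 l, Finset.sum_comm]
  refine Finset.sum_congr rfl fun k _ => ?_
  rw [Finset.sum_comm]
  refine Finset.sum_congr rfl fun m _ => ?_
  rw [← hid k m, Finset.sum_mul, Finset.mul_sum]
  refine Finset.sum_congr rfl fun l _ => ?_
  rw [hs k l]
  ring

private theorem tb_inner' {Q : ι → ι → ℝ} (hs : ∀ k m, Q k m = Q m k)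
    (hid : ∀ k m, ∑ l, Q k l * Q l m = Q k m) (u v : ι → ℝ) :
    ∑ l, tbV Q u l * tbV Q v l = ∑ l, u l * tbV Q v l := by
  rw [tb_inner hs hid]
  refine Finset.sum_congr rfl fun k _ => ?_
  rw [tbV, Finset.mul_sum]

private theorem tb_le {Q : ι → ι → ℝ} (hs : ∀ k m, Q k m = Q m k)
    (hid : ∀ k m, ∑ l, Q k l * Q l m = Q k m) (v : ι → ℝ) :
    ∑ l, tbV Q v l ^ 2 ≤ ∑ l, v l ^ 2 := by
  have h1 := tb_inner' hs hid v v
  have h2 : 0 ≤ ∑ l, (v l - tbV Q v l) ^ 2 := Finset.sum_nonneg fun l _ => sq_nonneg _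
  have h3 : ∑ l, (v l - tbV Q v l) ^ 2 =
      ∑ l, v l ^ 2 - 2 * ∑ l, v l * tbV Q v l + ∑ l, tbV Q v l * tbV Q v l := by
    rw [Finset.mul_sum, ← Finset.sum_sub_distrib, ← Finset.sum_add_distrib]
    exact Finset.sum_congr rfl fun l _ => by ring
  have h4 : ∑ l, tbV Q v l ^ 2 = ∑ l, tbV Q v l * tbV Q v l :=
    Finset.sum_congr rfl fun l _ => by ring
  rw [h4]
  linarith

private theorem tb_diag {Q : ι → ι → ℝ} (hs : ∀ k m, Q k m = Q m k)
    (hid : ∀ k m, ∑ l, Q k l * Q l m = Q k m) (k : ι) : ∑ l, Q k l ^ 2 = Q k k := by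
  rw [← hid k k]
  exact Finset.sum_congr rfl fun l _ => by rw [hs l k]; ring

private theorem tb_cs {Q : ι → ι → ℝ} (hs : ∀ k m, Q k m = Q m k)
    (hid : ∀ k m, ∑ l, Q k l * Q l m = Q k m) (k m : ι) : Q k m ^ 2 ≤ Q k k * Q m m := by
  have h1 := Finset.sum_mul_sq_le_sq_mul_sq univ (fun l => Q k l) (fun l => Q l m)
  rw [hid k m, tb_diag hs hid k] at h1
  have h2 : ∑ l, Q l m ^ 2 = Q m m := by
    rw [← tb_diag hs hid m]
    exact Finset.sum_congr rfl fun l _ => by rw [hs l m]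
  rw [h2] at h1
  exact h1

private theorem tb_nonneg {Q : ι → ι → ℝ} (hs : ∀ k m, Q k m = Q m k)
    (hid : ∀ k m, ∑ l, Q k l * Q l m = Q k m) (k : ι) : 0 ≤ Q k k := by
  rw [← tb_diag hs hid k]
  exact Finset.sum_nonneg fun l _ => sq_nonneg _

private theorem tb_abs {Q : ι → ι → ℝ} (hs : ∀ k m, Q k m = Q m k)
    (hid : ∀ k m, ∑ l, Q k l * Q l m = Q k m) (k m : ι) : |Q k m| ≤ √(Q k k) * √(Q m m) := by
  rw [← Real.sqrt_mul (tb_nonneg hs hid k), ← Real.sqrt_sq_eq_abs]
  exact Real.sqrt_le_sqrt (tb_cs hs hid k m)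

private theorem tb_D {Q : ι → ι → ℝ} (hs : ∀ k m, Q k m = Q m k)
    (hid : ∀ k m, ∑ l, Q k l * Q l m = Q k m) (v : ι → ℝ) :
    ∑ l, tbV Q v l ^ 2 ≤ (∑ k, |v k| * √(Q k k)) ^ 2 := by
  have h1 : ∑ l, tbV Q v l ^ 2 = ∑ k, ∑ m, v k * (Q k m * v m) := by
    rw [← tb_inner hs hid]
    exact Finset.sum_congr rfl fun l _ => by ring
  rw [h1, sq, Finset.sum_mul_sum]
  refine Finset.sum_le_sum fun k _ => Finset.sum_le_sum fun m _ => ?_
  have h2 := tb_abs hs hid k m
  calc v k * (Q k m * v m) ≤ |v k * (Q k m * v m)| := le_abs_self _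
    _ = |v k| * |v m| * |Q k m| := by rw [abs_mul, abs_mul]; ring
    _ ≤ |v k| * |v m| * (√(Q k k) * √(Q m m)) :=
        mul_le_mul_of_nonneg_left h2 (by positivity)
    _ = _ := by ring

/-! ### the termwise bound -/

/-- one entry; `y`, `y'` are the entries of the vector, `q` the residual entry -/
private theorem tb_term {p p' c c' y y' q : ℝ} (hp : 0 < p) (hp' : 0 < p') (hc : 0 ≤ c)
    (hc1 : c ≤ 1) (hc' : 0 ≤ c') (_hc1' : c' ≤ 1) (hy : y ^ 2 = p * c) (hy' : y' ^ 2 = p' * c')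
    (hq : q ^ 2 ≤ (p * (1 - c)) * (p' * (1 - c'))) :
    p * c * (p' * ((y * y' + q) ^ 2 / (p * p')) ^ 2) ≤
      c ^ 3 * p * (p' * c' ^ 2) + 4 * ((c ^ 2 * y) * (q * (c' * y')))
        + 6 * (c ^ 2 * (p * (1 - c)) * (c' * (p' * (1 - c'))))
        + 4 * ((c * (1 - c) * |y|) * (|q| * ((1 - c') * |y'|))) + c * (1 - c) * q ^ 2 := by
  have hpp : 0 < p * p' := mul_pos hp hp'
  set R := q ^ 2 / (p * p') with hR
  have hR0 : 0 ≤ R := by positivity
  have hR1 : R ≤ (1 - c) * (1 - c') := by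
    rw [hR, div_le_iff₀ hpp]
    linarith [hq]
  have hRq : q ^ 2 = R * (p * p') := by
    rw [hR]; field_simp
  have e1 : p * c * (p' * ((y * y' + q) ^ 2 / (p * p')) ^ 2) =
      c * (p * c ^ 2 * p' * c' ^ 2 + 4 * c * c' * y * y' * q + 6 * c * c' * q ^ 2
        + 4 * (y * y' * q) * R + q ^ 2 * R) := by
    have h1 : (y * y' + q) ^ 4 = (p * c) ^ 2 * (p' * c') ^ 2
        + 4 * (p * c * y) * (p' * c' * y') * q + 6 * (p * c) * (p' * c') * q ^ 2
        + 4 * (y * y') * q * q ^ 2 + q ^ 2 * q ^ 2 := by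
      rw [← hy, ← hy']
      ring
    have h2 : p * c * (p' * ((y * y' + q) ^ 2 / (p * p')) ^ 2) =
        c * (y * y' + q) ^ 4 / (p * p') := by
      field_simp
    rw [h2, h1, hR]
    field_simp
  rw [e1]
  have b1 : c * (6 * c * c' * q ^ 2) ≤ 6 * (c ^ 2 * (p * (1 - c)) * (c' * (p' * (1 - c')))) := by
    have h1 : 6 * c ^ 2 * c' * q ^ 2 ≤ 6 * c ^ 2 * c' * ((p * (1 - c)) * (p' * (1 - c'))) :=
      mul_le_mul_of_nonneg_left hq (by positivity)
    linarith
  have b2 : c * (4 * (y * y' * q) * R) ≤ 4 * ((c * (1 - c) * |y|) * (|q| * ((1 - c') * |y'|))) := by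
    have h1 : y * y' * q ≤ |y| * |y'| * |q| := by
      rw [← abs_mul, ← abs_mul]
      exact le_abs_self _
    have h2 : y * y' * q * R ≤ |y| * |y'| * |q| * ((1 - c) * (1 - c')) :=
      (mul_le_mul_of_nonneg_right h1 hR0).trans (mul_le_mul_of_nonneg_left hR1 (by positivity))
    have h3 : 4 * c * (y * y' * q * R) ≤ 4 * c * (|y| * |y'| * |q| * ((1 - c) * (1 - c'))) :=
      mul_le_mul_of_nonneg_left h2 (by positivity)
    linarith
  have b3 : c * (q ^ 2 * R) ≤ c * (1 - c) * q ^ 2 := by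
    have h1 : R ≤ 1 - c := hR1.trans (by nlinarith)
    have h2 : c * q ^ 2 * R ≤ c * q ^ 2 * (1 - c) := mul_le_mul_of_nonneg_left h1 (by positivity)
    linarith
  linarith

/-! ### the sums -/

/-- the data of a row -/
private structure TbRow (i : ι) (p c y : ι → ℝ) (Q : ι → ι → ℝ) : Prop where
  hp0 : ∀ k, 0 ≤ p k
  hc0 : ∀ k, 0 ≤ c k
  hc1 : ∀ k, c k ≤ 1
  hy : ∀ k, y k ^ 2 = p k * c k
  hs : ∀ k m, Q k m = Q m k
  hid : ∀ k m, ∑ l, Q k l * Q l m = Q k m
  hQy : ∀ k, ∑ m, Q k m * y m = 0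
  hQd : ∀ k, Q k k = p k * (1 - c k)
  hQi : ∀ m, Q m i = 0
  hsum : ∑ k, p k * c k = 1
  hci : c i = 1

variable [DecidableEq ι]

private theorem TbRow.one {i : ι} {p c y : ι → ℝ} {Q : ι → ι → ℝ} (h : TbRow i p c y Q)
    {dl : ℝ} (lam cD : ℝ) (hdl : 0 < dl) (hcD : 0 ≤ cD) :
    4 * ∑ k, ∑ m, (c k ^ 2 * y k) * (Q k m * (c m * y m)) ≤
      ∑ j ∈ univ.erase i, p j * c j * (if c j ≤ cD then (1 + 1 / dl) * (c j + c j ^ 2 - lam) ^ 2
        else (1 + dl) * (1 - p i) * ((1 - c j) / c j) * (c j + c j ^ 2 - lam) ^ 2) := by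
  set hh : ι → ℝ := fun k => c k + c k ^ 2 - lam with hhdef
  set vF : ι → ℝ := fun k => if k = i then 0 else if c k ≤ cD then hh k * y k else 0 with hvF
  set vD : ι → ℝ := fun k => if k = i then 0 else if c k ≤ cD then 0 else hh k * y k with hvD
  have e1 : ∀ l, tbV Q (fun k => c k ^ 2 * y k) l + tbV Q (fun k => c k * y k) l =
      tbV Q vF l + tbV Q vD l := by
    intro l
    have h1 : lam * ∑ k, Q l k * y k = 0 := by rw [h.hQy, mul_zero]
    have h2 : tbV Q (fun k => c k ^ 2 * y k) l + tbV Q (fun k => c k * y k) l =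
        ∑ k, Q l k * (hh k * y k) + lam * ∑ k, Q l k * y k := by
      unfold tbV
      rw [Finset.mul_sum, ← Finset.sum_add_distrib, ← Finset.sum_add_distrib]
      refine Finset.sum_congr rfl fun k _ => ?_
      rw [hhdef]
      ring
    rw [h2, h1, add_zero]
    unfold tbV
    rw [← Finset.sum_add_distrib]
    refine Finset.sum_congr rfl fun k _ => ?_
    rw [hvF, hvD]
    dsimp only
    by_cases hk : k = i
    · rw [if_pos hk, if_pos hk, hk, h.hQi l]
      ring
    · rw [if_neg hk, if_neg hk]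
      split_ifs <;> ring
  have e2 : 4 * ∑ k, ∑ m, (c k ^ 2 * y k) * (Q k m * (c m * y m)) =
      ∑ l, 4 * (tbV Q (fun k => c k ^ 2 * y k) l * tbV Q (fun k => c k * y k) l) := by
    rw [← Finset.mul_sum, tb_inner h.hs h.hid]
  have e3 : ∑ l, 4 * (tbV Q (fun k => c k ^ 2 * y k) l * tbV Q (fun k => c k * y k) l) ≤
      (1 + 1 / dl) * ∑ l, tbV Q vF l ^ 2 + (1 + dl) * ∑ l, tbV Q vD l ^ 2 := by
    rw [Finset.mul_sum, Finset.mul_sum, ← Finset.sum_add_distrib]
    refine Finset.sum_le_sum fun l _ => ?_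
    have h1 := e1 l
    set a := tbV Q (fun k => c k ^ 2 * y k) l
    set b := tbV Q (fun k => c k * y k) l
    set f := tbV Q vF l
    set g := tbV Q vD l
    have h2 : 4 * (a * b) ≤ (f + g) ^ 2 := by
      rw [← h1]
      nlinarith [sq_nonneg (a - b)]
    have h3 : 2 * (f * g) ≤ 1 / dl * f ^ 2 + dl * g ^ 2 := by
      have h4 : 0 ≤ (f - dl * g) ^ 2 / dl := by positivity
      have h5 : (f - dl * g) ^ 2 / dl = 1 / dl * f ^ 2 - 2 * (f * g) + dl * g ^ 2 := by
        field_simp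
        ring
      linarith
    nlinarith
  have e4 : ∑ l, tbV Q vF l ^ 2 ≤ ∑ j ∈ univ.erase i,
      (if c j ≤ cD then p j * c j * hh j ^ 2 else 0) := by
    refine (tb_le h.hs h.hid vF).trans (le_of_eq ?_)
    rw [← Finset.add_sum_erase _ _ (Finset.mem_univ i)]
    have h1 : vF i = 0 := by rw [hvF]; simp
    rw [h1]
    have h2 : ∀ j ∈ univ.erase i, vF j ^ 2 = (if c j ≤ cD then p j * c j * hh j ^ 2 else 0) := by
      intro j hj
      have hji := Finset.ne_of_mem_erase hj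
      rw [hvF]
      dsimp only
      rw [if_neg hji]
      split_ifs
      · rw [mul_pow, h.hy]; ring
      · ring
    rw [Finset.sum_congr rfl h2]
    ring
  have e5 : ∑ l, tbV Q vD l ^ 2 ≤ (1 - p i) * ∑ j ∈ univ.erase i,
      (if c j ≤ cD then 0 else p j * (1 - c j) * hh j ^ 2) := by
    refine (tb_D h.hs h.hid vD).trans ?_
    have h1 : ∑ k, |vD k| * √(Q k k) = ∑ k ∈ univ.erase i,
        |y k| * ((if c k ≤ cD then 0 else |hh k|) * √(Q k k)) := by
      rw [← Finset.add_sum_erase _ _ (Finset.mem_univ i)]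
      have h2 : vD i = 0 := by rw [hvD]; simp
      rw [h2, abs_zero, zero_mul, zero_add]
      refine Finset.sum_congr rfl fun j hj => ?_
      have hji := Finset.ne_of_mem_erase hj
      rw [hvD]
      dsimp only
      rw [if_neg hji]
      split_ifs
      · simp
      · rw [abs_mul]; ring
    rw [h1]
    refine (Finset.sum_mul_sq_le_sq_mul_sq _ _ _).trans (le_of_eq ?_)
    congr 1
    · have h2 : ∑ k, |y k| ^ 2 = 1 := by
        rw [← h.hsum]
        exact Finset.sum_congr rfl fun k _ => by rw [sq_abs, h.hy]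
      rw [← Finset.add_sum_erase _ _ (Finset.mem_univ i), sq_abs, h.hy, h.hci] at h2
      linarith
    · refine Finset.sum_congr rfl fun j _ => ?_
      rw [mul_pow, Real.sq_sqrt (tb_nonneg h.hs h.hid j), h.hQd]
      split_ifs
      · ring
      · rw [sq_abs]; ring
  rw [e2]
  refine e3.trans ?_
  have h1 : (0 : ℝ) ≤ 1 + 1 / dl := by positivity
  have h2 : (0 : ℝ) ≤ 1 + dl := by positivity
  refine (add_le_add (mul_le_mul_of_nonneg_left e4 h1)
    (mul_le_mul_of_nonneg_left e5 h2)).trans (le_of_eq ?_)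
  rw [← mul_assoc, Finset.mul_sum, Finset.mul_sum, ← Finset.sum_add_distrib]
  refine Finset.sum_congr rfl fun j _ => ?_
  by_cases hj : c j ≤ cD
  · rw [if_pos hj, if_pos hj, if_pos hj]
    ring
  · rw [if_neg hj, if_neg hj, if_neg hj]
    have hcj : c j ≠ 0 := fun h0 => hj (by rw [h0]; exact hcD)
    field_simp
    ring

omit [DecidableEq ι] in
private theorem TbRow.three {i : ι} {p c y : ι → ℝ} {Q : ι → ι → ℝ} (h : TbRow i p c y Q)
    {K : ℝ} (hK : 0 < K) :
    4 * ∑ k, ∑ m, (c k * (1 - c k) * |y k|) * (|Q k m| * ((1 - c m) * |y m|)) ≤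
      2 * (K * (∑ k, p k * c k * (1 - c k) ^ 2)
        + (∑ k, p k * c k * (1 - c k)) * (∑ k, p k * c k ^ 2 * (1 - c k) ^ 2) / K) := by
  have hb : ∀ k, 0 ≤ 1 - c k := fun k => by linarith [h.hc1 k]
  set γ := ∑ k, p k * c k * (1 - c k) ^ 2 with hγ
  set β := ∑ k, p k * c k * (1 - c k) with hβ
  set Y := ∑ k, p k * c k ^ 2 * (1 - c k) ^ 2 with hY
  set a : ι → ℝ := fun k => ∑ m, |Q k m| * ((1 - c m) * |y m|) with ha
  have ha2 : ∀ k, a k ^ 2 ≤ Q k k * γ := by
    intro k
    refine (Finset.sum_mul_sq_le_sq_mul_sq _ _ _).trans (le_of_eq ?_)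
    congr 1
    · rw [← tb_diag h.hs h.hid k]
      exact Finset.sum_congr rfl fun m _ => sq_abs _
    · refine Finset.sum_congr rfl fun m _ => ?_
      rw [mul_pow, sq_abs, h.hy]
      ring
  have hγ0 : 0 ≤ γ := Finset.sum_nonneg fun k _ => by
    have := h.hp0 k; have := h.hc0 k; positivity
  have hβ0 : 0 ≤ β := Finset.sum_nonneg fun k _ => by
    have h1 := h.hp0 k; have h2 := h.hc0 k; have h3 := hb k; positivity
  have hY0 : 0 ≤ Y := Finset.sum_nonneg fun k _ => by
    have := h.hp0 k; positivity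
  set S := ∑ k, ∑ m, (c k * (1 - c k) * |y k|) * (|Q k m| * ((1 - c m) * |y m|)) with hS
  have e1 : S = ∑ k, (|y k| * √(1 - c k)) * (c k * √(1 - c k) * a k) := by
    rw [hS]
    refine Finset.sum_congr rfl fun k _ => ?_
    rw [← Finset.mul_sum]
    have h1 : √(1 - c k) * √(1 - c k) = 1 - c k := Real.mul_self_sqrt (hb k)
    calc c k * (1 - c k) * |y k| * ∑ m, |Q k m| * ((1 - c m) * |y m|)
        = c k * (√(1 - c k) * √(1 - c k)) * |y k| * a k := by rw [h1]
      _ = _ := by ring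
  have e2 : S ^ 2 ≤ γ * (β * Y) := by
    rw [e1]
    refine (Finset.sum_mul_sq_le_sq_mul_sq _ _ _).trans ?_
    have h1 : ∑ k, (|y k| * √(1 - c k)) ^ 2 = β := by
      refine Finset.sum_congr rfl fun k _ => ?_
      rw [mul_pow, sq_abs, h.hy, Real.sq_sqrt (hb k)]
    have h2 : ∑ k, (c k * √(1 - c k) * a k) ^ 2 ≤ γ * Y := by
      rw [hY, Finset.mul_sum]
      refine Finset.sum_le_sum fun k _ => ?_
      rw [mul_pow, mul_pow, Real.sq_sqrt (hb k)]
      have h3 := mul_le_mul_of_nonneg_left (ha2 k)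
        (mul_nonneg (sq_nonneg (c k)) (hb k))
      refine h3.trans (le_of_eq ?_)
      rw [h.hQd]
      ring
    rw [h1]
    calc β * ∑ k, (c k * √(1 - c k) * a k) ^ 2 ≤ β * (γ * Y) := mul_le_mul_of_nonneg_left h2 hβ0
      _ = _ := by ring
  have e3 : 2 * S ≤ K * γ + β * Y / K := by
    have h1 : 0 ≤ K * γ + β * Y / K := by positivity
    have h2 : (2 * S) ^ 2 ≤ (K * γ + β * Y / K) ^ 2 := by
      have h3 : (K * γ + β * Y / K) ^ 2 = (K * γ - β * Y / K) ^ 2 + 4 * (γ * (β * Y)) := by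
        field_simp
        ring
      rw [h3]
      nlinarith [sq_nonneg (K * γ - β * Y / K)]
    exact abs_le_of_sq_le_sq' h2 h1 |>.2
  linarith

/-! ### the row of a projection matrix -/

private theorem tbRow_of {P : ι → ι → ℝ} (h : ProjData P) (i : ι) (hi : P i i ≠ 0) :
    TbRow i (fun k => P k k) (cc P i) (fun k => P i k / √(P i i))
      (fun k m => P k m - P i k / √(P i i) * (P i m / √(P i i))) := by
  obtain ⟨h0, h1, hPc, _, hii, hone⟩ := cc_facts h
  have hπ : 0 < P i i := lt_of_le_of_ne (h.diag_nonneg i) (Ne.symm hi)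
  have hr : 0 < √(P i i) := Real.sqrt_pos.mpr hπ
  have hr2 : √(P i i) ^ 2 = P i i := Real.sq_sqrt hπ.le
  set r := √(P i i) with hrdef
  have hy : ∀ k, (P i k / r) ^ 2 = P k k * cc P i k := by
    intro k
    rw [div_pow, hr2, hPc i k]
    field_simp
  have hyP : ∀ k, ∑ l, P k l * (P i l / r) = P i k / r := by
    intro k
    have e1 : ∀ l, P k l * (P i l / r) = P k l * P l i / r := by
      intro l
      rw [h.symm i l]; ring
    rw [Finset.sum_congr rfl fun l _ => e1 l, ← Finset.sum_div, h.idem k i, h.symm k i]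
  have hyy : ∑ l, (P i l / r) ^ 2 = 1 := by
    rw [Finset.sum_congr rfl fun l _ => hy l]
    exact hone i hi
  refine ⟨fun k => h.diag_nonneg k, h0 i, h1 i, hy, ?_, ?_, ?_, ?_, ?_, hone i hi, hii i hi⟩
  · intro k m
    rw [h.symm k m]; ring
  · intro k m
    have e1 : ∀ l, (P k l - P i k / r * (P i l / r)) * (P l m - P i l / r * (P i m / r)) =
        P k l * P l m - (P i k / r) * (P m l * (P i l / r)) - (P i m / r) * (P k l * (P i l / r))
          + (P i k / r) * (P i m / r) * (P i l / r) ^ 2 := by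
      intro l
      rw [h.symm l m]; ring
    rw [Finset.sum_congr rfl fun l _ => e1 l, Finset.sum_add_distrib, Finset.sum_sub_distrib,
      Finset.sum_sub_distrib, ← Finset.mul_sum, ← Finset.mul_sum, ← Finset.mul_sum, h.idem k m,
      hyP m, hyP k, hyy]
    ring
  · intro k
    have e1 : ∀ m, (P k m - P i k / r * (P i m / r)) * (P i m / r) =
        P k m * (P i m / r) - P i k / r * (P i m / r) ^ 2 := by
      intro m
      ring
    rw [Finset.sum_congr rfl fun l _ => e1 l, Finset.sum_sub_distrib, ← Finset.mul_sum, hyP k, hyy]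
    ring
  · intro k
    have e1 := hy k
    linear_combination -e1
  · intro m
    have e1 : P i i / r = r := by
      rw [div_eq_iff hr.ne', ← hr2]; ring
    rw [e1, h.symm m i]
    field_simp
    ring

omit [DecidableEq ι] in
private theorem TbRow.term {P : ι → ι → ℝ} {i : ι} {y : ι → ℝ} {Q : ι → ι → ℝ}
    (h : TbRow i (fun k => P k k) (cc P i) y Q) (hPQ : ∀ k m, P k m = y k * y m + Q k m)
    (k m : ι) :
    P k k * cc P i k * (P m m * cc P k m ^ 2) ≤
      cc P i k ^ 3 * P k k * (P m m * cc P i m ^ 2)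
        + 4 * ((cc P i k ^ 2 * y k) * (Q k m * (cc P i m * y m)))
        + 6 * (cc P i k ^ 2 * (P k k * (1 - cc P i k)) * (cc P i m * (P m m * (1 - cc P i m))))
        + 4 * ((cc P i k * (1 - cc P i k) * |y k|) * (|Q k m| * ((1 - cc P i m) * |y m|)))
        + cc P i k * (1 - cc P i k) * Q k m ^ 2 := by
  have hcs := tb_cs h.hs h.hid k m
  rw [h.hQd, h.hQd] at hcs
  have hyk := h.hy k
  have hym := h.hy m
  rcases (h.hp0 k).eq_or_lt with hk | hk
  · have hk' : P k k = 0 := hk.symm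
    have h1 : y k = 0 := by
      rw [hk', zero_mul] at hyk
      exact pow_eq_zero_iff (n := 2) (by norm_num) |>.mp hyk
    have h2 : Q k m = 0 := by
      rw [hk', zero_mul, zero_mul] at hcs
      exact pow_eq_zero_iff (n := 2) (by norm_num) |>.mp (le_antisymm hcs (sq_nonneg _))
    rw [hk', h1, h2]
    simp
  · rcases (h.hp0 m).eq_or_lt with hm | hm
    · have hm' : P m m = 0 := hm.symm
      have h1 : y m = 0 := by
        rw [hm', zero_mul] at hym
        exact pow_eq_zero_iff (n := 2) (by norm_num) |>.mp hym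
      have h2 : Q k m = 0 := by
        rw [hm', zero_mul, mul_zero] at hcs
        exact pow_eq_zero_iff (n := 2) (by norm_num) |>.mp (le_antisymm hcs (sq_nonneg _))
      rw [hm', h1, h2]
      simp
    · have e1 : cc P k m = (y k * y m + Q k m) ^ 2 / (P k k * P m m) := by
        rw [← hPQ k m]; rfl
      rw [e1]
      exact tb_term hk hm (h.hc0 k) (h.hc1 k) (h.hc0 m) (h.hc1 m) hyk hym hcs

omit [DecidableEq ι] in
private theorem TbRow.total {P : ι → ι → ℝ} {i : ι} {y : ι → ℝ} {Q : ι → ι → ℝ}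
    (h : TbRow i (fun k => P k k) (cc P i) y Q) (hPQ : ∀ k m, P k m = y k * y m + Q k m) :
    ∑ k, P k k * cc P i k * AA P k ≤
      (∑ k, P k k * cc P i k ^ 3) * (∑ k, P k k * cc P i k ^ 2)
        + 4 * ∑ k, ∑ m, (cc P i k ^ 2 * y k) * (Q k m * (cc P i m * y m))
        + 6 * ((∑ k, P k k * cc P i k ^ 2 * (1 - cc P i k))
            * (∑ k, P k k * cc P i k * (1 - cc P i k)))
        + 4 * ∑ k, ∑ m, (cc P i k * (1 - cc P i k) * |y k|)
            * (|Q k m| * ((1 - cc P i m) * |y m|))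
        + ∑ k, P k k * cc P i k * (1 - cc P i k) ^ 2 := by
  have e0 : ∑ k, P k k * cc P i k * AA P k =
      ∑ k, ∑ m, P k k * cc P i k * (P m m * cc P k m ^ 2) := by
    refine Finset.sum_congr rfl fun k _ => ?_
    unfold AA
    rw [Finset.mul_sum]
  rw [e0]
  refine (Finset.sum_le_sum fun k _ => Finset.sum_le_sum fun m _ => h.term hPQ k m).trans
    (le_of_eq ?_)
  simp only [Finset.sum_add_distrib]
  congr 1
  · congr 1
    · congr 1
      · congr 1
        · rw [Finset.sum_mul_sum]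
          refine Finset.sum_congr rfl fun k _ => Finset.sum_congr rfl fun m _ => ?_
          ring
        · rw [Finset.mul_sum]
          refine Finset.sum_congr rfl fun k _ => ?_
          rw [Finset.mul_sum]
      · rw [Finset.sum_mul_sum, Finset.mul_sum]
        refine Finset.sum_congr rfl fun k _ => ?_
        rw [Finset.mul_sum]
        refine Finset.sum_congr rfl fun m _ => ?_
        ring
    · rw [Finset.mul_sum]
      refine Finset.sum_congr rfl fun k _ => ?_
      rw [Finset.mul_sum]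
  · refine Finset.sum_congr rfl fun k _ => ?_
    rw [← Finset.mul_sum, tb_diag h.hs h.hid, h.hQd]
    ring

/-- **The main transfer inequality.** -/
theorem TT_ge2 {P : ι → ι → ℝ} (h : ProjData P) (i : ι) (hi : P i i ≠ 0)
    {B K dl lam cD : ℝ} (hB : bet i (cc P i) h.s ≤ B) (hK : 0 < K) (hdl : 0 < dl)
    (hcD : 0 ≤ cD) :
    ∑ j ∈ univ.erase i, (1 - h.s j ^ 2) * cc P i j * tau B K dl lam cD (h.s i) (cc P i j) ≤
      TT P i := by
  have hR := tbRow_of h i hi
  set y : ι → ℝ := fun k => P i k / √(P i i) with hy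
  set Q : ι → ι → ℝ := fun k m => P k m - P i k / √(P i i) * (P i m / √(P i i)) with hQ
  have hPQ : ∀ k m, P k m = y k * y m + Q k m := by
    intro k m
    rw [hy, hQ]
    ring
  have htot := hR.total hPQ
  have hone := hR.one lam cD hdl hcD
  have hthree := hR.three hK
  have hsum := hR.hsum
  have hc0 := hR.hc0
  have hc1 := hR.hc1
  have hd := h.diag_nonneg
  have hci := hR.hci
  set X1 := 4 * ∑ k, ∑ m, (cc P i k ^ 2 * y k) * (Q k m * (cc P i m * y m)) with hX1
  set X3 := 4 * ∑ k, ∑ m, (cc P i k * (1 - cc P i k) * |y k|)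
    * (|Q k m| * ((1 - cc P i m) * |y m|)) with hX3
  set c : ι → ℝ := cc P i with hc
  set β := ∑ k, P k k * c k * (1 - c k) with hβ
  set γ := ∑ k, P k k * c k * (1 - c k) ^ 2 with hγ
  set Z := ∑ k, P k k * c k ^ 2 * (1 - c k) with hZ
  set Y := ∑ k, P k k * c k ^ 2 * (1 - c k) ^ 2 with hY
  have hA2 : ∑ k, P k k * c k ^ 2 = 1 - β := by
    rw [← hsum, hβ, ← Finset.sum_sub_distrib]
    exact Finset.sum_congr rfl fun k _ => by ring
  have hA3 : ∑ k, P k k * c k ^ 3 = 1 - β - Z := by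
    rw [← hA2, hZ, ← Finset.sum_sub_distrib]
    exact Finset.sum_congr rfl fun k _ => by ring
  have hγ2 : γ = β - Z := by
    rw [hγ, hβ, hZ, ← Finset.sum_sub_distrib]
    exact Finset.sum_congr rfl fun k _ => by ring
  have hAA : AA P i = 1 - β := hA2
  have hβ0 : 0 ≤ β := Finset.sum_nonneg fun k _ =>
    mul_nonneg (mul_nonneg (hd k) (hc0 k)) (by linarith [hc1 k])
  have hZ0 : 0 ≤ Z := Finset.sum_nonneg fun k _ =>
    mul_nonneg (mul_nonneg (hd k) (sq_nonneg _)) (by linarith [hc1 k])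
  have hY0 : 0 ≤ Y := Finset.sum_nonneg fun k _ =>
    mul_nonneg (mul_nonneg (hd k) (sq_nonneg _)) (sq_nonneg _)
  have hss : h.s i ^ 2 = 1 - P i i := by linarith [h.s_sq i]
  have hβB : β ≤ B := by
    have e1 : bet i c h.s = β := by
      unfold bet
      rw [hβ, ← Finset.add_sum_erase univ (fun k => P k k * c k * (1 - c k)) (Finset.mem_univ i),
        hci]
      simp only [sub_self, mul_zero, zero_add]
      refine Finset.sum_congr rfl fun j _ => ?_
      rw [h.s_sq]
    rw [← e1]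
    exact hB
  have hsplit : ∑ j ∈ univ.erase i, (1 - h.s j ^ 2) * c j * tau B K dl lam cD (h.s i) (c j) =
      2 * Z - B * (β + 7 * Z) - 2 * K * γ - 2 / K * B * Y
        - ∑ j ∈ univ.erase i, P j j * c j *
          (if c j ≤ cD then (1 + 1 / dl) * (c j + c j ^ 2 - lam) ^ 2
            else (1 + dl) * (1 - P i i) * ((1 - c j) / c j) * (c j + c j ^ 2 - lam) ^ 2) := by
    have hfull : 2 * Z - B * (β + 7 * Z) - 2 * K * γ - 2 / K * B * Y =
        ∑ j, P j j * c j * (2 * c j * (1 - c j) - B * (1 - c j) * (1 + 7 * c j)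
          - 2 * K * (1 - c j) ^ 2 - 2 / K * B * c j * (1 - c j) ^ 2) := by
      rw [hZ, hβ, hγ, hY]
      simp only [Finset.mul_sum, ← Finset.sum_add_distrib, ← Finset.sum_sub_distrib]
      refine Finset.sum_congr rfl fun j _ => ?_
      ring
    rw [hfull, ← Finset.add_sum_erase univ (fun j => P j j * c j * (2 * c j * (1 - c j)
      - B * (1 - c j) * (1 + 7 * c j) - 2 * K * (1 - c j) ^ 2
      - 2 / K * B * c j * (1 - c j) ^ 2)) (Finset.mem_univ i), hci]
    simp only [sub_self, mul_zero, zero_mul, ne_eq, OfNat.ofNat_ne_zero,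
      not_false_eq_true, zero_pow, zero_add]
    rw [← Finset.sum_sub_distrib]
    refine Finset.sum_congr rfl fun j _ => ?_
    rw [h.s_sq]
    unfold tau
    rw [hss]
    split_ifs <;> ring
  rw [hsplit]
  unfold TT
  rw [hAA]
  rw [hA2, hA3] at htot
  have htot' : ∑ k, P k k * cc P i k * AA P k ≤
    (1 - β - Z) * (1 - β) + X1 + 6 * (Z * β) + X3 + γ := htot
  have h1 : β * (β + 7 * Z) ≤ B * (β + 7 * Z) :=
    mul_le_mul_of_nonneg_right hβB (by linarith)
  have h2 : 2 / K * β * Y ≤ 2 / K * B * Y := by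
    have h3 : (0 : ℝ) ≤ 2 / K := by positivity
    exact mul_le_mul_of_nonneg_right (mul_le_mul_of_nonneg_left hβB h3) hY0
  have h3 : 2 * (K * γ + β * Y / K) = 2 * K * γ + 2 / K * β * Y := by
    field_simp
  rw [h3] at hthree
  nlinarith [htot', hone, hthree, h1, h2, hγ2]

end Pool.Agent.DSX
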