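import Pool.Agent.DSX.RowTwo
import Pool.Agent.DSX.TransferA
import Pool.Agent.DSX.SavConv
import Pool.Agent.DSX.TransferB

/-!
# The transport inequality for `m = 2` (helper57)
-/

set_option autoImplicit false

namespace Pool.Agent.DSX

open Finset Pool.Agent.Helper86.DistSum

variable {ι : Type*} [Fintype ι] [DecidableEq ι]

/-- RowHyp for the row of a projection matrix. -/
theorem rowHyp_of {P : ι → ι → ℝ} (h : ProjData P) (i : ι) (hi : P i i ≠ 0) :
    RowHyp i (cc P i) h.s (TT P i) := by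
  obtain ⟨h0, h1, _, _, hii, hone⟩ := cc_facts h
  refine ⟨h.s_pos, h.s_le, h0 i, h1 i, hii i hi, ?_, TT_ge1 h i hi, ?_⟩
  · refine (Finset.sum_congr rfl ?_).trans (hone i hi)
    intro j _
    rw [h.s_sq, mul_comm]
  · intro B K dl lam cD hB hK hdl hcD
    exact TT_ge2 h i hi hB hK hdl hcD

/-- the row functional of the matrix. -/
noncomputable def W2 {P : ι → ι → ℝ} (h : ProjData P) (i : ι) : ℝ :=
  ∑ j, P i j ^ 2 / P j j * (ee (h.s j) - LL 2 (P j j))
    + ∑ j ∈ univ.erase i, P i j ^ 2 * S1 (h.s i) (√(cc P i j)) + tht * (P i i * TT P i)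

theorem W2_eq {P : ι → ι → ℝ} (h : ProjData P) (i : ι) (hi : P i i ≠ 0) :
    W2 h i = P i i * RR i (cc P i) h.s (TT P i) := by
  obtain ⟨h0, h1, hPc, _, hii, hone⟩ := cc_facts h
  unfold W2 RR
  rw [mul_add, mul_add, Finset.mul_sum, Finset.mul_sum]
  congr 1
  · congr 1
    · apply Finset.sum_congr rfl
      intro j _
      rw [h.s_sq]
      by_cases hj : P j j = 0
      · have hz : P i j = 0 := by rw [h.symm]; exact h.eq_zero_of_diag hj i
        have hc0 : cc P i j = 0 := by unfold cc; rw [hj]; simp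
        rw [hz, hc0]; simp
      · rw [hPc i j]
        field_simp
    · apply Finset.sum_congr rfl
      intro j _
      rw [h.s_sq, hPc i j]
      ring
  · ring

theorem W2_nonneg {P : ι → ι → ℝ} (h : ProjData P) (i : ι) :
    0 ≤ W2 h i ∧ (P i i ≠ 0 → W2 h i = 0 →
      (P i i = 1 / 2 ∨ P i i = 1 / 3) ∧
      (∀ j, P i j ≠ 0 → P j j = P i i ∧ (j ≠ i → cc P i j = 1))) := by
  obtain ⟨h0, h1, hPc, _, hii, hone⟩ := cc_facts h
  by_cases hi : P i i = 0
  · constructor
    · unfold W2
      have hz := h.eq_zero_of_diag hi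
      simp [hz]
    · intro h'; exact absurd hi h'
  · have hip : 0 < P i i := lt_of_le_of_ne (h.diag_nonneg i) (Ne.symm hi)
    have hrow := row_two i (cc P i) h.s (TT P i) (rowHyp_of h i hi)
    rw [W2_eq h i hi]
    constructor
    · exact mul_nonneg hip.le hrow.1
    · intro _ hW0
      have h00 := (mul_eq_zero.mp hW0).resolve_left hi
      obtain ⟨r1, r2, r3⟩ := hrow.2 h00
      rw [h.s_sq] at r1
      refine ⟨r1, ?_⟩
      intro j hj
      have hcj : cc P i j ≠ 0 := by
        intro hz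
        have := hPc i j
        rw [hz, mul_zero] at this
        exact hj (pow_eq_zero_iff (n := 2) (by norm_num) |>.mp this)
      have hsj := r2 j hcj
      refine ⟨?_, fun hji => r3 j hji hcj⟩
      rw [← h.s_sq j, ← h.s_sq i, hsj]

/-- Transport inequality for `m = 2`. -/
theorem transport2 {P : ι → ι → ℝ} (h : ProjData P) :
    ∑ i, LL 2 (P i i) ≤ ∑ i, ee (h.s i)
      + offsum (fun i j => P i j ^ 2 * SS (h.s i) (h.s j) (P i j)) ∧
    (∑ i, LL 2 (P i i) = ∑ i, ee (h.s i)
        + offsum (fun i j => P i j ^ 2 * SS (h.s i) (h.s j) (P i j)) →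
      ∀ i, (P i i = 1 / ((2 : ℕ) : ℝ) ∨ P i i = 1 / (((2 : ℕ) : ℝ) + 1)) ∧
        (∀ j, P i j ≠ 0 → P j j = P i i ∧ P i j = P i i)) := by
  have hsplit := offsum_split h
  have hWsum : ∑ i, W2 h i = ∑ j, (if P j j = 0 then 0 else ee (h.s j) - LL 2 (P j j))
      + offsum (fun i j => P i j ^ 2 * S1 (h.s i) (√(cc P i j))) := by
    unfold W2 offsum
    rw [Finset.sum_add_distrib, Finset.sum_add_distrib, ← Finset.mul_sum, TT_sum h, mul_zero,
      add_zero]
    congr 1
    rw [Finset.sum_comm]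
    apply Finset.sum_congr rfl
    intro j _
    rw [← Finset.sum_mul, ← Finset.sum_div]
    have : ∑ i, P i j ^ 2 = P j j := by
      rw [← h.sumsq j]
      apply Finset.sum_congr rfl
      intro i _
      rw [h.symm]
    rw [this]
    split_ifs with h0
    · rw [h0]; simp
    · rw [div_self h0, one_mul]
  have hterm : ∀ j, (if P j j = 0 then 0 else ee (h.s j) - LL 2 (P j j))
      ≤ ee (h.s j) - LL 2 (P j j) ∧
      ((if P j j = 0 then 0 else ee (h.s j) - LL 2 (P j j)) = ee (h.s j) - LL 2 (P j j) →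
        P j j ≠ 0) := by
    intro j
    split_ifs with h0
    · have hs1 : h.s j = 1 := by
        unfold ProjData.s; rw [h0]; simp
      have he : ee (h.s j) = 0 := by rw [hs1]; unfold ee; norm_num
      have hL := LL_zero_neg (m := 2) le_rfl
      rw [he, h0]
      constructor
      · linarith
      · intro h'; linarith
    · exact ⟨le_refl _, fun _ => h0⟩
  have hWn : 0 ≤ ∑ i, W2 h i := Finset.sum_nonneg (fun i _ => (W2_nonneg h i).1)
  have hle : ∑ j, (if P j j = 0 then 0 else ee (h.s j) - LL 2 (P j j))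
      ≤ ∑ j, (ee (h.s j) - LL 2 (P j j)) := Finset.sum_le_sum (fun j _ => (hterm j).1)
  have hsub : ∑ j, (ee (h.s j) - LL 2 (P j j)) = ∑ i, ee (h.s i) - ∑ i, LL 2 (P i i) :=
    Finset.sum_sub_distrib _ _
  constructor
  · linarith [hsplit.1]
  · intro heq i
    have h1 : ∑ i, W2 h i = 0 := by linarith [hsplit.1]
    have h2 : ∑ j, (if P j j = 0 then 0 else ee (h.s j) - LL 2 (P j j))
      = ∑ j, (ee (h.s j) - LL 2 (P j j)) := by linarith [hsplit.1]
    have h6 : offsum (fun i j => P i j ^ 2 * S1 (h.s i) (√(cc P i j)))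
      = offsum (fun i j => P i j ^ 2 * SS (h.s i) (h.s j) (P i j)) := by linarith [hsplit.1]
    have h7 := hsplit.2 h6
    have h3 := (Finset.sum_eq_sum_iff_of_le (fun j _ => (hterm j).1)).mp h2 i (Finset.mem_univ i)
    have h4 := (hterm i).2 h3
    have h5 := (Finset.sum_eq_zero_iff_of_nonneg (fun i _ => (W2_nonneg h i).1)).mp h1 i
      (Finset.mem_univ i)
    obtain ⟨r1, r2⟩ := (W2_nonneg h i).2 h4 h5
    refine ⟨?_, ?_⟩
    · rcases r1 with r | r
      · left; rw [r]; norm_num
      · right; rw [r]; norm_num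
    · intro j hj
      obtain ⟨hjj, hc⟩ := r2 j hj
      refine ⟨hjj, ?_⟩
      by_cases hji : j = i
      · rw [hji]
      · have hc1 := hc hji
        have h8 := h7 i j (Ne.symm hji)
        have hsj : h.s j = h.s i := by unfold ProjData.s; rw [hjj]
        have hS1 : S1 (h.s i) (√(cc P i j)) = 0 := by
          rw [hc1, Real.sqrt_one]; unfold S1; simp
        rw [hsj, hS1] at h8
        have hP2 : P i j ^ 2 ≠ 0 := pow_ne_zero 2 hj
        have h9 : SS (h.s i) (h.s i) (P i j) = 0 := by
          have : P i j ^ 2 * SS (h.s i) (h.s i) (P i j) = 0 := by rw [h8]; ring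
          exact (mul_eq_zero.mp this).resolve_left hP2
        have habs := h.abs_le i j
        rw [hsj] at habs
        have := SS_eq_zero (h.s_pos i) (by linarith) h9
        rw [this, h.s_sq]

end Pool.Agent.DSX
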